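import Pool.Agent.Lib.MP_328240_co.H73Main

/-!
Level iteration: if rare differences carry few solutions of the sixfold equation, then many
solutions have two middles.
-/

set_option autoImplicit false

namespace Pool.Agent.Lib.MP_328240_co

open Finset

universe u

variable {G : Type u} [AddCommGroup G]

open Classical in
/-- Representations of `x` as a difference. -/
noncomputable def Rp (A : Finset G) (x : G) : Finset (G × G) :=
  (A ×ˢ A).filter fun p => p.1 - p.2 = x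

lemma mem_Rp {A : Finset G} {x : G} {p : G × G} :
    p ∈ Rp A x ↔ p.1 ∈ A ∧ p.2 ∈ A ∧ p.1 - p.2 = x := by
  simp only [Rp, Finset.mem_filter, Finset.mem_product, and_assoc]

/-- The number of representations of `x` as a difference. -/
noncomputable def rd (A : Finset G) (x : G) : ℕ := (Rp A x).card

open Classical in
/-- Pairs whose difference has at most `l` representations. -/
noncomputable def low (A : Finset G) (l : ℝ) : Finset (G × G) :=
  (A ×ˢ A).filter fun p => (rd A (p.1 - p.2) : ℝ) ≤ l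

lemma mem_low {A : Finset G} {l : ℝ} {p : G × G} :
    p ∈ low A l ↔ p.1 ∈ A ∧ p.2 ∈ A ∧ (rd A (p.1 - p.2) : ℝ) ≤ l := by
  simp only [low, Finset.mem_filter, Finset.mem_product, and_assoc]

/-- The energy carried by differences with at most `l` representations. -/
noncomputable def ml (A : Finset G) (l : ℝ) : ℕ := ∑ p ∈ low A l, rd A (p.1 - p.2)

open Classical in
/-- Solutions of the sixfold equation whose first difference has at most `l` representations. -/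
noncomputable def Zl (A : Finset G) (l : ℝ) : ℕ :=
  ((low A l ×ˢ ((A ×ˢ A) ×ˢ (A ×ˢ A))).filter fun z =>
    z.1.1 - z.1.2 + ((z.2.1.1 - z.2.1.2) + (z.2.2.1 - z.2.2.2)) = 0).card

lemma rd_le (A : Finset G) (x : G) : rd A x ≤ A.card :=
  Finset.card_le_card_of_injOn Prod.fst (fun _ hp => (mem_Rp.1 hp).1) fun p hp q hq h => by
    have a := (mem_Rp.1 hp).2.2
    have b := (mem_Rp.1 hq).2.2
    exact Prod.ext h (by clear * - a b h; grind)

lemma rd_pos {A : Finset G} {a b : G} (ha : a ∈ A) (hb : b ∈ A) : 0 < rd A (a - b) :=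
  Finset.card_pos.2 ⟨(a, b), mem_Rp.2 ⟨ha, hb, rfl⟩⟩

lemma ml_eq_zero (A : Finset G) {l : ℝ} (hl : l < 1) : ml A l = 0 := by
  unfold ml
  refine Finset.sum_eq_zero fun p hp => ?_
  obtain ⟨h1, h2, h3⟩ := mem_low.1 hp
  have : (1 : ℝ) ≤ rd A (p.1 - p.2) := by exact_mod_cast rd_pos h1 h2
  linarith

open Classical in
lemma low_part (A : Finset G) (l : ℝ) :
    ∑ τ ∈ (A ×ˢ (A ×ˢ A)).filter (fun τ => (rd A (τ.2.1 - τ.2.2) : ℝ) ≤ l),
      rd A (τ.1 - τ.2.1) * rd A (τ.1 - τ.2.2) ≤ Zl A l := by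
  unfold rd
  simp only [← Finset.card_product]
  rw [← Finset.card_sigma]
  refine Finset.card_le_card_of_injOn (fun z => (z.1.2, (z.2.1, z.2.2.swap))) (fun z hz => ?_)
    fun z hz w hw h => ?_
  · obtain ⟨h1, h2⟩ := Finset.mem_sigma.1 hz
    obtain ⟨h1, h3⟩ := Finset.mem_filter.1 h1
    simp only [Finset.mem_product, mem_Rp] at h1 h2
    refine Finset.mem_filter.2 ⟨?_, ?_⟩
    · simp only [Finset.mem_product, mem_low, Prod.fst_swap, Prod.snd_swap]
      exact ⟨⟨h1.2.1, h1.2.2, h3⟩, ⟨h2.1.1, h2.1.2.1⟩, h2.2.2.1, h2.2.1⟩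
    · have a := h2.1.2.2
      have b := h2.2.2.2
      simp only [Prod.fst_swap, Prod.snd_swap]
      clear * - a b; grind
  · have a := (mem_Rp.1 (Finset.mem_product.1 (Finset.mem_sigma.1 hz).2).1).2.2
    have b := (mem_Rp.1 (Finset.mem_product.1 (Finset.mem_sigma.1 hw).2).1).2.2
    obtain ⟨⟨z1, z2, z3⟩, ⟨z4, z5⟩, z6, z7⟩ := z
    obtain ⟨⟨w1, w2, w3⟩, ⟨w4, w5⟩, w6, w7⟩ := w
    simp only [Prod.mk.injEq, Prod.swap_prod_mk, Sigma.mk.injEq, heq_eq_eq] at a b h ⊢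
    clear * - a b h; grind

lemma six_part (A : Finset G) (K : Finset (G × G)) :
    ∑ κ ∈ K, rd A κ.1 * rd A (κ.1 + κ.2) * rd A κ.2 ≤ energy 3 A := by
  unfold rd
  simp only [← Finset.card_product]
  rw [← Finset.card_sigma]
  refine Finset.card_le_card_of_injOn (fun z => (![z.2.1.1.1, z.2.2.1, z.2.1.2.2],
    ![z.2.1.1.2, z.2.2.2, z.2.1.2.1])) (fun z hz => ?_) fun z hz w hw h => ?_
  · obtain ⟨-, h2⟩ := Finset.mem_sigma.1 hz
    simp only [Finset.mem_product, mem_Rp] at h2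
    obtain ⟨⟨⟨a1, a2, a3⟩, b1, b2, b3⟩, c1, c2, c3⟩ := h2
    refine mem_sols.2 ⟨fun i => ?_, fun i => ?_, ?_⟩
    · fin_cases i <;> simpa
    · fin_cases i <;> simpa
    · simp only [Fin.sum_univ_three, Matrix.cons_val_zero, Matrix.cons_val_one, Matrix.cons_val]
      clear * - a3 b3 c3; grind
  · have a := (Finset.mem_sigma.1 hz).2
    have b := (Finset.mem_sigma.1 hw).2
    simp only [Finset.mem_product, mem_Rp] at a b
    have a1 := a.1.1.2.2
    have a2 := a.2.2.2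
    have b1 := b.1.1.2.2
    have b2 := b.2.2.2
    obtain ⟨⟨z1, z2⟩, ⟨⟨z3, z4⟩, z5, z6⟩, z7, z8⟩ := z
    obtain ⟨⟨w1, w2⟩, ⟨⟨w3, w4⟩, w5, w6⟩, w7, w8⟩ := w
    simp only [Prod.mk.injEq, Matrix.vecCons_inj, Sigma.mk.injEq, heq_eq_eq] at a1 a2 b1 b2 h ⊢
    clear * - a1 a2 b1 b2 h; grind

open Classical in
/-- Triangles with prescribed sides. -/
noncomputable def Tri (A : Finset G) (κ : G × G) : Finset (G × G × G) :=
  (A ×ˢ (A ×ˢ A)).filter fun τ => (τ.1 - τ.2.1, τ.2.1 - τ.2.2) = κ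

lemma mem_Tri {A : Finset G} {κ : G × G} {τ : G × G × G} : τ ∈ Tri A κ ↔
    τ.1 ∈ A ∧ τ.2.1 ∈ A ∧ τ.2.2 ∈ A ∧ τ.1 - τ.2.1 = κ.1 ∧ τ.2.1 - τ.2.2 = κ.2 := by
  simp only [Tri, Finset.mem_filter, Finset.mem_product, and_assoc, Prod.ext_iff]

lemma mid_part (A : Finset G) (K : Finset (G × G)) :
    ∑ κ ∈ K, rd A κ.1 * ((Tri A κ).card * (Tri A κ).card) ≤ mids A 2 := by
  classical
  unfold rd mids
  simp only [← Finset.card_product]
  rw [← Finset.card_sigma]
  refine Finset.card_le_card_of_injOn (fun z => (![z.2.2.1.1, z.2.1.2, z.2.2.2.2.2],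
    ![z.2.2.2.2.1, z.2.1.1, z.2.2.1.2.2])) (fun z hz => ?_) fun z hz w hw h => ?_
  · obtain ⟨-, h2⟩ := Finset.mem_sigma.1 hz
    simp only [Finset.mem_product, mem_Rp, mem_Tri] at h2
    obtain ⟨⟨a1, a2, a3⟩, ⟨b1, b2, b3, b4, b5⟩, c1, c2, c3, c4, c5⟩ := h2
    simp only [Finset.coe_filter, Set.mem_ofPred_eq]
    refine ⟨mem_sols.2 ⟨fun i => ?_, fun i => ?_, ?_⟩,
      Finset.one_lt_card.2 ⟨(2, 1), ?_, (1, 2), ?_, by decide⟩⟩
    · fin_cases i <;> simpa
    · fin_cases i <;> simpa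
    · simp only [Fin.sum_univ_three, Matrix.cons_val_zero, Matrix.cons_val_one, Matrix.cons_val]
      clear * - a3 b4 b5 c4 c5; grind
    · simp only [Finset.mem_filter, Finset.mem_univ, true_and, Fin.sum_univ_three,
        Matrix.cons_val_zero, Matrix.cons_val_one, Matrix.cons_val]
      convert b2 using 1
      clear * - a3 b4; grind
    · simp only [Finset.mem_filter, Finset.mem_univ, true_and, Fin.sum_univ_three,
        Matrix.cons_val_zero, Matrix.cons_val_one, Matrix.cons_val]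
      convert c1 using 1
      clear * - b4 b5 c4 c5; grind
  · have a := (Finset.mem_sigma.1 hz).2
    have b := (Finset.mem_sigma.1 hw).2
    simp only [Finset.mem_product, mem_Rp, mem_Tri] at a b
    obtain ⟨⟨-, -, a1⟩, ⟨-, -, -, a2, a3⟩, -, -, -, a4, a5⟩ := a
    obtain ⟨⟨-, -, b1⟩, ⟨-, -, -, b2, b3⟩, -, -, -, b4, b5⟩ := b
    obtain ⟨⟨z1, z2⟩, ⟨z3, z4⟩, ⟨z5, z6, z7⟩, z8, z9, z10⟩ := z
    obtain ⟨⟨w1, w2⟩, ⟨w3, w4⟩, ⟨w5, w6, w7⟩, w8, w9, w10⟩ := w
    simp only [Prod.mk.injEq, Matrix.vecCons_inj, Sigma.mk.injEq, heq_eq_eq] at *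
    clear * - a1 a2 a3 a4 a5 b1 b2 b3 b4 b5 h; grind

lemma level_step (A : Finset G) {l l' Λ η : ℝ} (hΛ : 0 < Λ) (hη : 0 < η) (hl : l ≤ Λ * l') :
    (ml A l : ℝ) ^ 2 ≤ A.card * (Zl A l' + η / 2 * energy 3 A + Λ / (2 * η) * mids A 2) := by
  classical
  set F : G → ℝ := fun x => if (rd A x : ℝ) ≤ l then (rd A x : ℝ) else 0 with hF
  have hF0 : ∀ x, 0 ≤ F x := fun x => by simp only [hF]; split_ifs <;> positivity
  have hF1 : ∀ x, F x ≤ rd A x := fun x => by
    simp only [hF]; split_ifs; exacts [le_rfl, by positivity]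
  have e1 : (ml A l : ℝ) = ∑ a ∈ A, ∑ c ∈ A, F (a - c) := by
    unfold ml low
    push_cast
    rw [Finset.sum_filter, Finset.sum_product]
  have e2 : ∑ a ∈ A, (∑ c ∈ A, F (a - c)) ^ 2 =
      ∑ τ ∈ A ×ˢ (A ×ˢ A), F (τ.1 - τ.2.1) * F (τ.1 - τ.2.2) := by
    rw [Finset.sum_product]
    exact Finset.sum_congr rfl fun a _ => by rw [sq, Finset.sum_mul_sum, Finset.sum_product]
  rw [e1]
  refine (sq_sum_le_card_mul_sum_sq (s := A) (f := fun a => ∑ c ∈ A, F (a - c))).trans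
    (mul_le_mul_of_nonneg_left ?_ (Nat.cast_nonneg _))
  rw [e2, ← Finset.sum_filter_add_sum_filter_not _ (fun τ => (rd A (τ.2.1 - τ.2.2) : ℝ) ≤ l'),
    add_assoc]
  refine add_le_add ?_ ?_
  · refine le_trans (Finset.sum_le_sum fun τ _ =>
      mul_le_mul (hF1 _) (hF1 _) (hF0 _) (Nat.cast_nonneg _)) ?_
    exact_mod_cast low_part A l'
  set W : G × G → ℝ := fun κ => if ¬ (rd A κ.2 : ℝ) ≤ l' then F κ.1 * F (κ.1 + κ.2) else 0 with hW
  set key : G × G × G → G × G := fun τ => (τ.1 - τ.2.1, τ.2.1 - τ.2.2) with hkey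
  have e3 : ∑ τ ∈ (A ×ˢ (A ×ˢ A)).filter (fun τ => ¬ (rd A (τ.2.1 - τ.2.2) : ℝ) ≤ l'),
      F (τ.1 - τ.2.1) * F (τ.1 - τ.2.2) = ∑ τ ∈ A ×ˢ (A ×ˢ A), W (key τ) := by
    rw [Finset.sum_filter]
    exact Finset.sum_congr rfl fun τ _ => by simp only [hW, hkey, sub_add_sub_cancel]
  rw [e3, Finset.sum_comp W key]
  set K := (A ×ˢ (A ×ˢ A)).image key
  have h6 : ((∑ κ ∈ K, rd A κ.1 * rd A (κ.1 + κ.2) * rd A κ.2 : ℕ) : ℝ) ≤ energy 3 A := by
    exact_mod_cast six_part A K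
  have hm : ((∑ κ ∈ K, rd A κ.1 * ((Tri A κ).card * (Tri A κ).card) : ℕ) : ℝ) ≤ mids A 2 := by
    exact_mod_cast mid_part A K
  refine le_trans ?_ (add_le_add (mul_le_mul_of_nonneg_left h6 (by positivity))
    (mul_le_mul_of_nonneg_left hm (by positivity)))
  push_cast
  rw [Finset.mul_sum, Finset.mul_sum, ← Finset.sum_add_distrib]
  refine Finset.sum_le_sum fun κ _ => ?_
  have eT : ((A ×ˢ (A ×ˢ A)).filter fun τ => key τ = κ).card = (Tri A κ).card := by
    unfold Tri; congr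
  rw [eT, nsmul_eq_mul]
  set T : ℝ := ((Tri A κ).card : ℝ)
  have hT : 0 ≤ T := Nat.cast_nonneg _
  simp only [hW]
  split_ifs with h1
  · rw [mul_zero]; positivity
  have hu : F (κ.1 + κ.2) ≤ Λ * rd A κ.2 := by
    simp only [hF]
    split_ifs with h2
    · exact h2.trans (hl.trans (mul_le_mul_of_nonneg_left (not_le.1 h1).le hΛ.le))
    · positivity
  have hu0 := hF0 (κ.1 + κ.2)
  have hu1 := hF1 (κ.1 + κ.2)
  set u := F (κ.1 + κ.2)
  set v : ℝ := (rd A κ.2 : ℝ)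
  have hv : 0 ≤ v := Nat.cast_nonneg _
  have key2 : T * u ≤ η / 2 * (rd A (κ.1 + κ.2) * v) + Λ / (2 * η) * (T * T) := by
    have a : u * u ≤ Λ * (rd A (κ.1 + κ.2) * v) := by
      calc u * u ≤ rd A (κ.1 + κ.2) * (Λ * v) := mul_le_mul hu1 hu hu0 (Nat.cast_nonneg _)
        _ = _ := by ring
    have b : T * u = (2 * η * Λ * (T * u)) / (2 * η * Λ) := by field_simp
    have c : η / 2 * (rd A (κ.1 + κ.2) * v) + Λ / (2 * η) * (T * T) =
        (η ^ 2 * (Λ * (rd A (κ.1 + κ.2) * v)) + Λ ^ 2 * (T * T)) / (2 * η * Λ) := by field_simp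
    rw [b, c]
    refine div_le_div_of_nonneg_right ?_ (by positivity)
    nlinarith [sq_nonneg (η * u - Λ * T), mul_le_mul_of_nonneg_left a (sq_nonneg η)]
  calc T * (F κ.1 * u) = F κ.1 * (T * u) := by ring
    _ ≤ rd A κ.1 * (η / 2 * (rd A (κ.1 + κ.2) * v) + Λ / (2 * η) * (T * T)) :=
        mul_le_mul (hF1 _) key2 (by positivity) (Nat.cast_nonneg _)
    _ = _ := by ring

/-- Rare differences carry few solutions of the sixfold equation, with polynomial bounds. -/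
structure Sig (c M : ℝ) (A : Finset G) : Prop where
  one : 1 ≤ M
  six : (energy 3 A : ℝ) ≤ M * ((energy 2 A : ℝ) ^ 2 / A.card)
  top : energy 2 A ≤ ml A A.card
  sig : ∀ l s : ℝ, 0 < s → s ≤ 1 → (ml A l : ℝ) ≤ (s / (2 * M)) ^ c * energy 2 A →
    (Zl A l : ℝ) ≤ s * ((energy 2 A : ℝ) ^ 2 / A.card)

lemma level_iter {c : ℝ} (hc : 1 ≤ c) (j : ℕ) : ∃ e : ℝ, 0 ≤ e ∧ ∀ (G : Type u) [AddCommGroup G]
    (A : Finset G), A.Nonempty → ∀ M Λ : ℝ, Sig c M A → 0 < Λ →
    (4 * M) ^ (-e) * energy 2 A ≤ ml A (A.card / Λ ^ j) ∨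
      (4 * M) ^ (-(4 * e + 1)) * ((energy 2 A : ℝ) ^ 2 / A.card) / Λ ≤ mids A 2 := by
  induction j with
  | zero =>
    refine ⟨0, le_rfl, fun G _ A _ M Λ h _ => Or.inl ?_⟩
    simp only [neg_zero, Real.rpow_zero, one_mul, pow_zero, div_one]
    exact_mod_cast h.top
  | succ j ih =>
    obtain ⟨e, he, ih⟩ := ih
    refine ⟨c * (2 * e + 1), by positivity, fun G _ A hA M Λ h hΛ => ?_⟩
    have hM := h.one
    have hN : (0 : ℝ) < A.card := by exact_mod_cast hA.card_pos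
    set B : ℝ := (energy 2 A : ℝ) ^ 2 / A.card with hB
    have hB0 : 0 ≤ B := by positivity
    have mono : (4 * M) ^ (-(4 * e + 1)) * B / Λ ≤ mids A 2 →
        (4 * M) ^ (-(4 * (c * (2 * e + 1)) + 1)) * B / Λ ≤ mids A 2 := fun h' => by
      refine le_trans ?_ h'
      have : (4 * M) ^ (-(4 * (c * (2 * e + 1)) + 1)) ≤ (4 * M) ^ (-(4 * e + 1)) :=
        Real.rpow_le_rpow_of_exponent_le (by linarith) (by nlinarith)
      gcongr
    rcases ih G A hA M Λ h hΛ with h1 | h1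
    swap
    · exact Or.inr (mono h1)
    by_cases h2 : (4 * M) ^ (-(c * (2 * e + 1))) * energy 2 A ≤ ml A (A.card / Λ ^ (j + 1))
    · exact Or.inl h2
    refine Or.inr (mono ?_)
    set δ : ℝ := (4 * M) ^ (-e) with hδ
    have hδ0 : 0 < δ := by positivity
    have hδ1 : δ ≤ 1 := Real.rpow_le_one_of_one_le_of_nonpos (by linarith) (by linarith)
    have p1 : (4 * M) ^ (-(c * (2 * e + 1))) = (δ ^ 2 / 2 / (2 * M)) ^ c := by
      have : δ ^ 2 / 2 / (2 * M) = (4 * M) ^ (-(2 * e + 1)) := by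
        rw [show -(2 * e + 1) = -e + -e + -1 by ring, Real.rpow_add (by positivity),
          Real.rpow_add (by positivity), Real.rpow_neg_one, ← hδ]
        field_simp; norm_num
      rw [this, ← Real.rpow_mul (by positivity)]
      congr 1; ring
    have p2 : (4 * M) ^ (-(4 * e + 1)) = δ ^ 4 / (4 * M) := by
      rw [show -(4 * e + 1) = -e + -e + -e + -e + -1 by ring, Real.rpow_add (by positivity),
        Real.rpow_add (by positivity), Real.rpow_add (by positivity),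
        Real.rpow_add (by positivity), Real.rpow_neg_one, ← hδ]
      field_simp
    have hZ := h.sig _ (δ ^ 2 / 2) (by positivity) (by nlinarith) (p1 ▸ (not_le.1 h2).le)
    have hs := level_step A (l := A.card / Λ ^ j) (l' := A.card / Λ ^ (j + 1)) hΛ
      (show 0 < δ ^ 2 / (2 * M) by positivity) (le_of_eq (by rw [pow_succ]; field_simp))
    have h3 : δ ^ 2 * B * A.card ≤ (ml A (A.card / Λ ^ j) : ℝ) ^ 2 := by
      have : (δ * energy 2 A) ^ 2 ≤ (ml A (A.card / Λ ^ j) : ℝ) ^ 2 :=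
        pow_le_pow_left₀ (by positivity) h1 2
      refine le_trans (le_of_eq ?_) this
      rw [hB]; field_simp
    have h4 := le_of_mul_le_mul_left ((mul_comm _ _).trans_le (h3.trans hs)) hN
    have h5 : δ ^ 2 / (2 * M) / 2 * energy 3 A ≤ δ ^ 2 * B / 4 := by
      refine (mul_le_mul_of_nonneg_left h.six (by positivity)).trans (le_of_eq ?_)
      rw [← hB]; field_simp; ring
    rw [← hB] at hZ
    have h6 : δ ^ 2 * B / 4 ≤ Λ / (2 * (δ ^ 2 / (2 * M))) * mids A 2 := by linarith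
    rw [p2, div_le_iff₀ hΛ]
    have h7 := mul_le_mul_of_nonneg_left h6 (show 0 ≤ δ ^ 2 / M by positivity)
    calc δ ^ 4 / (4 * M) * B = δ ^ 2 / M * (δ ^ 2 * B / 4) := by field_simp
      _ ≤ _ := h7
      _ = _ := by field_simp

theorem sig_structure {c : ℝ} (hc : 1 ≤ c) {ε : ℝ} (hε : 0 < ε) : ∃ C : ℝ, 0 < C ∧
    ∀ (G : Type u) [AddCommGroup G] (A : Finset G), A.Nonempty → ∀ M : ℝ, Sig c M A →
    ∃ H ⊆ A, rho 2 A ≤ H.card ∧
      (H.card : ℝ) ^ 3 ≤ (A.card : ℝ) ^ ε * (4 * M) ^ C * energy 2 H := by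
  obtain ⟨c1, hc1, h2⟩ := two_middles.{u} (ε / 2) (by positivity)
  set J := ⌈2 * c1 / ε⌉₊ with hJ
  have hJ1 : 2 * c1 / ε ≤ J := Nat.le_ceil _
  have hJ0 : (0 : ℝ) < J := lt_of_lt_of_le (by positivity) hJ1
  obtain ⟨e, he, hit⟩ := level_iter.{u} hc J
  refine ⟨(4 * e + 2) * c1, by positivity, fun G _ A hA M h => ?_⟩
  have hM := h.one
  have hN : (1 : ℝ) ≤ A.card := by exact_mod_cast hA.card_pos
  have hE : (0 : ℝ) < energy 2 A := by
    have : (A.card : ℝ) ^ 2 ≤ energy 2 A := by exact_mod_cast le_energy_two A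
    nlinarith
  set Λ : ℝ := 2 * (A.card : ℝ) ^ ((J : ℝ)⁻¹) with hΛ
  have hΛ0 : 0 < Λ := by positivity
  rcases hit G A hA M Λ h hΛ0 with h1 | h1
  · rw [ml_eq_zero] at h1
    · have : 0 < (4 * M) ^ (-e) * energy 2 A := by positivity
      simp only [Nat.cast_zero] at h1
      linarith
    · have hJn : J ≠ 0 := by exact_mod_cast hJ0.ne'
      rw [div_lt_one (by positivity), hΛ, mul_pow, Real.rpow_inv_natCast_pow (by positivity) hJn]
      have : (1 : ℝ) < 2 ^ J := one_lt_pow₀ (by norm_num) hJn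
      nlinarith
  set θ : ℝ := (4 * M) ^ (-(4 * e + 1)) / (M * Λ) with hθ
  have hθ0 : 0 < θ := by positivity
  have hm : (mids A 1 : ℝ) ≤ energy 3 A := by exact_mod_cast mids_le A 1
  obtain ⟨H, r1, r2, r3⟩ := h2 G A hA θ hθ0 (by
    refine (mul_le_mul_of_nonneg_left (hm.trans h.six) hθ0.le).trans (le_trans (le_of_eq ?_) h1)
    rw [hθ]; field_simp)
  refine ⟨H, r1, r2, r3.trans (mul_le_mul_of_nonneg_right ?_ (Nat.cast_nonneg _))⟩
  have e1 : 2 / θ = (A.card : ℝ) ^ ((J : ℝ)⁻¹) * (4 * M) ^ (4 * e + 2) := by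
    rw [hθ, hΛ, Real.rpow_neg (by positivity), show 4 * e + 2 = (4 * e + 1) + 1 by ring,
      Real.rpow_add_one (by positivity) (4 * e + 1)]
    field_simp; norm_num
  rw [e1, Real.mul_rpow (by positivity) (by positivity), ← Real.rpow_mul (by positivity),
    ← Real.rpow_mul (by positivity), ← mul_assoc, ← Real.rpow_add (by positivity)]
  refine mul_le_mul_of_nonneg_right (Real.rpow_le_rpow_of_exponent_le hN ?_) (by positivity)
  rw [div_le_iff₀ hε] at hJ1
  have : (J : ℝ)⁻¹ * c1 ≤ ε / 2 := by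
    rw [inv_mul_le_iff₀ hJ0]; linarith
  linarith

end Pool.Agent.Lib.MP_328240_co
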