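import Mathlib

/-!
Normalised moments of the Fourier transform of a finite set.
-/

set_option autoImplicit false

namespace Pool.Agent.Lib.MP_328240_co

open MeasureTheory

/-- The normalised moment `|A|^(-t) ∫ |∑_{a ∈ A} χ(a)|^(2t) dμ(χ)` over the dual group. -/
noncomputable def rhoR {G : Type*} [AddCommGroup G] [TopologicalSpace G]
    [MeasurableSpace (PontryaginDual (Multiplicative G))]
    (μ : Measure (PontryaginDual (Multiplicative G))) (t : ℝ) (A : Finset G) : ℝ :=
  (∫ χ, ‖∑ a ∈ A, (χ (Multiplicative.ofAdd a) : ℂ)‖ ^ (2 * t) ∂μ) / (A.card : ℝ) ^ t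

end Pool.Agent.Lib.MP_328240_co
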