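import Pool.Agent.Lib.MP_328240_co.H27Comb

/-!
Counting with characters: moments of the exponential sum.
-/

set_option autoImplicit false

namespace Pool.Agent.Lib.MP_328240_co

open Finset MeasureTheory
open scoped ComplexConjugate

universe u

variable {G : Type u} [AddCommGroup G] {Ω : Type*} [TopologicalSpace Ω] [MeasurableSpace Ω]

/-- A continuous family of unitary characters with the orthogonality relations. -/
structure Pl (μ : Measure Ω) (χ : Ω → G → ℂ) : Prop where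
  cont : ∀ g, Continuous fun ω => χ ω g
  zero : ∀ ω, χ ω 0 = 1
  add : ∀ ω g h, χ ω (g + h) = χ ω g * χ ω h
  neg : ∀ ω g, χ ω (-g) = conj (χ ω g)
  orth : ∀ g, g ≠ 0 → ∫ ω, χ ω g ∂μ = 0

/-- An exponential sum. -/
noncomputable def Es (χ : Ω → G → ℂ) {ι : Type*} (s : Finset ι) (f : ι → G) (ω : Ω) : ℂ :=
  ∑ i ∈ s, χ ω (f i)

/-- The squared modulus of the Fourier transform of `A`. -/
noncomputable def ph (χ : Ω → G → ℂ) (A : Finset G) (ω : Ω) : ℝ := ‖Es χ A id ω‖ ^ 2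

variable {μ : Measure Ω} {χ : Ω → G → ℂ} {ι κ : Type*}

lemma Pl.es_cont (h : Pl μ χ) (s : Finset ι) (f : ι → G) : Continuous (Es χ s f) :=
  continuous_finsetSum _ fun i _ => h.cont (f i)

lemma Pl.es_mul (h : Pl μ χ) (s : Finset ι) (f : ι → G) (t : Finset κ) (g : κ → G) (ω : Ω) :
    Es χ s f ω * Es χ t g ω = Es χ (s ×ˢ t) (fun z => f z.1 + g z.2) ω := by
  unfold Es
  rw [Finset.sum_mul_sum, Finset.sum_product]
  simp only [h.add]

lemma Pl.es_conj (h : Pl μ χ) (s : Finset ι) (f : ι → G) (ω : Ω) :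
    conj (Es χ s f ω) = Es χ s (fun i => -f i) ω := by
  unfold Es
  simp only [map_sum, h.neg]

lemma Pl.es_sq (h : Pl μ χ) (s : Finset ι) (f : ι → G) (ω : Ω) :
    ((‖Es χ s f ω‖ ^ 2 : ℝ) : ℂ) = Es χ (s ×ˢ s) (fun z => f z.1 - f z.2) ω := by
  rw [Complex.ofReal_pow, ← Complex.mul_conj', h.es_conj, h.es_mul]
  simp only [sub_eq_add_neg]

lemma Pl.ph_eq (h : Pl μ χ) (A : Finset G) (ω : Ω) :
    (ph χ A ω : ℂ) = Es χ (A ×ˢ A) (fun z => z.1 - z.2) ω := h.es_sq A id ω

lemma Pl.ph_cont (h : Pl μ χ) (A : Finset G) : Continuous (ph χ A) :=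
  (h.es_cont A id).norm.pow 2

omit [AddCommGroup G] [TopologicalSpace Ω] [MeasurableSpace Ω] in
lemma ph_nonneg (A : Finset G) (ω : Ω) : 0 ≤ ph χ A ω := sq_nonneg _

lemma Pl.es_pow (h : Pl μ χ) (A : Finset G) (n : ℕ) (ω : Ω) :
    Es χ A id ω ^ n = Es χ (Fintype.piFinset fun _ : Fin n => A) (fun a => ∑ i, a i) ω := by
  classical
  have hs : ∀ (s : Finset (Fin n)) (a : Fin n → G), χ ω (∑ i ∈ s, a i) = ∏ i ∈ s, χ ω (a i) :=
    fun s a => by
      induction s using Finset.induction_on with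
      | empty => simp [h.zero]
      | insert i s hi ih => rw [Finset.sum_insert hi, Finset.prod_insert hi, h.add, ih]
  unfold Es
  simp only [hs, id]
  rw [← Finset.prod_univ_sum]
  simp

variable [CompactSpace Ω] [BorelSpace Ω] [IsProbabilityMeasure μ]

lemma intg {E : Type*} [NormedAddCommGroup E] [SecondCountableTopology E] {f : Ω → E}
    (hf : Continuous f) : Integrable f μ :=
  hf.integrable_of_hasCompactSupport (HasCompactSupport.of_compactSpace f)

open Classical in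
lemma Pl.int_es (h : Pl μ χ) (s : Finset ι) (f : ι → G) :
    ∫ ω, Es χ s f ω ∂μ = ((s.filter fun i => f i = 0).card : ℂ) := by
  unfold Es
  rw [integral_finsetSum _ fun i _ => intg (h.cont (f i)), Finset.card_filter]
  push_cast
  refine Finset.sum_congr rfl fun i _ => ?_
  split_ifs with h0
  · simp [h0, h.zero]
  · exact h.orth _ h0

open Classical in
lemma Pl.int_real (h : Pl μ χ) {s : Finset ι} {f : ι → G} {v : Ω → ℝ}
    (hv : ∀ ω, (v ω : ℂ) = Es χ s f ω) : ∫ ω, v ω ∂μ = ((s.filter fun i => f i = 0).card : ℝ) := by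
  have := h.int_es s f
  simp only [← hv] at this
  rw [integral_complex_ofReal] at this
  exact_mod_cast this

lemma Pl.int_pow (h : Pl μ χ) (A : Finset G) (n : ℕ) : ∫ ω, ph χ A ω ^ n ∂μ = energy n A := by
  classical
  rw [h.int_real (s := (Fintype.piFinset fun _ : Fin n => A) ×ˢ (Fintype.piFinset fun _ => A))
    (f := fun z => ∑ i, z.1 i - ∑ i, z.2 i) fun ω => by
      rw [← h.es_sq, ← h.es_pow, norm_pow, ph, ← pow_mul, ← pow_mul, mul_comm]]
  unfold energy sols
  simp only [sub_eq_zero]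

lemma Pl.int_one (h : Pl μ χ) (A : Finset G) : ∫ ω, ph χ A ω ∂μ = A.card := by
  classical
  rw [h.int_real (h.ph_eq A)]
  simp only [sub_eq_zero]
  rw [← Finset.diag_card A]
  congr
  ext z
  simp only [Finset.mem_filter, Finset.mem_product, Finset.mem_diag]
  exact ⟨fun h => ⟨h.1.1, h.2⟩, fun h => ⟨⟨h.1, h.2 ▸ h.1⟩, h.2⟩⟩

lemma Pl.low_sq (h : Pl μ χ) (A : Finset G) (l : ℝ) :
    ∫ ω, ‖Es χ (low A l) (fun p => p.1 - p.2) ω‖ ^ 2 ∂μ ≤ ml A l := by
  classical
  rw [h.int_real (h.es_sq _ _), Nat.cast_le, Finset.card_filter, Finset.sum_product]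
  refine Finset.sum_le_sum fun p _ => ?_
  rw [← Finset.card_filter]
  refine Finset.card_le_card fun q hq => ?_
  obtain ⟨h1, h2⟩ := Finset.mem_filter.1 hq
  exact mem_Rp.2 ⟨(mem_low.1 h1).1, (mem_low.1 h1).2.1, (sub_eq_zero.1 h2).symm⟩

lemma Pl.top (h : Pl μ χ) (A : Finset G) : energy 2 A ≤ ml A A.card := by
  have e : low A A.card = A ×ˢ A := Finset.ext fun p => by
    rw [mem_low, Finset.mem_product]
    exact ⟨fun h => ⟨h.1, h.2.1⟩, fun h => ⟨h.1, h.2, by exact_mod_cast rd_le A _⟩⟩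
  have := h.low_sq A A.card
  rw [e] at this
  simp only [← h.ph_eq, Complex.norm_real, Real.norm_eq_abs, sq_abs] at this
  rw [h.int_pow] at this
  exact_mod_cast this

lemma Pl.low_ph (h : Pl μ χ) (A : Finset G) (l : ℝ) :
    ∫ ω, ‖Es χ (low A l) (fun p => p.1 - p.2) ω‖ ^ 2 * ph χ A ω ∂μ ≤ energy 3 A := by
  classical
  have e : ∀ S : Finset (G × G), ∫ ω, ‖Es χ S (fun p => p.1 - p.2) ω‖ ^ 2 * ph χ A ω ∂μ = _ :=
    fun S => h.int_real fun ω => by rw [Complex.ofReal_mul, h.es_sq, h.ph_eq, h.es_mul]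
  have e2 := e (A ×ˢ A)
  simp only [← h.ph_eq, Complex.norm_real, Real.norm_eq_abs, sq_abs, ← pow_succ] at e2
  rw [h.int_pow] at e2
  rw [e, e2, Nat.cast_le]
  refine Finset.card_le_card (Finset.filter_subset_filter _ ?_)
  have : low A l ⊆ A ×ˢ A := Finset.filter_subset _ _
  gcongr

lemma Pl.Zl_le (h : Pl μ χ) (A : Finset G) (l : ℝ) :
    (Zl A l : ℝ) ≤ ∫ ω, ‖Es χ (low A l) (fun p => p.1 - p.2) ω‖ * ph χ A ω ^ 2 ∂μ := by
  classical
  have e : ∫ ω, Es χ (low A l) (fun p => p.1 - p.2) ω * (ph χ A ω * ph χ A ω) ∂μ = Zl A l := by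
    simp only [h.ph_eq, h.es_mul]
    rw [h.int_es]
    unfold Zl
    congr
  have := norm_integral_le_integral_norm (μ := μ)
    fun ω => Es χ (low A l) (fun p => p.1 - p.2) ω * (ph χ A ω * ph χ A ω)
  rw [e, Complex.norm_natCast] at this
  refine this.trans (le_of_eq (integral_congr_ae (Filter.Eventually.of_forall fun ω => ?_)))
  simp only [norm_mul, Complex.norm_real, Real.norm_eq_abs, abs_of_nonneg (ph_nonneg A ω), sq]

lemma split_le {g f τ α β γ : ℝ} (hg : 0 ≤ g) (hf : 0 ≤ f) (hτ : 0 < τ) (hα : 0 < α) (hβ : 0 < β)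
    (hγ : 0 < γ) : g * f ^ 2 ≤ τ * α / 2 * g ^ 2 + τ / (2 * α) * f ^ 2 + β / 2 * (g ^ 2 * f) +
      1 / (2 * β * τ ^ γ) * f ^ (3 + γ) := by
  have am : ∀ a : ℝ, 0 < a → g * f ≤ a / 2 * g ^ 2 + 1 / (2 * a) * f ^ 2 := fun a ha => by
    have : a / 2 * g ^ 2 + 1 / (2 * a) * f ^ 2 - g * f = (a * g - f) ^ 2 / (2 * a) := by
      field_simp; ring
    have : 0 ≤ (a * g - f) ^ 2 / (2 * a) := by positivity
    linarith
  rcases le_total f τ with h | h
  · have a1 : g * f ^ 2 ≤ τ * (g * f) := by nlinarith [mul_nonneg hg hf]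
    have a2 := mul_le_mul_of_nonneg_left (am α hα) hτ.le
    have a3 : 0 ≤ β / 2 * (g ^ 2 * f) + 1 / (2 * β * τ ^ γ) * f ^ (3 + γ) := by positivity
    have a4 : τ * (α / 2 * g ^ 2 + 1 / (2 * α) * f ^ 2) =
      τ * α / 2 * g ^ 2 + τ / (2 * α) * f ^ 2 := by ring
    linarith
  · have a2 := mul_le_mul_of_nonneg_left (am β hβ) hf
    have a3 : 0 ≤ τ * α / 2 * g ^ 2 + τ / (2 * α) * f ^ 2 := by positivity
    have a4 : 1 / (2 * β) * f ^ 3 ≤ 1 / (2 * β * τ ^ γ) * f ^ (3 + γ) := by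
      rw [Real.rpow_add (hτ.trans_le h), show (3 : ℝ) = (3 : ℕ) by norm_num, Real.rpow_natCast]
      have : τ ^ γ ≤ f ^ γ := Real.rpow_le_rpow hτ.le h hγ.le
      calc 1 / (2 * β) * f ^ 3 = 1 / (2 * β * τ ^ γ) * (f ^ 3 * τ ^ γ) := by field_simp
        _ ≤ _ := by gcongr
    nlinarith

omit [CompactSpace Ω] [BorelSpace Ω] [IsProbabilityMeasure μ] in
lemma Pl.rpow_cont (h : Pl μ χ) (A : Finset G) {s : ℝ} (hs : 0 ≤ s) :
    Continuous fun ω => ph χ A ω ^ s := (h.ph_cont A).rpow_const fun _ => Or.inr hs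

theorem Pl.sig (h : Pl μ χ) {A : Finset G} (hA : A.Nonempty) {γ M : ℝ} (hγ : 0 < γ) (hM : 1 ≤ M)
    (h6 : (energy 3 A : ℝ) ≤ M * ((energy 2 A : ℝ) ^ 2 / A.card))
    (hp : ∫ ω, ph χ A ω ^ (3 + γ) ∂μ ≤
      M * ((energy 2 A : ℝ) ^ 2 / A.card) * ((energy 2 A : ℝ) / A.card) ^ γ) :
    Sig (2 + 4 / γ) M A := by
  refine ⟨hM, h6, h.top A, fun l s hs hs1 hml => ?_⟩
  have hN : (1 : ℝ) ≤ A.card := by exact_mod_cast hA.card_pos
  have hE : (0 : ℝ) < energy 2 A := by
    have : (A.card : ℝ) ^ 2 ≤ energy 2 A := by exact_mod_cast le_energy_two A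
    nlinarith
  set E : ℝ := (energy 2 A : ℝ) with hEd
  set N : ℝ := (A.card : ℝ) with hNd
  set T : ℝ := (2 * M / s) ^ (2 / γ) with hT
  have hT0 : 0 < T := by positivity
  have hTγ : T ^ γ = (2 * M / s) ^ 2 := by
    rw [hT, ← Real.rpow_mul (by positivity), div_mul_cancel₀ _ hγ.ne', Real.rpow_two]
  have hδ : (s / (2 * M)) ^ (2 + 4 / γ) = (s / (2 * M)) ^ 2 / T ^ 2 := by
    rw [Real.rpow_add (by positivity), Real.rpow_two, hT, ← Real.rpow_mul_natCast (by positivity),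
      ← inv_div (2 * M) s, Real.inv_rpow (by positivity), div_eq_mul_inv]
    congr 3
    push_cast; ring
  set g := fun ω => ‖Es χ (low A l) (fun p => p.1 - p.2) ω‖ with hg
  have cg : Continuous g := (h.es_cont _ _).norm
  have cf := h.ph_cont A
  have cp := h.rpow_cont A (show 0 ≤ 3 + γ by positivity)
  set τ := T * (E / N) with hτ
  have hτ0 : 0 < τ := by positivity
  have i1 : Integrable (fun ω => τ * (2 * T / s) / 2 * g ω ^ 2) μ := intg (by fun_prop)
  have i2 : Integrable (fun ω => τ / (2 * (2 * T / s)) * ph χ A ω ^ 2) μ := intg (by fun_prop)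
  have i3 : Integrable (fun ω => s / (2 * M) / 2 * (g ω ^ 2 * ph χ A ω)) μ := intg (by fun_prop)
  have i4 : Integrable (fun ω => 1 / (2 * (s / (2 * M)) * τ ^ γ) * ph χ A ω ^ (3 + γ)) μ :=
    intg (by fun_prop)
  have key := integral_mono (μ := μ) (f := fun ω => g ω * ph χ A ω ^ 2) (intg (by fun_prop))
    (((i1.add i2).add i3).add i4) fun ω => split_le (norm_nonneg _) (ph_nonneg A ω) hτ0
      (show 0 < 2 * T / s by positivity) (show 0 < s / (2 * M) by positivity) hγ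
  simp only [Pi.add_apply] at key
  rw [integral_add (intg (by fun_prop)) i4, integral_add (intg (by fun_prop)) i3,
    integral_add i1 i2,
    integral_const_mul, integral_const_mul, integral_const_mul, integral_const_mul,
    h.int_pow] at key
  have b1 : τ * (2 * T / s) / 2 * ∫ ω, g ω ^ 2 ∂μ ≤ s * (E ^ 2 / N) / 4 := by
    refine (mul_le_mul_of_nonneg_left ((h.low_sq A l).trans hml) (by positivity)).trans ?_
    rw [hδ, hτ]
    calc _ = s * (E ^ 2 / N) / 4 / M ^ 2 := by field_simp; norm_num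
      _ ≤ _ := div_le_self (by positivity) (one_le_pow₀ hM)
  have b2 : τ / (2 * (2 * T / s)) * E = s * (E ^ 2 / N) / 4 := by rw [hτ]; field_simp; norm_num
  have b3 : s / (2 * M) / 2 * ∫ ω, g ω ^ 2 * ph χ A ω ∂μ ≤ s * (E ^ 2 / N) / 4 := by
    refine (mul_le_mul_of_nonneg_left ((h.low_ph A l).trans h6) (by positivity)).trans
      (le_of_eq ?_)
    field_simp; norm_num
  have b4 : 1 / (2 * (s / (2 * M)) * τ ^ γ) * ∫ ω, ph χ A ω ^ (3 + γ) ∂μ ≤
      s * (E ^ 2 / N) / 4 := by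
    refine (mul_le_mul_of_nonneg_left hp (by positivity)).trans (le_of_eq ?_)
    rw [hτ, Real.mul_rpow hT0.le (by positivity), hTγ]
    have : 0 < (E / N) ^ γ := by positivity
    field_simp; norm_num
  have := h.Zl_le A l
  linarith

lemma Pl.one_le_int (h : Pl μ χ) {A : Finset G} (hA : A.Nonempty) {s : ℝ} (hs : 1 ≤ s) :
    1 ≤ ∫ ω, ph χ A ω ^ s ∂μ := by
  have hN : (1 : ℝ) ≤ A.card := by exact_mod_cast hA.card_pos
  have cf := h.ph_cont A
  have key := integral_mono (μ := μ) (f := fun ω => (1 - s) + s * ph χ A ω) (intg (by fun_prop))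
    (intg (h.rpow_cont A (show 0 ≤ s by linarith))) fun ω => by
      have := one_add_mul_self_le_rpow_one_add (s := ph χ A ω - 1)
        (by linarith [ph_nonneg (χ := χ) A ω]) hs
      rw [add_sub_cancel] at this
      simp only
      linarith
  rw [integral_add (integrable_const _) (intg (by fun_prop)), integral_const_mul, h.int_one,
    integral_const] at key
  simp only [probReal_univ, smul_eq_mul, one_mul] at key
  nlinarith

lemma Pl.holder (h : Pl μ χ) {A : Finset G} (hA : A.Nonempty) {a b w : ℝ} (ha : 1 ≤ a)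
    (hb : 1 ≤ b) (h0 : 0 ≤ w) (h1 : w ≤ 1) :
    Real.log (∫ ω, ph χ A ω ^ (w * a + (1 - w) * b) ∂μ) ≤
      w * Real.log (∫ ω, ph χ A ω ^ a ∂μ) + (1 - w) * Real.log (∫ ω, ph χ A ω ^ b ∂μ) := by
  have hm : 1 ≤ w * a + (1 - w) * b := by nlinarith
  have pa := h.one_le_int hA ha
  have pb := h.one_le_int hA hb
  have pm := h.one_le_int hA hm
  have ca := h.rpow_cont A (show 0 ≤ a by linarith)
  have cb := h.rpow_cont A (show 0 ≤ b by linarith)
  have cm := h.rpow_cont A (show 0 ≤ w * a + (1 - w) * b by linarith)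
  set I := ∫ ω, ph χ A ω ^ a ∂μ with hI
  set J := ∫ ω, ph χ A ω ^ b ∂μ with hJ
  have hI0 : 0 < I := by linarith
  have hJ0 : 0 < J := by linarith
  have key := integral_mono (μ := μ)
    (f := fun ω => (I ^ w * J ^ (1 - w))⁻¹ * ph χ A ω ^ (w * a + (1 - w) * b))
    (g := fun ω => w / I * ph χ A ω ^ a + (1 - w) / J * ph χ A ω ^ b)
    (intg (by fun_prop)) (intg (by fun_prop)) fun ω => by
      have f0 := ph_nonneg (χ := χ) A ω
      have := Real.geom_mean_le_arith_mean2_weighted h0 (sub_nonneg.2 h1)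
        (show 0 ≤ ph χ A ω ^ a / I by positivity) (show 0 ≤ ph χ A ω ^ b / J by positivity)
        (add_sub_cancel _ _)
      rw [Real.div_rpow (by positivity) hI0.le, Real.div_rpow (by positivity) hJ0.le,
        ← Real.rpow_mul f0, ← Real.rpow_mul f0] at this
      simp only
      rw [Real.rpow_add' f0 (by linarith), mul_comm w a, mul_comm (1 - w) b]
      exact le_trans (le_of_eq (by ring)) (this.trans (le_of_eq (by ring)))
  rw [integral_add (intg (by fun_prop)) (intg (by fun_prop)), integral_const_mul,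
    integral_const_mul, integral_const_mul, ← hI, ← hJ, div_mul_cancel₀ _ hI0.ne',
    div_mul_cancel₀ _ hJ0.ne', add_sub_cancel, inv_mul_le_iff₀ (by positivity), mul_one] at key
  have := Real.log_le_log (by linarith) key
  rwa [Real.log_mul (by positivity) (by positivity), Real.log_rpow hI0, Real.log_rpow hJ0] at this

end Pool.Agent.Lib.MP_328240_co
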