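import Pool.Agent.Lib.MP_328240_co.H27Four
import Pool.Agent.Lib.MP_328240_co.H27Defs

/-!
The structure theorem for every real exponent above the endpoint.
-/

set_option autoImplicit false

namespace Pool.Agent.Lib.MP_328240_co

open Finset MeasureTheory
open scoped ComplexConjugate

universe u v

lemma convex_aux {s t a b c d k : ℝ} (hs : 1 < s) (hst : s < t) (ht : 3 < t) (hk : 0 ≤ k)
    (h : (s - 1) * c < (k + b) * (t - 1)) (G0 : (t - 1) * b ≤ (s - 1) * c)
    (G1 : 2 ≤ s → (t - 2) * b ≤ (t - s) * a + (s - 2) * c) (G1' : s ≤ 2 → b ≤ (s - 1) * a)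
    (G2 : (t - 2) * d ≤ (t - 3) * a + c) {D : ℝ} (hD : D = (t - 2) / (t - s) + 1 / (s - 1)) :
    c < (t - 1) * (a + D * k) ∧ b ≤ (s - 1) * (a + D * k) ∧ d < 2 * (a + D * k) := by
  have h1 : 0 < t - 1 := by linarith
  have h2 : 0 < t - 2 := by linarith
  have h3 : 0 < t - s := by linarith
  have h4 : 0 < s - 1 := by linarith
  have d1 : t - 2 ≤ (t - s) * D := by
    have : 0 ≤ (t - s) * (1 / (s - 1)) := by positivity
    rw [hD, mul_add, mul_div_cancel₀ _ h3.ne']; linarith
  have d2 : 1 ≤ (s - 1) * D := by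
    have : 0 ≤ (s - 1) * ((t - 2) / (t - s)) := by positivity
    rw [hD, mul_add, mul_one_div_cancel h4.ne']; linarith
  have hD0 : 0 ≤ D * k := by rw [hD]; positivity
  have Gc : c < (t - 1) * (a + D * k) := by
    rcases le_total 2 s with h5 | h5
    · have x1 := mul_lt_mul_of_pos_left h h2
      have x2 := mul_le_mul_of_nonneg_left (G1 h5) h1.le
      have x3 := mul_le_mul_of_nonneg_left d1 (mul_nonneg h1.le hk)
      exact lt_of_mul_lt_mul_left (by linarith) h3.le
    · have x2 := mul_le_mul_of_nonneg_left (G1' h5) h1.le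
      have x3 := mul_le_mul_of_nonneg_left d2 (mul_nonneg h1.le hk)
      exact lt_of_mul_lt_mul_left (by linarith) h4.le
  refine ⟨Gc, le_of_mul_le_mul_left (G0.trans ?_) h1,
    lt_of_mul_lt_mul_left (G2.trans_lt ?_) h2.le⟩
  · have x1 := mul_le_mul_of_nonneg_left Gc.le h4.le
    linarith
  · have := mul_nonneg (show 0 ≤ t - 3 by linarith) hD0
    linarith

lemma Pl.holder' {G : Type u} [AddCommGroup G] {Ω : Type v} [TopologicalSpace Ω]
    [MeasurableSpace Ω] [CompactSpace Ω] [BorelSpace Ω] {μ : Measure Ω} [IsProbabilityMeasure μ]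
    {χ : Ω → G → ℂ} (h : Pl μ χ) {A : Finset G} (hA : A.Nonempty) {x y z : ℝ} (hx : 1 ≤ x)
    (hxy : x ≤ y) (hyz : y ≤ z) (hxz : x < z) (n : ℝ) :
    (z - x) * (Real.log (∫ ω, ph χ A ω ^ y ∂μ) - y * n) ≤
      (z - y) * (Real.log (∫ ω, ph χ A ω ^ x ∂μ) - x * n) +
        (y - x) * (Real.log (∫ ω, ph χ A ω ^ z ∂μ) - z * n) := by
  have h0 : 0 < z - x := by linarith
  have H := h.holder hA (a := x) (b := z) (w := (z - y) / (z - x)) hx (by linarith)
    (div_nonneg (by linarith) h0.le) (by rw [div_le_one h0]; linarith)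
  rw [show (z - y) / (z - x) * x + (1 - (z - y) / (z - x)) * z = y by field_simp; ring] at H
  have := mul_le_mul_of_nonneg_left H h0.le
  rw [show ∀ p q : ℝ, (z - x) * ((z - y) / (z - x) * p + (1 - (z - y) / (z - x)) * q) =
    (z - y) * p + (y - x) * q from fun p q => by field_simp; ring] at this
  linarith

theorem real_structure {s t : ℝ} (hs : 1 < s) (hst : s < t) (ht : 3 < t) {ε : ℝ} (hε : 0 < ε) :
    ∃ c c' : ℝ, 0 < c ∧ 0 < c' ∧ ∀ (G : Type u) [AddCommGroup G] (Ω : Type v) [TopologicalSpace Ω]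
      [MeasurableSpace Ω] [CompactSpace Ω] [BorelSpace Ω] (μ : Measure Ω) [IsProbabilityMeasure μ]
      (χ : Ω → G → ℂ), Pl μ χ → ∀ A : Finset G, A.Nonempty → ∀ K : ℝ, 1 ≤ K →
      ((∫ ω, ph χ A ω ^ t ∂μ) / (A.card : ℝ) ^ t) ^ ((s - 1) / (t - 1)) <
        K * ((∫ ω, ph χ A ω ^ s ∂μ) / (A.card : ℝ) ^ s) →
      ∃ H ⊆ A, ((∫ ω, ph χ A ω ^ s ∂μ) / (A.card : ℝ) ^ s) ^ (1 / (s - 1)) ≤ K ^ c * H.card ∧
        (H.card : ℝ) ^ 3 ≤ (A.card : ℝ) ^ ε * K ^ c' * energy 2 H := by
  obtain ⟨c1, c1', hc1, hc1', hsk⟩ := small_K.{u} 2 (by norm_num) ε hε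
  have hγ : 0 < t - 3 := by linarith
  obtain ⟨C, hC, hl⟩ := sig_structure.{u} (c := 2 + 4 / (t - 3))
    (by have : 0 < 4 / (t - 3) := by positivity
        linarith) hε
  have ht1 : 0 < t - 1 := by linarith
  have ht2 : 0 < t - 2 := by linarith
  have hs1 : 0 < s - 1 := by linarith
  have hts : 0 < t - s := by linarith
  obtain ⟨D, hD⟩ : ∃ D, D = (t - 2) / (t - s) + 1 / (s - 1) := ⟨_, rfl⟩
  have hD0 : 0 < D := by rw [hD]; positivity
  have hc' : 0 < D * (t + 1) * C := by have : 0 < t + 1 := by linarith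
                                       positivity
  refine ⟨D + D * c1, D * c1' + D * (t + 1) * C, by positivity, by positivity, ?_⟩
  intro G _ Ω _ _ _ _ μ _ χ h A hA K hK hyp
  have hN : (1 : ℝ) ≤ A.card := by exact_mod_cast hA.card_pos
  have hK0 : 0 < K := by linarith
  have i1 : ∫ ω, ph χ A ω ^ (1 : ℝ) ∂μ = A.card := by
    rw [← h.int_one]; simp only [Real.rpow_one]
  have i2 : ∫ ω, ph χ A ω ^ (2 : ℝ) ∂μ = energy 2 A := by
    rw [← h.int_pow]; simp only [Real.rpow_two]
  have i3 : ∫ ω, ph χ A ω ^ (3 : ℝ) ∂μ = energy 3 A := by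
    rw [← h.int_pow]; simp only [← Real.rpow_natCast]; norm_num
  have p2 := h.one_le_int hA (s := 2) (by norm_num)
  have p3 := h.one_le_int hA (s := 3) (by norm_num)
  have pt := h.one_le_int hA (s := s) (by linarith)
  have pu := h.one_le_int hA (s := t) (by linarith)
  have G0 := h.holder' hA le_rfl hs.le hst.le (by linarith) (Real.log A.card)
  have G1 := fun h2 : 2 ≤ s => h.holder' hA one_le_two h2 hst.le (by linarith) (Real.log A.card)
  have G1' := fun h2 : s ≤ 2 => h.holder' hA le_rfl hs.le h2 one_lt_two (Real.log A.card)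
  have G2 := h.holder' hA (x := 2) (y := 3) one_le_two (by norm_num) ht.le (by linarith)
    (Real.log A.card)
  rw [i1] at G0 G1'
  rw [i2] at G1 G1' G2 p2
  rw [i3] at G2 p3
  generalize hIu : ∫ ω, ph χ A ω ^ t ∂μ = Iu at *
  generalize ∫ ω, ph χ A ω ^ s ∂μ = It at *
  have hN0 : (0 : ℝ) < A.card := by linarith
  have hE0 : (0 : ℝ) < energy 2 A := by linarith
  have hF0 : (0 : ℝ) < energy 3 A := by linarith
  have hIt0 : 0 < It := by linarith
  have hIu0 : 0 < Iu := by linarith
  have hk : 0 ≤ Real.log K := Real.log_nonneg hK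
  have hyp' := Real.log_lt_log (by positivity) hyp
  rw [Real.log_rpow (by positivity), Real.log_mul hK0.ne' (by positivity),
    Real.log_div hIu0.ne' (by positivity), Real.log_div hIt0.ne' (by positivity),
    Real.log_rpow hN0, Real.log_rpow hN0, div_mul_eq_mul_div, div_lt_iff₀ ht1] at hyp'
  obtain ⟨Gc, Gb, Gd⟩ := convex_aux (d := Real.log (energy 3 A) - 3 * Real.log A.card)
    hs hst ht hk hyp' (by linarith) G1 (fun h2 => by linarith [G1' h2]) (by linarith) hD
  clear G0 G1 G1' G2 hyp hyp' hD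
  have hρ : rho 2 A = energy 2 A / (A.card : ℝ) ^ 2 := rfl
  have hρ0 : 0 < rho 2 A := by rw [hρ]; positivity
  have hρl : Real.log (rho 2 A) = Real.log (energy 2 A) - 2 * Real.log A.card := by
    rw [hρ, Real.log_div hE0.ne' (by positivity), Real.log_pow]; rfl
  have size : (It / (A.card : ℝ) ^ s) ^ (1 / (s - 1)) ≤ K ^ D * rho 2 A := by
    rw [← Real.log_le_log_iff (by positivity) (by positivity), Real.log_rpow (by positivity),
      Real.log_div hIt0.ne' (by positivity), Real.log_rpow hN0,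
      Real.log_mul (by positivity) hρ0.ne', Real.log_rpow hK0, hρl, one_div,
      inv_mul_le_iff₀ hs1]
    linarith
  have mono : ∀ x y : ℝ, x ≤ y → K ^ x ≤ K ^ y := fun x y =>
    Real.rpow_le_rpow_of_exponent_le hK
  by_cases hsm : K ^ D ≤ 2
  · obtain ⟨H, r1, r2, r3⟩ := hsk G A hA (K ^ D) (Real.one_le_rpow hK hD0.le) hsm (by
      have : rho 3 A = energy 3 A / (A.card : ℝ) ^ 3 := rfl
      rw [this, ← Real.log_lt_log_iff (by positivity) (by positivity),
        Real.log_rpow (by positivity), Real.log_div hF0.ne' (by positivity), Real.log_pow,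
        Real.log_mul (by positivity) hρ0.ne', Real.log_rpow hK0, hρl]
      push_cast
      linarith)
    rw [← Real.rpow_mul hK0.le] at r2 r3
    refine ⟨H, r1, size.trans ?_, r3.trans ?_⟩
    · rw [Real.rpow_add hK0, mul_assoc]
      gcongr
    · have := mono (D * c1') (D * c1' + D * (t + 1) * C) (le_add_of_nonneg_right hc'.le)
      gcongr
  · have hM : 1 ≤ K ^ (D * (t - 1)) := Real.one_le_rpow hK (by positivity)
    have hsig := h.sig hA (M := K ^ (D * (t - 1))) hγ hM (by
      rw [← Real.log_le_log_iff hF0 (by positivity),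
        Real.log_mul (by positivity) (by positivity), Real.log_rpow hK0,
        Real.log_div (by positivity) hN0.ne', Real.log_pow]
      have : 0 ≤ (t - 3) * (D * Real.log K) := by positivity
      push_cast
      linarith) (by
      rw [show 3 + (t - 3) = t by ring, hIu, ← Real.log_le_log_iff hIu0 (by positivity),
        Real.log_mul (by positivity) (by positivity), Real.log_mul (by positivity) (by positivity),
        Real.log_rpow hK0, Real.log_div (by positivity) hN0.ne', Real.log_pow,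
        Real.log_rpow (by positivity), Real.log_div hE0.ne' hN0.ne']
      push_cast
      linarith)
    obtain ⟨H, r1, r2, r3⟩ := hl G A hA _ hsig
    refine ⟨H, r1, size.trans ?_, r3.trans ?_⟩
    · have := mono D (D + D * c1) (le_add_of_nonneg_right (by positivity))
      gcongr
    · have e1 : 4 * K ^ (D * (t - 1)) ≤ K ^ (D * (t + 1)) := by
        have : (4 : ℝ) ≤ K ^ D * K ^ D := (show (4 : ℝ) = 2 * 2 by norm_num).trans_le
          (mul_self_le_mul_self zero_le_two (not_le.1 hsm).le)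
        rw [show D * (t + 1) = D + D + D * (t - 1) by ring, Real.rpow_add hK0, Real.rpow_add hK0]
        gcongr
      have e2 : (4 * K ^ (D * (t - 1))) ^ C ≤ K ^ (D * c1' + D * (t + 1) * C) :=
        (Real.rpow_le_rpow (by positivity) e1 hC.le).trans (by
          rw [← Real.rpow_mul hK0.le]
          exact mono _ _ (le_add_of_nonneg_left (by positivity)))
      gcongr

section Dual

variable {G : Type u} [AddCommGroup G] [TopologicalSpace G] [DiscreteTopology G]

lemma exists_char {g : G} (hg : g ≠ 0) :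
    ∃ ψ : PontryaginDual (Multiplicative G), ψ (Multiplicative.ofAdd g) ≠ 1 := by
  obtain ⟨c, hc⟩ := CharacterModule.exists_character_apply_ne_zero_of_ne_zero hg
  let f : AddCircle (1 : ℚ) →+ AddCircle (1 : ℝ) :=
    QuotientAddGroup.map _ _ (Rat.castHom ℝ).toAddMonoidHom (by
      rintro x ⟨n, rfl⟩
      exact ⟨n, by simp⟩)
  have hf : ∀ x, f x = 0 → x = 0 := fun x => by
    induction x using QuotientAddGroup.induction_on with
    | H q =>
      intro h
      obtain ⟨n, hn⟩ := (AddCircle.coe_eq_zero_iff (1 : ℝ) (x := (q : ℝ))).1 h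
      refine (AddCircle.coe_eq_zero_iff (1 : ℚ)).2 ⟨n, ?_⟩
      simp only [zsmul_eq_mul, mul_one] at hn ⊢
      exact_mod_cast hn
  refine ⟨(⟨⟨⟨fun x => AddCircle.toCircle (f (c x.toAdd)), by simp⟩, fun x y => by
    simp [AddCircle.toCircle_add]⟩, continuous_of_discreteTopology⟩ :
      Multiplicative G →ₜ* Circle), fun h => hc (hf _ ?_)⟩
  exact AddCircle.injective_toCircle one_ne_zero (h.trans AddCircle.toCircle_zero.symm)

variable [MeasurableSpace (PontryaginDual (Multiplicative G))]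
  [BorelSpace (PontryaginDual (Multiplicative G))]
  (μ : Measure (PontryaginDual (Multiplicative G)))

lemma pl_dual [μ.IsMulLeftInvariant] :
    Pl μ fun (ψ : PontryaginDual (Multiplicative G)) (g : G) =>
      (ψ (Multiplicative.ofAdd g) : ℂ) where
  cont g := continuous_subtype_val.comp
    (continuous_eval_const (F := Multiplicative G →ₜ* Circle) (Multiplicative.ofAdd g))
  zero ψ := by simp
  add ψ g h := by simp
  neg ψ g := by rw [ofAdd_neg, map_inv, Circle.coe_inv_eq_conj]
  orth g hg := by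
    obtain ⟨ψ, hψ⟩ := exists_char hg
    have h := integral_mul_left_eq_self (μ := μ)
      (fun φ : PontryaginDual (Multiplicative G) => (φ (Multiplicative.ofAdd g) : ℂ)) ψ
    have e : ∀ φ : PontryaginDual (Multiplicative G), ((ψ * φ) (Multiplicative.ofAdd g) : ℂ) =
      ψ (Multiplicative.ofAdd g) * φ (Multiplicative.ofAdd g) := fun φ => rfl
    simp only [e] at h
    rw [integral_const_mul] at h
    by_contra h0
    exact hψ (Circle.coe_eq_one.1 (mul_right_cancel₀ h0 (h.trans (one_mul _).symm)))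

omit [DiscreteTopology G] [BorelSpace (PontryaginDual (Multiplicative G))] in
lemma rhoR_eq (t : ℝ) (A : Finset G) : rhoR μ t A =
    (∫ ω, ph (fun (ψ : PontryaginDual (Multiplicative G)) (g : G) =>
      (ψ (Multiplicative.ofAdd g) : ℂ)) A ω ^ t ∂μ) / (A.card : ℝ) ^ t := by
  unfold rhoR ph Es
  simp only [Real.rpow_mul (norm_nonneg _), Real.rpow_two, id]

/-- At integers the moment is the normalised energy. -/
theorem rhoR_natCast [μ.IsMulLeftInvariant] [IsProbabilityMeasure μ] (n : ℕ) (A : Finset G) :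
    rhoR μ n A = rho n A := by
  rw [rhoR_eq]
  simp only [Real.rpow_natCast]
  rw [(pl_dual μ).int_pow, rho]

end Dual

lemma exists_shift {G : Type u} [AddCommGroup G] {A H : Finset G} (hA : A.Nonempty) (hH : H ⊆ A)
    {m : ℕ} (hm : 1 ≤ m) : ∃ H' : Finset G,
      (∀ x ∈ H', ∃ a : Fin m → G, (∀ i, a i ∈ A) ∧ ∑ i, a i = x) ∧ H'.card = H.card ∧
      energy 2 H ≤ energy 2 H' := by
  obtain ⟨a, ha⟩ := hA
  obtain ⟨m, rfl⟩ := Nat.exists_eq_add_of_le' hm
  refine ⟨H.map (addRightEmbedding (m • a)), fun x hx => ?_, Finset.card_map _, ?_⟩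
  · obtain ⟨y, hy, rfl⟩ := Finset.mem_map.1 hx
    refine ⟨Fin.cons y fun _ => a, fun i => ?_, by simp [Fin.sum_univ_succ]⟩
    refine Fin.cases ?_ (fun _ => ?_) i
    exacts [hH hy, ha]
  · refine Finset.card_le_card_of_injOn
      (fun s => (fun i => s.1 i + m • a, fun i => s.2 i + m • a)) (fun s hs => ?_)
      fun s _ s' _ h => ?_
    · obtain ⟨h1, h2, h3⟩ := mem_sols.1 hs
      refine mem_sols.2 ⟨fun i => Finset.mem_map_of_mem _ (h1 i),
        fun i => Finset.mem_map_of_mem _ (h2 i), ?_⟩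
      simp only [Finset.sum_add_distrib, h3]
    · simp only [Prod.mk.injEq] at h
      exact Prod.ext (funext fun i => add_right_cancel (congrFun h.1 i))
        (funext fun i => add_right_cancel (congrFun h.2 i))

theorem real_exponent (s t : ℝ) (hs : 1 < s) (hst : s < t) (ht : 3 < t) (ε : ℝ) (hε : 0 < ε) :
    ∃ c c' : ℝ, 0 < c ∧ 0 < c' ∧ ∀ (G : Type u) [AddCommGroup G] [TopologicalSpace G]
      [DiscreteTopology G] [MeasurableSpace (PontryaginDual (Multiplicative G))]
      [BorelSpace (PontryaginDual (Multiplicative G))]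
      (μ : Measure (PontryaginDual (Multiplicative G))) [μ.IsHaarMeasure] [IsProbabilityMeasure μ]
      (A : Finset G), A.Nonempty → ∀ K : ℝ, 1 ≤ K →
      rhoR μ t A ^ ((s - 1) / (t - 1)) < K * rhoR μ s A → ∀ m : ℕ, 1 ≤ m →
      ∃ H : Finset G, (∀ x ∈ H, ∃ a : Fin m → G, (∀ i, a i ∈ A) ∧ ∑ i, a i = x) ∧
        rhoR μ s A ^ (1 / (s - 1)) ≤ K ^ c * H.card ∧
        (H.card : ℝ) ^ 3 ≤ (A.card : ℝ) ^ ε * K ^ c' * energy 2 H := by
  obtain ⟨c, c', hc, hc', h⟩ := real_structure.{u, u} hs hst ht hε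
  refine ⟨c, c', hc, hc', fun G _ _ _ _ _ μ _ _ A hA K hK hyp m hm => ?_⟩
  rw [rhoR_eq, rhoR_eq] at hyp
  obtain ⟨H, r1, r2, r3⟩ := h G _ μ _ (pl_dual μ) A hA K hK hyp
  obtain ⟨H', s1, s2, s3⟩ := exists_shift hA r1 hm
  refine ⟨H', s1, by rwa [rhoR_eq, s2], ?_⟩
  rw [s2]
  have : (energy 2 H : ℝ) ≤ energy 2 H' := by exact_mod_cast s3
  have : 0 < K := by linarith
  exact r3.trans (by gcongr)

end Pool.Agent.Lib.MP_328240_co
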