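import Mathlib

/-!
Higher additive energies.
-/

set_option autoImplicit false

namespace Pool.Agent.Lib.MP_328240_co

open Finset

variable {G : Type*} [AddCommGroup G]

open Classical in
/-- The pairs `(a, b)` of `n`-tuples from `A` with `a 1 + ... + a n = b 1 + ... + b n`. -/
noncomputable def sols (n : ℕ) (A : Finset G) : Finset ((Fin n → G) × (Fin n → G)) :=
  (Fintype.piFinset (fun _ => A) ×ˢ Fintype.piFinset (fun _ => A)).filter
    fun s => ∑ i, s.1 i = ∑ i, s.2 i

/-- The additive energy `E_{2n}(A)`. -/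
noncomputable def energy (n : ℕ) (A : Finset G) : ℕ := (sols n A).card

/-- The normalised energy `ρ_{2n}(A) = |A|^{-n} E_{2n}(A)`. -/
noncomputable def rho (n : ℕ) (A : Finset G) : ℝ := (energy n A : ℝ) / (A.card : ℝ) ^ n

open Classical in
/-- The number of solutions of `a 1 + a 2 + a 3 = b 1 + b 2 + b 3` in `A` for which at least `r` of
the nine index pairs `(i, j)` have `a 1 + a 2 + a 3 - a i - b j ∈ A`. -/
noncomputable def mids (A : Finset G) (r : ℕ) : ℕ :=
  ((sols 3 A).filter fun s =>
    r ≤ (univ.filter fun p : Fin 3 × Fin 3 => ∑ i, s.1 i - s.1 p.1 - s.2 p.2 ∈ A).card).card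

end Pool.Agent.Lib.MP_328240_co
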