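import Pool.Agent.Lib.MP_328240_co.H73Init
import Pool.Agent.Lib.MP_328240_co.H73Defs

/-!
Counting: energies, middles, and the two-layer set `A × {0} ∪ (-A) × {1}`.
-/

set_option autoImplicit false

namespace Pool.Agent.Lib.MP_328240_co

open Finset

universe u

variable {G : Type u} [AddCommGroup G]

lemma mem_sols {n : ℕ} {A : Finset G} {s : (Fin n → G) × (Fin n → G)} :
    s ∈ sols n A ↔ (∀ i, s.1 i ∈ A) ∧ (∀ i, s.2 i ∈ A) ∧ ∑ i, s.1 i = ∑ i, s.2 i := by
  simp only [sols, Finset.mem_filter, Finset.mem_product, Fintype.mem_piFinset]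
  tauto

open Classical in
/-- The pairs counted by `nu`. -/
noncomputable def Nu (P : Finset G) (c : G) : Finset (G × G) :=
  (P ×ˢ P).filter fun x => x.2 + (x.1 - c) ∈ P

lemma mem_Nu {P : Finset G} {c : G} {x : G × G} :
    x ∈ Nu P c ↔ x.1 ∈ P ∧ x.2 ∈ P ∧ x.2 + (x.1 - c) ∈ P := by
  simp only [Nu, Finset.mem_filter, Finset.mem_product]
  tauto

lemma card_Nu (P : Finset G) (c : G) : (Nu P c).card = nu P c := by
  classical
  unfold Nu nu rr
  rw [Finset.card_filter, Finset.sum_product]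
  refine Finset.sum_congr rfl fun p _ => ?_
  rw [Finset.card_filter]

lemma energy_two (A : Finset G) : energy 2 A = ∑ c ∈ A, nu A c := by
  simp only [← card_Nu]
  rw [← Finset.card_sigma]
  refine Finset.card_bij (fun s _ => ⟨s.2 0, (s.1 0, s.1 1)⟩) (fun s hs => ?_)
    (fun s hs t ht h => ?_) fun x hx => ?_
  · obtain ⟨h1, h2, h3⟩ := mem_sols.1 hs
    simp only [Fin.sum_univ_two] at h3
    refine Finset.mem_sigma.2 ⟨h2 0, mem_Nu.2 ⟨h1 0, h1 1, ?_⟩⟩
    convert h2 1 using 1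
    clear * - h3; grind
  · have a := (mem_sols.1 hs).2.2
    have b := (mem_sols.1 ht).2.2
    simp only [Fin.sum_univ_two, Sigma.mk.injEq, heq_eq_eq, Prod.mk.injEq] at a b h
    refine Prod.ext (funext fun i => ?_) (funext fun i => ?_) <;> fin_cases i <;>
      simp only [Fin.zero_eta, Fin.mk_one, Fin.isValue] <;> clear * - a b h <;> grind
  · obtain ⟨h1, h2⟩ := Finset.mem_sigma.1 hx
    obtain ⟨h2, h3, h4⟩ := mem_Nu.1 h2
    refine ⟨(![x.2.1, x.2.2], ![x.1, x.2.2 + (x.2.1 - x.1)]), mem_sols.2 ⟨fun i => ?_, fun i => ?_,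
      ?_⟩, rfl⟩
    · fin_cases i <;> simpa
    · fin_cases i <;> simpa
    · simp only [Fin.sum_univ_two, Matrix.cons_val_zero, Matrix.cons_val_one]
      abel

lemma Q4_le_energy (S : Finset G) : Q4 S ≤ energy 2 S := by
  classical
  unfold Q4 energy
  refine Finset.card_le_card_of_injOn (fun y => (![y.1, y.2.2.2], ![y.2.1, y.2.2.1]))
    (fun y hy => ?_) fun y _ y' _ h => ?_
  · simp only [Finset.coe_filter, Finset.mem_product, Set.mem_ofPred_eq] at hy
    obtain ⟨⟨h1, h2, h3, h4⟩, h5⟩ := hy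
    refine mem_sols.2 ⟨fun i => ?_, fun i => ?_, ?_⟩
    · fin_cases i <;> simpa
    · fin_cases i <;> simpa
    · simp only [Fin.sum_univ_two, Matrix.cons_val_zero, Matrix.cons_val_one]
      clear * - h5; grind
  · simp only [Prod.mk.injEq, Matrix.vecCons_inj] at h
    exact Prod.ext h.1.1 (Prod.ext h.2.1 (Prod.ext h.2.2.1 h.1.2.1))

lemma energy_mono {n : ℕ} {S A : Finset G} (h : S ⊆ A) : energy n S ≤ energy n A :=
  Finset.card_le_card fun s hs => by
    obtain ⟨h1, h2, h3⟩ := mem_sols.1 hs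
    exact mem_sols.2 ⟨fun i => h (h1 i), fun i => h (h2 i), h3⟩

lemma nu_le (A : Finset G) (c : G) : nu A c ≤ A.card * A.card := by
  rw [← card_Nu, ← Finset.card_product]
  exact Finset.card_le_card fun x hx => Finset.mem_product.2 ⟨(mem_Nu.1 hx).1, (mem_Nu.1 hx).2.1⟩

lemma le_nu (A : Finset G) {c : G} (hc : c ∈ A) : A.card ≤ nu A c := by
  unfold nu
  rw [Finset.card_eq_sum_ones]
  exact Finset.sum_le_sum fun p hp => rr_pos hc hp

/-- The middle element attached to the index pair `(i, j)`. -/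
def mid (s : (Fin 3 → G) × (Fin 3 → G)) (i j : Fin 3) : G := ∑ l, s.1 l - s.1 i - s.2 j

open Classical in
lemma sum_nu_sq_le (A S : Finset G) :
    ∑ c ∈ S, nu A c ^ 2 ≤ ((sols 3 A).filter fun s => mid s 0 0 ∈ S).card := by
  have e : ∑ c ∈ S, nu A c ^ 2 = (S.sigma fun c => Nu A c ×ˢ Nu A c).card := by
    rw [Finset.card_sigma]
    exact Finset.sum_congr rfl fun c _ => by rw [Finset.card_product, card_Nu, sq]
  rw [e]
  refine Finset.card_le_card_of_injOn (fun x => (![x.2.2.2 + (x.2.2.1 - x.1), x.2.1.1, x.2.1.2],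
    ![x.2.1.2 + (x.2.1.1 - x.1), x.2.2.1, x.2.2.2])) (fun x hx => ?_) fun x _ y _ h => ?_
  · obtain ⟨h1, h2⟩ := Finset.mem_sigma.1 hx
    obtain ⟨h2, h3⟩ := Finset.mem_product.1 h2
    obtain ⟨a1, a2, a3⟩ := mem_Nu.1 h2
    obtain ⟨b1, b2, b3⟩ := mem_Nu.1 h3
    refine Finset.mem_filter.2 ⟨mem_sols.2 ⟨fun i => ?_, fun i => ?_, ?_⟩, ?_⟩
    · fin_cases i <;> simpa
    · fin_cases i <;> simpa
    · simp only [Fin.sum_univ_three, Matrix.cons_val_zero, Matrix.cons_val_one,
        Matrix.cons_val]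
      abel
    · convert h1 using 1
      simp only [mid, Fin.sum_univ_three, Matrix.cons_val_zero, Matrix.cons_val_one,
        Matrix.cons_val]
      abel
  · obtain ⟨c, ⟨p, q⟩, ⟨p', q'⟩⟩ := x
    obtain ⟨d, ⟨r, t⟩, ⟨r', t'⟩⟩ := y
    simp only [Prod.mk.injEq, Matrix.vecCons_inj, Sigma.mk.injEq, heq_eq_eq] at h ⊢
    clear * - h; grind

/-- Relabelling of the two triples. -/
def act (σ τ : Equiv.Perm (Fin 3)) (s : (Fin 3 → G) × (Fin 3 → G)) :
    (Fin 3 → G) × (Fin 3 → G) := (s.1 ∘ σ, s.2 ∘ τ)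

lemma act_mem {A : Finset G} (σ τ : Equiv.Perm (Fin 3)) {s : (Fin 3 → G) × (Fin 3 → G)}
    (hs : s ∈ sols 3 A) : act σ τ s ∈ sols 3 A := by
  obtain ⟨h1, h2, h3⟩ := mem_sols.1 hs
  refine mem_sols.2 ⟨fun i => h1 _, fun i => h2 _, ?_⟩
  simp only [act, Function.comp]
  rw [Equiv.sum_comp σ s.1, Equiv.sum_comp τ s.2, h3]

lemma mid_act (σ τ : Equiv.Perm (Fin 3)) (s : (Fin 3 → G) × (Fin 3 → G)) (i j : Fin 3) :
    mid (act σ τ s) i j = mid s (σ i) (τ j) := by
  simp only [mid, act, Function.comp]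
  rw [Equiv.sum_comp σ s.1]

omit [AddCommGroup G] in
lemma act_inj (σ τ : Equiv.Perm (Fin 3)) :
    Function.Injective (act σ τ : (Fin 3 → G) × (Fin 3 → G) → _) := fun s t h => by
  simp only [act, Prod.mk.injEq] at h
  exact Prod.ext (σ.surjective.injective_comp_right h.1) (τ.surjective.injective_comp_right h.2)

open Classical in
lemma card_ev_le (A : Finset G) (i j : Fin 3) :
    ((sols 3 A).filter fun s => mid s 0 0 ∈ A).card ≤
      ((sols 3 A).filter fun s => mid s i j ∈ A).card := by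
  refine Finset.card_le_card_of_injOn (act (Equiv.swap 0 i) (Equiv.swap 0 j)) (fun s hs => ?_)
    (act_inj _ _).injOn
  obtain ⟨h1, h2⟩ := Finset.mem_filter.1 hs
  refine Finset.mem_filter.2 ⟨act_mem _ _ h1, ?_⟩
  rwa [mid_act, Equiv.swap_apply_right, Equiv.swap_apply_right]

lemma sum_nu_sq_le_mids (A : Finset G) : ∑ c ∈ A, nu A c ^ 2 ≤ mids A 1 := by
  classical
  refine (sum_nu_sq_le A A).trans ?_
  unfold mids
  refine Finset.card_le_card fun s hs => ?_
  simp only [Finset.mem_filter] at hs ⊢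
  exact ⟨hs.1, Finset.card_pos.2 ⟨(0, 0), by simpa [mid] using hs.2⟩⟩

lemma mids_le (A : Finset G) (r : ℕ) : mids A r ≤ energy 3 A := by
  classical
  unfold mids
  exact Finset.card_le_card fun s hs => by
    simp only [Finset.mem_filter] at hs; exact hs.1

lemma mids_anti (A : Finset G) : mids A 2 ≤ mids A 1 := by
  classical
  unfold mids
  exact Finset.card_le_card fun s hs => by
    simp only [Finset.mem_filter] at hs ⊢; exact ⟨hs.1, by omega⟩

lemma nine_le (A : Finset G) : 9 * ∑ c ∈ A, nu A c ^ 2 ≤ energy 3 A + 8 * mids A 2 := by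
  classical
  calc 9 * ∑ c ∈ A, nu A c ^ 2 = ∑ _p : Fin 3 × Fin 3, ∑ c ∈ A, nu A c ^ 2 := by simp
    _ ≤ ∑ p : Fin 3 × Fin 3, ((sols 3 A).filter fun s => mid s p.1 p.2 ∈ A).card :=
        Finset.sum_le_sum fun p _ => by
          have a := sum_nu_sq_le A A
          have b := card_ev_le A p.1 p.2
          convert a.trans b
    _ = ∑ s ∈ sols 3 A, (univ.filter fun p : Fin 3 × Fin 3 => mid s p.1 p.2 ∈ A).card := by
        simp only [Finset.card_filter]
        exact Finset.sum_comm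
    _ ≤ ∑ s ∈ sols 3 A, (1 + 8 * if 2 ≤ (univ.filter fun p : Fin 3 × Fin 3 =>
          mid s p.1 p.2 ∈ A).card then 1 else 0) := by
        refine Finset.sum_le_sum fun s _ => ?_
        have : (univ.filter fun p : Fin 3 × Fin 3 => mid s p.1 p.2 ∈ A).card ≤ 9 :=
          (Finset.card_filter_le _ _).trans (by simp)
        split_ifs <;> omega
    _ = _ := by
        rw [Finset.sum_add_distrib, ← Finset.mul_sum, ← Finset.card_filter,
          ← Finset.card_eq_sum_ones]
        unfold mids energy mid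
        congr

open Classical in
lemma mids_two_le (A : Finset G) : mids A 2 ≤ 36 * ((sols 3 A).filter fun s =>
    mid s 0 0 ∈ A ∧ (mid s 1 1 ∈ A ∨ mid s 0 1 ∈ A ∨ mid s 1 0 ∈ A)).card := by
  set B := (sols 3 A).filter fun s =>
    mid s 0 0 ∈ A ∧ (mid s 1 1 ∈ A ∨ mid s 0 1 ∈ A ∨ mid s 1 0 ∈ A) with hB
  have key : ∀ p q : Fin 3 × Fin 3, p ≠ q → ∃ σ τ : Equiv.Perm (Fin 3),
      (σ 0, τ 0) = p ∧ ((σ 1, τ 1) = q ∨ (σ 0, τ 1) = q ∨ (σ 1, τ 0) = q) := by decide
  calc mids A 2 ≤ ((univ : Finset (Equiv.Perm (Fin 3) × Equiv.Perm (Fin 3))).biUnion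
        fun e => (sols 3 A).filter fun s => act e.1 e.2 s ∈ B).card := by
        unfold mids
        refine Finset.card_le_card fun s hs => ?_
        simp only [Finset.mem_filter] at hs
        obtain ⟨p, hp, q, hq, hpq⟩ := Finset.one_lt_card.1 hs.2
        obtain ⟨σ, τ, e1, e2⟩ := key p q hpq
        have hp' : mid s p.1 p.2 ∈ A := by simpa [mid] using hp
        have hq' : mid s q.1 q.2 ∈ A := by simpa [mid] using hq
        refine Finset.mem_biUnion.2 ⟨(σ, τ), Finset.mem_univ _, Finset.mem_filter.2 ⟨hs.1,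
          Finset.mem_filter.2 ⟨act_mem _ _ hs.1, ?_⟩⟩⟩
        simp only [mid_act]
        subst e1
        refine ⟨hp', ?_⟩
        rcases e2 with e2 | e2 | e2 <;> subst e2
        exacts [Or.inl hq', Or.inr (Or.inl hq'), Or.inr (Or.inr hq')]
    _ ≤ ∑ e : Equiv.Perm (Fin 3) × Equiv.Perm (Fin 3),
        ((sols 3 A).filter fun s => act e.1 e.2 s ∈ B).card := Finset.card_biUnion_le
    _ ≤ ∑ _e : Equiv.Perm (Fin 3) × Equiv.Perm (Fin 3), B.card :=
        Finset.sum_le_sum fun e _ => Finset.card_le_card_of_injOn (act e.1 e.2)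
          (fun s hs => (Finset.mem_filter.1 hs).2) (act_inj _ _).injOn
    _ = _ := by simp [Fintype.card_perm, Nat.factorial]

end Pool.Agent.Lib.MP_328240_co
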