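import Pool.Agent.Lib.MP_328240_co.H73Step

/-!
From small conditional entropy of a difference to a set with many additive quadruples.
-/

set_option autoImplicit false

namespace Pool.Agent.Lib.MP_328240_co

open Finset

universe u

open Classical in
lemma exists_level {Ω α T : Type*} [Fintype Ω] {P : Ω → ℝ} (hP : ∀ ω, 0 < P ω)
    (h1 : ∑ ω, P ω = 1) (Y : Ω → α) (W : Ω → T) (P0 : Finset α) (hY : ∀ ω, Y ω ∈ P0) (J : ℕ)
    (hJ1 : 1 ≤ J) (hJ : Real.log P0.card ≤ J) :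
    ∃ s : T → α → ℕ, (∀ w y, s w y ∈ Icc 1 J) ∧
      (∀ w j, ((P0.filter fun y => (∃ ω, Y ω = y ∧ W ω = w) ∧ s w y = j).card : ℝ) ≤
        Real.exp j) ∧
      ∑ ω, P ω * s (W ω) (Y ω) ≤ H P (fun ω => (Y ω, W ω)) - H P W + 1 ∧
      H P (fun ω => (Y ω, W ω)) - H P W ≤ Real.log J + ∑ ω, P ω * s (W ω) (Y ω) := by
  have hP' : ∀ ω, 0 ≤ P ω := fun ω => (hP ω).le
  set YW : Ω → α × T := fun ω => (Y ω, W ω) with hYW
  set x : T → α → ℝ := fun w y => -Real.log (mass P YW (y, w) / mass P W w) with hx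
  set s : T → α → ℕ := fun w y => min (⌊x w y⌋₊ + 1) J with hs
  have hm1 : ∀ ω, 0 < mass P YW (Y ω, W ω) := fun ω => mass_pos hP' YW (hP ω).ne'
  have hm2 : ∀ ω, 0 < mass P W (W ω) := fun ω => mass_pos hP' W (hP ω).ne'
  have hsum : ∀ w, ∑ y ∈ P0, mass P YW (y, w) ≤ mass P W w := fun w => by
    simp only [mass_eq]
    rw [Finset.sum_comm]
    refine Finset.sum_le_sum fun ω _ => ?_
    rw [Finset.sum_eq_single (Y ω)]
    · simp [hYW]
    · intro b _ hb
      simp [hYW, Ne.symm hb]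
    · intro h
      exact absurd (hY ω) h
  have hcard : ∀ w j, ((P0.filter fun y => (∃ ω, Y ω = y ∧ W ω = w) ∧ s w y = j).card : ℝ) ≤
      Real.exp j := by
    intro w j
    by_cases hj : J ≤ j
    · rcases P0.eq_empty_or_nonempty with h | h
      · simp [h, (Real.exp_pos _).le]
      have hpos : (0 : ℝ) < P0.card := by exact_mod_cast h.card_pos
      calc _ ≤ (P0.card : ℝ) := by exact_mod_cast Finset.card_filter_le _ _
        _ = Real.exp (Real.log P0.card) := (Real.exp_log hpos).symm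
        _ ≤ Real.exp j := Real.exp_le_exp.2 (hJ.trans (by exact_mod_cast hj))
    · set S := P0.filter fun y => (∃ ω, Y ω = y ∧ W ω = w) ∧ s w y = j with hS
      rcases S.eq_empty_or_nonempty with h | h
      · simp [h, (Real.exp_pos _).le]
      obtain ⟨y0, hy0⟩ := h
      obtain ⟨ω0, -, hω0⟩ := (Finset.mem_filter.1 hy0).2.1
      have hw : 0 < mass P W w := hω0 ▸ hm2 ω0
      have hlow : ∀ y ∈ S, Real.exp (-j) * mass P W w ≤ mass P YW (y, w) := fun y hy => by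
        obtain ⟨⟨ω, e1, e2⟩, e3⟩ := (Finset.mem_filter.1 hy).2
        have hp : 0 < mass P YW (y, w) := e1 ▸ e2 ▸ hm1 ω
        have e4 : ⌊x w y⌋₊ + 1 = j := by simp only [hs] at e3; omega
        have e5 : x w y < j := by
          rw [← e4]; push_cast; exact Nat.lt_floor_add_one _
        rw [← le_div_iff₀ hw, ← Real.exp_log (div_pos hp hw)]
        exact Real.exp_le_exp.2 (by simp only [hx] at e5; linarith)
      have h2 : S.card * (Real.exp (-j) * mass P W w) ≤ mass P W w := by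
        calc _ = ∑ _y ∈ S, Real.exp (-j) * mass P W w := by rw [Finset.sum_const, nsmul_eq_mul]
          _ ≤ ∑ y ∈ S, mass P YW (y, w) := Finset.sum_le_sum hlow
          _ ≤ ∑ y ∈ P0, mass P YW (y, w) := Finset.sum_le_sum_of_subset_of_nonneg
              (Finset.filter_subset _ _) fun _ _ _ => mass_nonneg hP' _ _
          _ ≤ _ := hsum w
      have h3 : S.card * Real.exp (-j) ≤ 1 := by
        rw [← mul_assoc] at h2
        exact le_of_mul_le_mul_right (by rwa [one_mul]) hw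
      rw [Real.exp_neg, ← div_eq_mul_inv, div_le_one (Real.exp_pos _)] at h3
      exact h3
  have hmem : ∀ w y, s w y ∈ Icc 1 J := fun w y => by
    simp only [hs, Finset.mem_Icc]; omega
  refine ⟨s, hmem, hcard, ?_, ?_⟩
  · have e : H P YW - H P W + 1 = ∑ ω, P ω * (x (W ω) (Y ω) + 1) := by
      unfold H
      simp only [mul_add, Finset.sum_add_distrib, mul_one, h1, ← Finset.sum_sub_distrib]
      congr 1
      refine Finset.sum_congr rfl fun ω _ => ?_
      simp only [hx]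
      rw [Real.log_div (hm1 ω).ne' (hm2 ω).ne']
      ring
    rw [e]
    refine Finset.sum_le_sum fun ω _ => mul_le_mul_of_nonneg_left ?_ (hP' ω)
    have hle : mass P YW (Y ω, W ω) ≤ mass P W (W ω) :=
      (Finset.single_le_sum (f := fun y => mass P YW (y, W ω))
        (fun _ _ => mass_nonneg hP' _ _) (hY ω)).trans (hsum _)
    have hx0 : 0 ≤ x (W ω) (Y ω) := by
      simp only [hx, neg_nonneg]
      exact Real.log_nonpos (div_pos (hm1 ω) (hm2 ω)).le ((div_le_one (hm2 ω)).2 hle)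
    calc (s (W ω) (Y ω) : ℝ) ≤ ((⌊x (W ω) (Y ω)⌋₊ + 1 : ℕ) : ℝ) := by
          exact_mod_cast min_le_left _ _
      _ ≤ _ := by push_cast; linarith [Nat.floor_le hx0]
  · have := H_le_fiber hP' h1 Y W P0 (fun w y => ∃ ω, Y ω = y ∧ W ω = w) hY
      (fun ω => ⟨ω, rfl, rfl⟩) s (Icc 1 J) (fun w y _ _ => hmem w y)
    simp only [Nat.card_Icc, add_tsub_cancel_right] at this
    have h2 : ∑ ω, P ω * Real.log (P0.filter fun a => (∃ ω', Y ω' = a ∧ W ω' = W ω) ∧
        s (W ω) a = s (W ω) (Y ω)).card ≤ ∑ ω, P ω * s (W ω) (Y ω) := by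
      refine Finset.sum_le_sum fun ω _ => mul_le_mul_of_nonneg_left ?_ (hP' ω)
      have hpos : (0 : ℝ) < (P0.filter fun a => (∃ ω', Y ω' = a ∧ W ω' = W ω) ∧
          s (W ω) a = s (W ω) (Y ω)).card := by
        have : Y ω ∈ P0.filter fun a => (∃ ω', Y ω' = a ∧ W ω' = W ω) ∧
          s (W ω) a = s (W ω) (Y ω) := Finset.mem_filter.2 ⟨hY ω, ⟨ω, rfl, rfl⟩, rfl⟩
        exact_mod_cast Finset.card_pos.2 ⟨_, this⟩
      rw [Real.log_le_iff_le_exp hpos]
      exact hcard _ _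
    have h3 : H P (fun ω => (Y ω, W ω)) ≤ H P W + Real.log J + ∑ ω, P ω * Real.log
        (P0.filter fun a => (∃ ω', Y ω' = a ∧ W ω' = W ω) ∧
        s (W ω) a = s (W ω) (Y ω)).card := by convert this
    linarith

variable {G : Type u} [AddCommGroup G]

open Classical in
/-- The number of solutions of `a - b = c - d` in `S`. -/
noncomputable def Q4 (S : Finset G) : ℕ :=
  ((S ×ˢ S ×ˢ S ×ˢ S).filter fun y => y.1 - y.2.1 = y.2.2.1 - y.2.2.2).card

lemma card_quads_le (C : Finset (G × G × G × G)) (A1 A2 A3 A4 : Finset G)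
    (h : ∀ y ∈ C, y.1 - y.2.1 = y.2.2.1 - y.2.2.2 ∧ y.1 ∈ A1 ∧ y.2.1 ∈ A2 ∧ y.2.2.1 ∈ A3 ∧
      y.2.2.2 ∈ A4) :
    C.card ≤ A2.card * A3.card * A4.card ∧ C.card ≤ A1.card * A3.card * A4.card ∧
      C.card ≤ A1.card * A2.card * A4.card ∧ C.card ≤ A1.card * A2.card * A3.card := by
  refine ⟨?_, ?_, ?_, ?_⟩
  · rw [← Finset.card_product, ← Finset.card_product]
    refine Finset.card_le_card_of_injOn (fun y => ((y.2.1, y.2.2.1), y.2.2.2))
      (fun y hy => by have := h y hy; simp; tauto) fun y hy y' hy' e => ?_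
    have a := (h y hy).1; have b := (h y' hy').1
    simp only [Prod.ext_iff] at e ⊢
    clear * - a b e; grind
  · rw [← Finset.card_product, ← Finset.card_product]
    refine Finset.card_le_card_of_injOn (fun y => ((y.1, y.2.2.1), y.2.2.2))
      (fun y hy => by have := h y hy; simp; tauto) fun y hy y' hy' e => ?_
    have a := (h y hy).1; have b := (h y' hy').1
    simp only [Prod.ext_iff] at e ⊢
    clear * - a b e; grind
  · rw [← Finset.card_product, ← Finset.card_product]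
    refine Finset.card_le_card_of_injOn (fun y => ((y.1, y.2.1), y.2.2.2))
      (fun y hy => by have := h y hy; simp; tauto) fun y hy y' hy' e => ?_
    have a := (h y hy).1; have b := (h y' hy').1
    simp only [Prod.ext_iff] at e ⊢
    clear * - a b e; grind
  · rw [← Finset.card_product, ← Finset.card_product]
    refine Finset.card_le_card_of_injOn (fun y => ((y.1, y.2.1), y.2.2.1))
      (fun y hy => by have := h y hy; simp; tauto) fun y hy y' hy' e => ?_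
    have a := (h y hy).1; have b := (h y' hy').1
    simp only [Prod.ext_iff] at e ⊢
    clear * - a b e; grind

lemma Q4_le (S : Finset G) : Q4 S ≤ S.card ^ 3 := by
  classical
  have := (card_quads_le ((S ×ˢ S ×ˢ S ×ˢ S).filter fun y => y.1 - y.2.1 = y.2.2.1 - y.2.2.2)
    S S S S (fun y hy => by simp only [Finset.mem_filter, Finset.mem_product] at hy; tauto)).1
  unfold Q4
  convert this using 1
  ring

theorem Test.extract {P0 : Finset G} {φ : G →+ ℤ} {M D : ℝ} (h : Test P0 φ M D) (J : ℕ)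
    (hJ1 : 1 ≤ J) (hJ : Real.log P0.card ≤ J) (l : ℝ) (hl : 0 < l) :
    ∃ S ⊆ P0, S.Nonempty ∧ (∃ t, ∀ y ∈ S, φ y = t) ∧
      M - Real.log J - l * (D + 3 + 4 * Real.log J) - 4 / 3 * (D + 3 + 4 * Real.log J + J / l) ≤
        Real.log S.card ∧
      3 * Real.log S.card - 3 * Real.log 4 - 4 * (D + 3 + 4 * Real.log J + J / l) ≤
        Real.log (Q4 S) := by
  classical
  obtain ⟨Ω, i, P, E, F, W, hP, h1, hm, hD, hM⟩ := h
  obtain ⟨sE, mE, cE, uE, -⟩ := exists_level hP h1 E W P0 (fun ω => (hm ω).1) J hJ1 hJ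
  obtain ⟨sF, mF, cF, uF, lF⟩ := exists_level hP h1 F W P0 (fun ω => (hm ω).2.1) J hJ1 hJ
  set Z : Ω → (G × G × G) × G := fun ω => (W ω, E ω - F ω) with hZ
  set Q := gw P Z with hQ
  have pQ : ∀ x, 0 < Q x := gw_pos hP Z
  have sQ : ∑ x, Q x = 1 := gw_sum hP h1 Z
  have g : ∀ x : Glue Z, W x.1.1 = W x.1.2 ∧ E x.1.1 - F x.1.1 = E x.1.2 - F x.1.2 := fun x => by
    simpa [hZ] using x.2
  set f : Glue Z → G × G × G × G := fun x => (E x.1.1, F x.1.1, E x.1.2, F x.1.2) with hf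
  set p : G × G × G → G × G × G × G → Prop := fun w y => y.1 - y.2.1 = y.2.2.1 - y.2.2.2 ∧
    (∃ ω, E ω = y.1 ∧ W ω = w) ∧ (∃ ω, F ω = y.2.1 ∧ W ω = w) ∧
    (∃ ω, E ω = y.2.2.1 ∧ W ω = w) ∧ (∃ ω, F ω = y.2.2.2 ∧ W ω = w) with hp
  set lab : G × G × G → G × G × G × G → ℕ × ℕ × ℕ × ℕ :=
    fun w y => (sE w y.1, sF w y.2.1, sE w y.2.2.1, sF w y.2.2.2) with hlab
  have hS4 : ∀ x, f x ∈ P0 ×ˢ P0 ×ˢ P0 ×ˢ P0 := fun x => by
    simp only [hf, Finset.mem_product]
    exact ⟨(hm _).1, (hm _).2.1, (hm _).1, (hm _).2.1⟩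
  have hpf : ∀ x : Glue Z, p (W x.1.1) (f x) := fun x =>
    ⟨(g x).2, ⟨_, rfl, rfl⟩, ⟨_, rfl, rfl⟩, ⟨_, rfl, (g x).1.symm⟩, ⟨_, rfl, (g x).1.symm⟩⟩
  have key := H_le_fiber (fun x => (pQ x).le) sQ f (fun x => W x.1.1) (P0 ×ˢ P0 ×ˢ P0 ×ˢ P0) p
    hS4 hpf lab (Icc 1 J ×ˢ Icc 1 J ×ˢ Icc 1 J ×ˢ Icc 1 J)
    (fun w y _ _ => by simp only [hlab, Finset.mem_product]; exact ⟨mE _ _, mF _ _, mE _ _, mF _ _⟩)
  set C : Glue Z → Finset (G × G × G × G) := fun x => (P0 ×ˢ P0 ×ˢ P0 ×ˢ P0).filter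
    fun a => p (W x.1.1) a ∧ lab (W x.1.1) a = lab (W x.1.1) (f x) with hC
  have key' : H Q (fun x => (f x, W x.1.1)) ≤ H P W + 4 * Real.log J +
      ∑ x, Q x * Real.log (C x).card := by
    have e1 : H Q (fun x => W x.1.1) = H P W := (law_fst hP Z).H_eq W
    have e2 : Real.log ((Icc 1 J ×ˢ Icc 1 J ×ˢ Icc 1 J ×ˢ Icc 1 J).card : ℝ) =
        4 * Real.log J := by
      simp only [Finset.card_product, Nat.card_Icc, add_tsub_cancel_right]
      push_cast
      rw [show (J : ℝ) * (J * (J * J)) = J ^ 4 by ring, Real.log_pow]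
      norm_num
    rw [e1, e2] at key
    convert key
  have e1 := H_glue hP Z (fun ω => (E ω, F ω, W ω)) (fun ω => (E ω, F ω, W ω))
    (fun a b h => by simp only [hZ, Prod.mk.injEq] at h ⊢; rw [h.1, h.2.1]; exact ⟨h.2.2, rfl⟩)
    (fun a b h => by simp only [hZ, Prod.mk.injEq] at h ⊢; rw [h.1, h.2.1]; exact ⟨h.2.2, rfl⟩)
  have e2 : H Q (fun x => ((E x.1.1, F x.1.1, W x.1.1), (E x.1.2, F x.1.2, W x.1.2))) ≤
      H Q (fun x => (f x, W x.1.1)) :=
    H_le_of_det (fun x => (pQ x).le) _ _ fun a b _ _ h => by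
      simp only [hf, Prod.mk.injEq, ← (g a).1, ← (g b).1] at h ⊢
      tauto
  set s1 : Glue Z → ℝ := fun x => sE (W x.1.1) (E x.1.1) with hs1
  set s2 : Glue Z → ℝ := fun x => sF (W x.1.1) (F x.1.1) with hs2
  set s3 : Glue Z → ℝ := fun x => sE (W x.1.1) (E x.1.2) with hs3
  set s4 : Glue Z → ℝ := fun x => sF (W x.1.1) (F x.1.2) with hs4
  have a1 : ∑ x, Q x * s1 x = ∑ ω, P ω * sE (W ω) (E ω) :=
    law_fst hP Z fun ω => sE (W ω) (E ω)
  have a2 : ∑ x, Q x * s2 x = ∑ ω, P ω * sF (W ω) (F ω) :=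
    law_fst hP Z fun ω => sF (W ω) (F ω)
  have a3 : ∑ x, Q x * s3 x = ∑ ω, P ω * sE (W ω) (E ω) := by
    have := law_snd hP Z fun ω => sE (W ω) (E ω)
    simp only [← (g _).1] at this
    exact this
  have a4 : ∑ x, Q x * s4 x = ∑ ω, P ω * sF (W ω) (F ω) := by
    have := law_snd hP Z fun ω => sF (W ω) (F ω)
    simp only [← (g _).1] at this
    exact this
  have a5 : 0 ≤ ∑ x, Q x * s2 x :=
    Finset.sum_nonneg fun x _ => mul_nonneg (pQ x).le (Nat.cast_nonneg _)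
  obtain ⟨x, hx⟩ := exists_le_avg pQ sQ fun x =>
    l * (3 / 4 * (s1 x + s2 x + s3 x + s4 x) - Real.log (C x).card) - s2 x
  have e3 : ∑ x, Q x * (l * (3 / 4 * (s1 x + s2 x + s3 x + s4 x) - Real.log (C x).card) - s2 x) =
      l * (3 / 4 * (∑ x, Q x * s1 x + ∑ x, Q x * s2 x + ∑ x, Q x * s3 x + ∑ x, Q x * s4 x) -
        ∑ x, Q x * Real.log (C x).card) - ∑ x, Q x * s2 x := by
    simp only [Finset.mul_sum, ← Finset.sum_add_distrib, ← Finset.sum_sub_distrib]
    exact Finset.sum_congr rfl fun x _ => by ring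
  have e4 : 3 / 4 * (∑ x, Q x * s1 x + ∑ x, Q x * s2 x + ∑ x, Q x * s3 x + ∑ x, Q x * s4 x) -
      ∑ x, Q x * Real.log (C x).card ≤ D + 3 + 4 * Real.log J := by linarith
  rw [e3] at hx
  have e5 := mul_le_mul_of_nonneg_left e4 hl.le
  set w := W x.1.1 with hw
  set A1 := P0.filter fun y => (∃ ω, E ω = y ∧ W ω = w) ∧ sE w y = sE w (E x.1.1) with hA1
  set A2 := P0.filter fun y => (∃ ω, F ω = y ∧ W ω = w) ∧ sF w y = sF w (F x.1.1) with hA2
  set A3 := P0.filter fun y => (∃ ω, E ω = y ∧ W ω = w) ∧ sE w y = sE w (E x.1.2) with hA3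
  set A4 := P0.filter fun y => (∃ ω, F ω = y ∧ W ω = w) ∧ sF w y = sF w (F x.1.2) with hA4
  have c1 : (A1.card : ℝ) ≤ Real.exp (s1 x) := by convert cE w (sE w (E x.1.1))
  have c2 : (A2.card : ℝ) ≤ Real.exp (s2 x) := by convert cF w (sF w (F x.1.1))
  have c3 : (A3.card : ℝ) ≤ Real.exp (s3 x) := by convert cE w (sE w (E x.1.2))
  have c4 : (A4.card : ℝ) ≤ Real.exp (s4 x) := by convert cF w (sF w (F x.1.2))
  have hCm : ∀ y ∈ C x, y.1 - y.2.1 = y.2.2.1 - y.2.2.2 ∧ y.1 ∈ A1 ∧ y.2.1 ∈ A2 ∧ y.2.2.1 ∈ A3 ∧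
      y.2.2.2 ∈ A4 := fun y hy => by
    simp only [hC, hp, hlab, hf, Finset.mem_filter, Finset.mem_product, Prod.mk.injEq] at hy
    simp only [hA1, hA2, hA3, hA4, Finset.mem_filter]
    tauto
  have hfx : f x ∈ C x := Finset.mem_filter.2 ⟨hS4 x, hpf x, rfl⟩
  have hCpos : (0 : ℝ) < (C x).card := by exact_mod_cast Finset.card_pos.2 ⟨_, hfx⟩
  obtain ⟨b1, b2, b3, b4⟩ := card_quads_le (C x) A1 A2 A3 A4 hCm
  have lg : ∀ (B1 B2 B3 : Finset G) (t1 t2 t3 : ℝ), (B1.card : ℝ) ≤ Real.exp t1 →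
      (B2.card : ℝ) ≤ Real.exp t2 → (B3.card : ℝ) ≤ Real.exp t3 →
      (C x).card ≤ B1.card * B2.card * B3.card → Real.log (C x).card ≤ t1 + t2 + t3 := by
    intro B1 B2 B3 t1 t2 t3 r1 r2 r3 r
    rw [Real.log_le_iff_le_exp hCpos, Real.exp_add, Real.exp_add]
    calc ((C x).card : ℝ) ≤ B1.card * B2.card * B3.card := by exact_mod_cast r
      _ ≤ _ := by gcongr
  have l1 := lg _ _ _ _ _ _ c2 c3 c4 b1
  have l2 := lg _ _ _ _ _ _ c1 c3 c4 b2
  have l3 := lg _ _ _ _ _ _ c1 c2 c4 b3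
  have l4 := lg _ _ _ _ _ _ c1 c2 c3 b4
  set D' := 3 / 4 * (s1 x + s2 x + s3 x + s4 x) - Real.log (C x).card with hD'
  have hD0 : 0 ≤ D' := by linarith
  have hs2J : s2 x ≤ J := by
    simp only [hs2]; exact_mod_cast (Finset.mem_Icc.1 (mF _ _)).2
  have hD1 : D' ≤ D + 3 + 4 * Real.log J + J / l := by
    have : l * D' ≤ l * (D + 3 + 4 * Real.log J + J / l) := by
      rw [mul_add l _ (J / l), mul_div_cancel₀ _ hl.ne']
      linarith
    exact le_of_mul_le_mul_left this hl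
  have hs2l : M - Real.log J - l * (D + 3 + 4 * Real.log J) ≤ s2 x := by
    have := mul_nonneg hl.le hD0
    linarith
  set S := A1 ∪ A2 ∪ A3 ∪ A4 with hS
  have hne : S.Nonempty := ⟨_, Finset.mem_union_right _ (hCm _ hfx).2.2.2.2⟩
  have hSpos : (0 : ℝ) < S.card := by exact_mod_cast hne.card_pos
  have hQ4 : (C x).card ≤ Q4 S := by
    unfold Q4
    refine Finset.card_le_card fun y hy => ?_
    have := hCm y hy
    simp only [hS, Finset.mem_filter, Finset.mem_product, Finset.mem_union]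
    tauto
  have hQ4' : Real.log (C x).card ≤ Real.log (Q4 S) :=
    Real.log_le_log hCpos (by exact_mod_cast hQ4)
  have hQ3 : Real.log (C x).card ≤ 3 * Real.log S.card := by
    have : Real.log (C x).card ≤ Real.log ((S.card : ℝ) ^ 3) :=
      Real.log_le_log hCpos (by exact_mod_cast hQ4.trans (Q4_le S))
    rwa [Real.log_pow] at this
  have hSc : Real.log S.card ≤ Real.log 4 + (1 / 4 * (s1 x + s2 x + s3 x + s4 x) + D') := by
    rw [Real.log_le_iff_le_exp hSpos, Real.exp_add, Real.exp_log (by norm_num)]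
    have r : S.card ≤ A1.card + A2.card + A3.card + A4.card :=
      (Finset.card_union_le _ _).trans (Nat.add_le_add_right ((Finset.card_union_le _ _).trans
        (Nat.add_le_add_right (Finset.card_union_le _ _) _)) _)
    have r' : (S.card : ℝ) ≤ A1.card + A2.card + A3.card + A4.card := by exact_mod_cast r
    have t1 := c1.trans (Real.exp_le_exp.2 (show s1 x ≤ 1 / 4 * (s1 x + s2 x + s3 x + s4 x) + D'
      by linarith))
    have t2 := c2.trans (Real.exp_le_exp.2 (show s2 x ≤ 1 / 4 * (s1 x + s2 x + s3 x + s4 x) + D'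
      by linarith))
    have t3 := c3.trans (Real.exp_le_exp.2 (show s3 x ≤ 1 / 4 * (s1 x + s2 x + s3 x + s4 x) + D'
      by linarith))
    have t4 := c4.trans (Real.exp_le_exp.2 (show s4 x ≤ 1 / 4 * (s1 x + s2 x + s3 x + s4 x) + D'
      by linarith))
    linarith
  refine ⟨S, fun y hy => ?_, hne, ⟨φ w.1, fun y hy => ?_⟩, by linarith, by linarith⟩
  · simp only [hS, hA1, hA2, hA3, hA4, Finset.mem_union, Finset.mem_filter] at hy
    tauto
  · simp only [hS, hA1, hA2, hA3, hA4, Finset.mem_union, Finset.mem_filter] at hy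
    rcases hy with ((⟨-, ⟨ω, r1, r2⟩, -⟩ | ⟨-, ⟨ω, r1, r2⟩, -⟩) | ⟨-, ⟨ω, r1, r2⟩, -⟩) |
      ⟨-, ⟨ω, r1, r2⟩, -⟩
    · rw [← r1, ← r2]; exact (hm ω).2.2.1
    · rw [← r1, ← r2]; exact (hm ω).2.2.2
    · rw [← r1, ← r2]; exact (hm ω).2.2.1
    · rw [← r1, ← r2]; exact (hm ω).2.2.2

end Pool.Agent.Lib.MP_328240_co
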