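import Pool.Agent.Lib.MP_328240_co.H73Ent

/-!
Conditionally independent copies, and two forms of the Gibbs inequality.
-/

set_option autoImplicit false

namespace Pool.Agent.Lib.MP_328240_co

open Finset

variable {Ω : Type*} {Ω₁ : Type*} {Ω₂ : Type*} [Fintype Ω] [Fintype Ω₁] [Fintype Ω₂]
  {α β γ : Type*}

/-- The variable `X` under `P` and the variable `Y` under `Q` have the same law. -/
def Law (P : Ω₁ → ℝ) (X : Ω₁ → α) (Q : Ω₂ → ℝ) (Y : Ω₂ → α) : Prop :=
  ∀ F : α → ℝ, ∑ x, P x * F (X x) = ∑ y, Q y * F (Y y)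

lemma Law.mass_eq {P : Ω₁ → ℝ} {X : Ω₁ → α} {Q : Ω₂ → ℝ} {Y : Ω₂ → α} (h : Law P X Q Y)
    (f : α → β) (b : β) : mass P (fun x => f (X x)) b = mass Q (fun y => f (Y y)) b := by
  classical
  have := h fun a => if f a = b then 1 else 0
  simp only [mul_ite, mul_one, mul_zero] at this
  rw [Pool.Agent.Lib.MP_328240_co.mass_eq, Pool.Agent.Lib.MP_328240_co.mass_eq]
  exact this

lemma Law.H_eq {P : Ω₁ → ℝ} {X : Ω₁ → α} {Q : Ω₂ → ℝ} {Y : Ω₂ → α} (h : Law P X Q Y)
    (f : α → β) : H P (fun x => f (X x)) = H Q (fun y => f (Y y)) := by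
  unfold H
  simp only [h.mass_eq f]
  exact h fun a => -Real.log (mass Q (fun y => f (Y y)) (f a))

lemma Law.map {P : Ω₁ → ℝ} {X : Ω₁ → α} {Q : Ω₂ → ℝ} {Y : Ω₂ → α} (h : Law P X Q Y)
    (f : α → β) : Law P (fun x => f (X x)) Q (fun y => f (Y y)) := fun F => h fun a => F (f a)

lemma Law.symm {P : Ω₁ → ℝ} {X : Ω₁ → α} {Q : Ω₂ → ℝ} {Y : Ω₂ → α} (h : Law P X Q Y) :
    Law Q Y P X := fun F => (h F).symm

lemma Law.trans {P : Ω₁ → ℝ} {X : Ω₁ → α} {Q : Ω₂ → ℝ} {Y : Ω₂ → α} {R : Ω → ℝ} {Z : Ω → α}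
    (h : Law P X Q Y) (h' : Law Q Y R Z) : Law P X R Z := fun F => (h F).trans (h' F)

lemma law_of_equiv (P : Ω → ℝ) (e : Ω ≃ Ω) (he : ∀ x, P (e x) = P x) :
    Law P (fun x => e x) P id := fun F => by
  rw [← Equiv.sum_comp e (fun y => P y * F (id y))]
  exact Finset.sum_congr rfl fun x _ => by rw [he]; rfl

/-- Pairs with equal images. -/
def Glue (Z : Ω → α) : Type _ := {x : Ω × Ω // Z x.1 = Z x.2}

noncomputable instance (Z : Ω → α) : Fintype (Glue Z) := by
  classical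
  exact Subtype.fintype _

open Classical in
lemma sum_glue (Z : Ω → α) (φ : Ω → Ω → ℝ) :
    ∑ x : Glue Z, φ x.1.1 x.1.2 = ∑ a, ∑ b, if Z a = Z b then φ a b else 0 := by
  have h := Finset.sum_subtype_of_mem (s := (univ : Finset (Ω × Ω)).filter
    fun x => Z x.1 = Z x.2) (fun x => φ x.1 x.2) (p := fun x => Z x.1 = Z x.2)
    (fun x hx => (mem_filter.1 hx).2)
  rw [← Finset.sum_product', ← Finset.sum_filter, univ_product_univ, ← h]
  refine Finset.sum_congr ?_ fun _ _ => rfl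
  ext x
  exact ⟨fun _ => mem_subtype.2 (mem_filter.2 ⟨mem_univ _, x.2⟩), fun _ => mem_univ _⟩

/-- The weights of two conditionally independent copies. -/
noncomputable def gw (P : Ω → ℝ) (Z : Ω → α) : Glue Z → ℝ :=
  fun x => P x.1.1 * P x.1.2 / mass P Z (Z x.1.1)

lemma gw_pos {P : Ω → ℝ} (hP : ∀ ω, 0 < P ω) (Z : Ω → α) (x : Glue Z) : 0 < gw P Z x :=
  div_pos (mul_pos (hP _) (hP _)) (mass_pos (fun ω => (hP ω).le) Z (hP _).ne')

/-- Exchange of the two copies. -/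
def gswap (Z : Ω → α) : Glue Z ≃ Glue Z where
  toFun x := ⟨(x.1.2, x.1.1), x.2.symm⟩
  invFun x := ⟨(x.1.2, x.1.1), x.2.symm⟩
  left_inv _ := rfl
  right_inv _ := rfl

lemma gw_swap (P : Ω → ℝ) (Z : Ω → α) (x : Glue Z) : gw P Z (gswap Z x) = gw P Z x := by
  unfold gw gswap
  simp only [Equiv.coe_fn_mk]
  rw [x.2, mul_comm]

lemma law_fst {P : Ω → ℝ} (hP : ∀ ω, 0 < P ω) (Z : Ω → α) :
    Law (gw P Z) (fun x => x.1.1) P id := fun φ => by
  classical
  have hp : ∀ ω, 0 < mass P Z (Z ω) := fun ω => mass_pos (fun ω => (hP ω).le) Z (hP ω).ne'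
  unfold gw
  rw [sum_glue Z fun a b => P a * P b / mass P Z (Z a) * φ a]
  refine Finset.sum_congr rfl fun a _ => ?_
  have e : mass P Z (Z a) = ∑ b, if Z b = Z a then P b else 0 := by
    rw [Pool.Agent.Lib.MP_328240_co.mass_eq]
  have := hp a
  calc _ = ∑ b, (if Z b = Z a then P b else 0) * (P a / mass P Z (Z a) * φ a) := by
        refine Finset.sum_congr rfl fun b _ => ?_
        by_cases h : Z a = Z b
        · rw [if_pos h, if_pos h.symm]; ring
        · rw [if_neg h, if_neg (Ne.symm h), zero_mul]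
    _ = _ := by rw [← Finset.sum_mul, ← e]; simp only [id]; field_simp

lemma law_snd {P : Ω → ℝ} (hP : ∀ ω, 0 < P ω) (Z : Ω → α) :
    Law (gw P Z) (fun x => x.1.2) P id :=
  ((law_of_equiv (gw P Z) (gswap Z) (gw_swap P Z)).map (fun x => x.1.1)).trans (law_fst hP Z)

lemma gw_sum {P : Ω → ℝ} (hP : ∀ ω, 0 < P ω) (h1 : ∑ ω, P ω = 1) (Z : Ω → α) :
    ∑ x, gw P Z x = 1 := by
  have := law_fst hP Z fun _ => 1
  simpa [h1] using this

lemma H_glue {P : Ω → ℝ} (hP : ∀ ω, 0 < P ω) (Z : Ω → α) (f : Ω → β) (g : Ω → γ)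
    (hf : ∀ ω ω', f ω = f ω' → Z ω = Z ω') (hg : ∀ ω ω', g ω = g ω' → Z ω = Z ω') :
    H (gw P Z) (fun x => (f x.1.1, g x.1.2)) = H P f + H P g - H P Z := by
  classical
  have hP' : ∀ ω, 0 ≤ P ω := fun ω => (hP ω).le
  have hm : ∀ x : Glue Z, mass (gw P Z) (fun x => (f x.1.1, g x.1.2)) (f x.1.1, g x.1.2) =
      mass P f (f x.1.1) * mass P g (g x.1.2) / mass P Z (Z x.1.1) := by
    intro x
    rw [mass_eq]
    unfold gw
    rw [sum_glue Z fun a b => if (f a, g b) = (f x.1.1, g x.1.2) then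
      P a * P b / mass P Z (Z a) else 0, mass_eq P f, mass_eq P g, Finset.sum_mul_sum,
      Finset.sum_div]
    refine Finset.sum_congr rfl fun a _ => ?_
    rw [Finset.sum_div]
    refine Finset.sum_congr rfl fun b _ => ?_
    by_cases ha : f a = f x.1.1
    · by_cases hb : g b = g x.1.2
      · have e1 := hf _ _ ha
        have e2 := hg _ _ hb
        have e3 : Z a = Z b := by rw [e1, e2]; exact x.2
        simp only [ha, hb, e3, if_true]
        rw [← e3, e1]
      · simp [hb]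
    · simp [ha]
  have e1 := law_fst hP Z fun a => -Real.log (mass P f (f a))
  have e2 := law_snd hP Z fun a => -Real.log (mass P g (g a))
  have e3 := law_fst hP Z fun a => -Real.log (mass P Z (Z a))
  unfold H
  simp only [id] at e1 e2 e3
  rw [← e1, ← e2, ← e3, ← Finset.sum_add_distrib, ← Finset.sum_sub_distrib]
  refine Finset.sum_congr rfl fun x _ => ?_
  rw [hm, Real.log_div (mul_pos (mass_pos hP' f (hP _).ne') (mass_pos hP' g (hP _).ne')).ne'
    (mass_pos hP' Z (hP _).ne').ne',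
    Real.log_mul (mass_pos hP' f (hP _).ne').ne' (mass_pos hP' g (hP _).ne').ne']
  ring

/-- A symmetry of the base that respects the level sets of `Z` acts on pairs. -/
def gmap (Z : Ω → α) (e : Ω ≃ Ω) (he : ∀ a b, Z (e a) = Z (e b) ↔ Z a = Z b) :
    Glue Z ≃ Glue Z where
  toFun x := ⟨(e x.1.1, e x.1.2), (he _ _).2 x.2⟩
  invFun x := ⟨(e.symm x.1.1, e.symm x.1.2), (he _ _).1 (by simpa using x.2)⟩
  left_inv x := by simp
  right_inv x := by simp

lemma gw_map (P : Ω → ℝ) (Z : Ω → α) (e : Ω ≃ Ω) (he : ∀ a b, Z (e a) = Z (e b) ↔ Z a = Z b)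
    (hP : ∀ a, P (e a) = P a) (x : Glue Z) : gw P Z (gmap Z e he x) = gw P Z x := by
  classical
  have hm : ∀ a, mass P Z (Z (e a)) = mass P Z (Z a) := fun a => by
    rw [mass_eq, mass_eq, ← Equiv.sum_comp e]
    exact Finset.sum_congr rfl fun b _ => by simp only [he, hP]
  unfold gw gmap
  simp only [Equiv.coe_fn_mk, hP, hm]

/-- Conditional Gibbs inequality for a variable with values in a finite set. -/
lemma cond_gibbs_fin {P : Ω → ℝ} (hP : ∀ ω, 0 ≤ P ω) (h1 : ∑ ω, P ω = 1)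
    (f : Ω → α) (g : Ω → β) (S : Finset α) (hS : ∀ ω, f ω ∈ S)
    (t : α → β → ℝ) (ht0 : ∀ a b, 0 ≤ t a b) (ht1 : ∀ b, ∑ a ∈ S, t a b ≤ 1)
    (htp : ∀ ω, 0 < t (f ω) (g ω)) :
    H P (fun ω => (f ω, g ω)) ≤ H P g + ∑ ω, P ω * -Real.log (t (f ω) (g ω)) :=
  cond_gibbs hP h1 (fun ω => (⟨f ω, hS ω⟩ : S)) g (fun ω => (f ω, g ω))
    (fun _ _ _ _ h h' => Prod.ext (congrArg Subtype.val h) h') (fun a b => t a.1 b)
    (fun a b => ht0 _ _) (fun b => by rw [Finset.sum_coe_sort S (fun a => t a b)]; exact ht1 b)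
    (fun ω _ => htp ω)

open Classical in
/-- Entropy is at most the entropy of a label plus the mean logarithmic size of the fibres. -/
lemma H_le_fiber {ι : Type*} {P : Ω → ℝ} (hP : ∀ ω, 0 ≤ P ω) (h1 : ∑ ω, P ω = 1)
    (f : Ω → α) (g : Ω → β) (S : Finset α) (p : β → α → Prop) (hS : ∀ ω, f ω ∈ S)
    (hp : ∀ ω, p (g ω) (f ω)) (lab : β → α → ι) (L : Finset ι)
    (hL : ∀ b, ∀ a ∈ S, p b a → lab b a ∈ L) :
    H P (fun ω => (f ω, g ω)) ≤ H P g + Real.log L.card + ∑ ω, P ω *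
      Real.log (S.filter fun a => p (g ω) a ∧ lab (g ω) a = lab (g ω) (f ω)).card := by
  have hne : Nonempty Ω := by
    by_contra h
    rw [not_nonempty_iff] at h
    simp at h1
  obtain ⟨ω₀⟩ := hne
  have hLpos : (0 : ℝ) < L.card := by
    exact_mod_cast Finset.card_pos.2 ⟨_, hL _ _ (hS ω₀) (hp ω₀)⟩
  have hc : ∀ b a, a ∈ S → p b a →
      (0 : ℝ) < (S.filter fun a' => p b a' ∧ lab b a' = lab b a).card := fun b a ha hpa => by
    have : a ∈ S.filter fun a' => p b a' ∧ lab b a' = lab b a :=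
      Finset.mem_filter.2 ⟨ha, hpa, rfl⟩
    exact_mod_cast Finset.card_pos.2 ⟨a, this⟩
  have := cond_gibbs_fin hP h1 f g S hS (fun a b => if p b a then
      1 / (L.card * (S.filter fun a' => p b a' ∧ lab b a' = lab b a).card) else 0)
    (fun a b => by split_ifs; exacts [by positivity, le_rfl]) (fun b => ?_)
    (fun ω => by rw [if_pos (hp ω)]; have := hc _ _ (hS ω) (hp ω); positivity)
  · refine this.trans (le_of_eq ?_)
    rw [add_assoc]
    congr 1
    rw [show Real.log (L.card : ℝ) = ∑ ω, P ω * Real.log (L.card : ℝ) by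
      rw [← Finset.sum_mul, h1, one_mul], ← Finset.sum_add_distrib]
    refine Finset.sum_congr rfl fun ω _ => ?_
    rw [if_pos (hp ω), one_div, Real.log_inv, neg_neg,
      Real.log_mul hLpos.ne' (hc _ _ (hS ω) (hp ω)).ne']
    ring
  · rw [← Finset.sum_filter, ← Finset.sum_fiberwise_of_maps_to (t := L) (g := lab b)
      (fun a ha => hL b a (Finset.mem_filter.1 ha).1 (Finset.mem_filter.1 ha).2)]
    calc _ ≤ ∑ _l ∈ L, (1 : ℝ) / L.card := by
          refine Finset.sum_le_sum fun l _ => ?_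
          rw [Finset.filter_filter]
          rw [Finset.sum_congr rfl (g := fun _ => (1 : ℝ) / (L.card *
            (S.filter fun a' => p b a' ∧ lab b a' = l).card)) (fun a ha => by
              rw [(Finset.mem_filter.1 ha).2.2]), Finset.sum_const, nsmul_eq_mul]
          by_cases h0 : ((S.filter fun a' => p b a' ∧ lab b a' = l).card : ℝ) = 0
          · rw [h0]; simp
          · field_simp
            exact le_rfl
      _ = 1 := by rw [Finset.sum_const, nsmul_eq_mul]; field_simp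

lemma exists_le_avg {P : Ω → ℝ} (hP : ∀ ω, 0 < P ω) (h1 : ∑ ω, P ω = 1) (F : Ω → ℝ) :
    ∃ ω, F ω ≤ ∑ ω, P ω * F ω := by
  by_contra h
  push Not at h
  have hne : Nonempty Ω := by
    by_contra h
    rw [not_nonempty_iff] at h
    simp at h1
  have : ∑ ω', P ω' * (∑ ω, P ω * F ω) < ∑ ω', P ω' * F ω' :=
    Finset.sum_lt_sum_of_nonempty Finset.univ_nonempty
      fun ω _ => mul_lt_mul_of_pos_left (h ω) (hP ω)
  rw [← Finset.sum_mul, h1, one_mul] at this
  exact lt_irrefl _ this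

lemma H_nonneg {P : Ω → ℝ} (hP : ∀ ω, 0 ≤ P ω) (h1 : ∑ ω, P ω = 1) (f : Ω → α) : 0 ≤ H P f := by
  have := H_le_of_det hP (fun _ => ()) f fun _ _ _ _ _ => rfl
  unfold H mass at this
  simpa [h1, H, mass] using this

/-- A variable with values in `S` has conditional entropy at most `log |S|`. -/
lemma H_pair_le_log {P : Ω → ℝ} (hP : ∀ ω, 0 ≤ P ω) (h1 : ∑ ω, P ω = 1)
    (f : Ω → α) (g : Ω → β) (S : Finset α) (hS : ∀ ω, f ω ∈ S) :
    H P (fun ω => (f ω, g ω)) ≤ H P g + Real.log S.card := by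
  have hne : Nonempty Ω := by
    by_contra h
    rw [not_nonempty_iff] at h
    simp at h1
  obtain ⟨ω₀⟩ := hne
  have hpos : (0 : ℝ) < S.card := by exact_mod_cast Finset.card_pos.2 ⟨_, hS ω₀⟩
  have := cond_gibbs_fin hP h1 f g S hS (fun _ _ => 1 / S.card) (fun _ _ => by positivity)
    (fun _ => by rw [Finset.sum_const, nsmul_eq_mul]; field_simp; exact le_rfl)
    (fun _ => by positivity)
  rw [← Finset.sum_mul, h1, one_div, Real.log_inv] at this
  linarith

end Pool.Agent.Lib.MP_328240_co
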