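import Pool.Agent.Lib.MP_328240_co.H73Glue

/-!
Random parallelograms `c, c + u, c + v, c + u + v`, and the two by two grid obtained by gluing four
copies around the base point.
-/

set_option autoImplicit false

namespace Pool.Agent.Lib.MP_328240_co

open Finset

universe u

variable {G : Type u}

theorem exists_grid {Ω : Type u} [Fintype Ω] {P : Ω → ℝ} (hP : ∀ ω, 0 < P ω)
    (h1 : ∑ ω, P ω = 1) (c u v : Ω → G) :
    ∃ (Ω' : Type u) (_ : Fintype Ω') (Q : Ω' → ℝ) (d u1 u2 v1 v2 : Ω' → G),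
      (∀ x, 0 < Q x) ∧ ∑ x, Q x = 1 ∧
      Law Q (fun x => (d x, u1 x, v1 x)) P (fun ω => (c ω, u ω, v ω)) ∧
      Law Q (fun x => (d x, u2 x, v1 x)) P (fun ω => (c ω, u ω, v ω)) ∧
      Law Q (fun x => (d x, u1 x, v2 x)) P (fun ω => (c ω, u ω, v ω)) ∧
      Law Q (fun x => (d x, u2 x, v2 x)) P (fun ω => (c ω, u ω, v ω)) ∧
      Law Q (fun x => (d x, u1 x, u2 x, v1 x, v2 x)) Q (fun x => (d x, u2 x, u1 x, v1 x, v2 x)) ∧
      Law Q (fun x => (d x, u1 x, u2 x, v1 x, v2 x)) Q (fun x => (d x, u1 x, u2 x, v2 x, v1 x)) ∧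
      (∀ x, ∃ ω, d x = c ω ∧ u1 x = u ω ∧ v1 x = v ω) ∧
      (∀ x, ∃ ω, d x = c ω ∧ u2 x = u ω ∧ v1 x = v ω) ∧
      (∀ x, ∃ ω, d x = c ω ∧ u1 x = u ω ∧ v2 x = v ω) ∧
      (∀ x, ∃ ω, d x = c ω ∧ u2 x = u ω ∧ v2 x = v ω) ∧
      4 * H P (fun ω => (c ω, u ω, v ω)) - 2 * H P (fun ω => (c ω, v ω))
        - 2 * H P (fun ω => (c ω, u ω)) + H P c ≤
        H Q (fun x => (d x, u1 x, u2 x, v1 x, v2 x)) := by
  set Z1 : Ω → G × G := fun ω => (c ω, v ω) with hZ1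
  set P1 := gw P Z1 with hP1
  have p1 : ∀ x, 0 < P1 x := gw_pos hP Z1
  have s1 : ∑ x, P1 x = 1 := gw_sum hP h1 Z1
  set Z2 : Glue Z1 → G × G × G := fun x => (c x.1.1, u x.1.1, u x.1.2) with hZ2
  set Q := gw P1 Z2 with hQ
  have p2 : ∀ x, 0 < Q x := gw_pos p1 Z2
  have s2 : ∑ x, Q x = 1 := gw_sum p1 s1 Z2
  have g1 : ∀ x : Glue Z1, c x.1.1 = c x.1.2 ∧ v x.1.1 = v x.1.2 := fun x => by
    simpa [hZ1] using x.2
  have g2 : ∀ y : Glue Z2, c y.1.1.1.1 = c y.1.2.1.1 ∧ u y.1.1.1.1 = u y.1.2.1.1 ∧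
      u y.1.1.1.2 = u y.1.2.1.2 := fun y => by simpa [hZ2] using y.2
  have l11 : Law Q (fun y => y.1.1.1.1) P id :=
    ((law_fst p1 Z2).map fun x => x.1.1).trans (law_fst hP Z1)
  have l21 : Law Q (fun y => y.1.1.1.2) P id :=
    ((law_fst p1 Z2).map fun x => x.1.2).trans (law_snd hP Z1)
  have l12 : Law Q (fun y => y.1.2.1.1) P id :=
    ((law_snd p1 Z2).map fun x => x.1.1).trans (law_fst hP Z1)
  have l22 : Law Q (fun y => y.1.2.1.2) P id :=
    ((law_snd p1 Z2).map fun x => x.1.2).trans (law_snd hP Z1)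
  have he : ∀ a b : Glue Z1, Z2 (gswap Z1 a) = Z2 (gswap Z1 b) ↔ Z2 a = Z2 b := fun a b => by
    simp only [hZ2, gswap, Equiv.coe_fn_mk, Prod.mk.injEq, ← (g1 a).1, ← (g1 b).1]
    tauto
  refine ⟨Glue Z2, inferInstance, Q, fun y => c y.1.1.1.1, fun y => u y.1.1.1.1,
    fun y => u y.1.1.1.2, fun y => v y.1.1.1.1, fun y => v y.1.2.1.1, p2, s2, ?_, ?_, ?_, ?_, ?_,
    ?_, fun y => ⟨_, rfl, rfl, rfl⟩, fun y => ⟨y.1.1.1.2, (g1 _).1, rfl, (g1 _).2⟩,
    fun y => ⟨y.1.2.1.1, (g2 y).1, (g2 y).2.1, rfl⟩,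
    fun y => ⟨y.1.2.1.2, (g2 y).1.trans (g1 _).1, (g2 y).2.2, (g1 _).2⟩, ?_⟩
  · exact l11.map fun ω => (c ω, u ω, v ω)
  · have := l21.map fun ω => (c ω, u ω, v ω)
    convert this using 2 with y
    · exact Prod.ext (g1 _).1 (Prod.ext rfl (g1 _).2)
    · rfl
  · have := l12.map fun ω => (c ω, u ω, v ω)
    convert this using 2 with y
    · exact Prod.ext (g2 y).1 (Prod.ext (g2 y).2.1 rfl)
    · rfl
  · have := l22.map fun ω => (c ω, u ω, v ω)
    convert this using 2 with y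
    · exact Prod.ext ((g2 y).1.trans (g1 _).1) (Prod.ext (g2 y).2.2 (g1 _).2)
    · rfl
  · have := (law_of_equiv Q (gmap Z2 (gswap Z1) he) (gw_map P1 Z2 _ he (gw_swap P Z1))).map
      fun y => (c y.1.1.1.1, u y.1.1.1.1, u y.1.1.1.2, v y.1.1.1.1, v y.1.2.1.1)
    refine Law.symm ?_
    convert this using 2 with y
    · simp only [gmap, gswap, Equiv.coe_fn_mk]
      rw [(g1 y.1.1).1, (g1 y.1.1).2, (g1 y.1.2).2]
    · rfl
  · have := (law_of_equiv Q (gswap Z2) (gw_swap P1 Z2)).map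
      fun y => (c y.1.1.1.1, u y.1.1.1.1, u y.1.1.1.2, v y.1.1.1.1, v y.1.2.1.1)
    refine Law.symm ?_
    convert this using 2 with y
    · simp only [gswap, Equiv.coe_fn_mk]
      rw [(g2 y).1, (g2 y).2.1, (g2 y).2.2]
    · rfl
  · set f : Glue Z1 → G × G × G × G := fun x => (c x.1.1, u x.1.1, u x.1.2, v x.1.1) with hf
    set g : Ω → G × G × G := fun ω => (c ω, u ω, v ω) with hg
    have e1 := H_glue p1 Z2 f f (fun a b h => by simp only [hf, hZ2, Prod.mk.injEq] at h ⊢; tauto)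
      (fun a b h => by simp only [hf, hZ2, Prod.mk.injEq] at h ⊢; tauto)
    have e2 := H_glue hP Z1 g g (fun a b h => by simp only [hg, hZ1, Prod.mk.injEq] at h ⊢; tauto)
      (fun a b h => by simp only [hg, hZ1, Prod.mk.injEq] at h ⊢; tauto)
    have e3 : H Q (fun y => (f y.1.1, f y.1.2)) ≤ H Q (fun y => (c y.1.1.1.1, u y.1.1.1.1,
        u y.1.1.1.2, v y.1.1.1.1, v y.1.2.1.1)) :=
      H_le_of_det (fun x => (p2 x).le) _ _ fun a b _ _ h => by
        simp only [hf, Prod.mk.injEq, ← (g2 a).1, ← (g2 a).2.1, ← (g2 a).2.2, ← (g2 b).1,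
          ← (g2 b).2.1, ← (g2 b).2.2] at h ⊢
        tauto
    have e4 : H P1 (fun x => (g x.1.1, g x.1.2)) ≤ H P1 f :=
      H_le_of_det (fun x => (p1 x).le) _ _ fun a b _ _ h => by
        simp only [hf, hg, Prod.mk.injEq, ← (g1 a).1, ← (g1 a).2, ← (g1 b).1, ← (g1 b).2] at h ⊢
        tauto
    have e5 : H P1 (fun x => c x.1.1) + H P1 Z2 ≤ H P1 (fun x => (c x.1.1, u x.1.1)) +
        H P1 (fun x => (c x.1.2, u x.1.2)) :=
      submod (fun x => (p1 x).le) s1 _ _ _ _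
        (fun a b h => by simp only [Prod.mk.injEq] at h; exact h.1)
        (fun a b h => by
          simp only [Prod.mk.injEq] at h; rw [(g1 a).1, (g1 b).1]; exact h.1)
        (fun a b h h' => by simp only [hZ2, Prod.mk.injEq] at h h' ⊢; tauto)
    have e6 : H P1 (fun x => c x.1.1) = H P c := (law_fst hP Z1).H_eq c
    have e7 : H P1 (fun x => (c x.1.1, u x.1.1)) = H P (fun ω => (c ω, u ω)) :=
      (law_fst hP Z1).H_eq fun ω => (c ω, u ω)
    have e8 : H P1 (fun x => (c x.1.2, u x.1.2)) = H P (fun ω => (c ω, u ω)) :=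
      (law_snd hP Z1).H_eq fun ω => (c ω, u ω)
    linarith

variable [AddCommGroup G]

/-- The law of the parallelogram is invariant under its two reflections. -/
structure Sym {Ω : Type*} [Fintype Ω] (P : Ω → ℝ) (c u v : Ω → G) : Prop where
  s1 : Law P (fun ω => (c ω, u ω, v ω)) P (fun ω => (c ω + u ω, -u ω, v ω))
  s2 : Law P (fun ω => (c ω, u ω, v ω)) P (fun ω => (c ω + v ω, u ω, -v ω))

/-- The entropies attached to a symmetric parallelogram. -/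
structure Facts {Ω : Type*} [Fintype Ω] (P : Ω → ℝ) (c u v : Ω → G) (n A B q γ : ℝ) : Prop where
  n0 : H P c = n
  n1 : H P (fun ω => c ω + u ω) = n
  n2 : H P (fun ω => c ω + v ω) = n
  n3 : H P (fun ω => c ω + u ω + v ω) = n
  a0 : H P (fun ω => (c ω, u ω)) = A
  a1 : H P (fun ω => (c ω + v ω, u ω)) = A
  b0 : H P (fun ω => (c ω, v ω)) = B
  b1 : H P (fun ω => (c ω + u ω, v ω)) = B
  q0 : H P (fun ω => (c ω, u ω, v ω)) = q
  g0 : H P (fun ω => (c ω + u ω, c ω + v ω)) = γ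
  g1 : H P (fun ω => (c ω, c ω + u ω + v ω)) = γ

lemma Sym.facts {Ω : Type*} [Fintype Ω] {P : Ω → ℝ} {c u v : Ω → G} (h : Sym P c u v) :
    Facts P c u v (H P c) (H P (fun ω => (c ω, u ω))) (H P (fun ω => (c ω, v ω)))
      (H P (fun ω => (c ω, u ω, v ω))) (H P (fun ω => (c ω + u ω, c ω + v ω))) where
  n0 := rfl
  n1 := (h.s1.H_eq fun t => t.1).symm
  n2 := (h.s2.H_eq fun t => t.1).symm
  n3 := ((h.s2.H_eq fun t => t.1).trans (h.s1.H_eq fun t => t.1 + t.2.2)).symm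
  a0 := rfl
  a1 := (h.s2.H_eq fun t => (t.1, t.2.1)).symm
  b0 := rfl
  b1 := (h.s1.H_eq fun t => (t.1, t.2.2)).symm
  q0 := rfl
  g0 := rfl
  g1 := by
    have := h.s1.H_eq fun t => (t.1 + t.2.1, t.1 + t.2.2)
    simp only [add_neg_cancel_right] at this
    exact this.symm

lemma Facts.of_law {Ω Ω' : Type*} [Fintype Ω] [Fintype Ω'] {P : Ω → ℝ} {c u v : Ω → G}
    {Q : Ω' → ℝ} {d u' v' : Ω' → G} {n A B q γ : ℝ} (h : Facts P c u v n A B q γ)
    (l : Law Q (fun x => (d x, u' x, v' x)) P (fun ω => (c ω, u ω, v ω))) :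
    Facts Q d u' v' n A B q γ where
  n0 := (l.H_eq fun t => t.1).trans h.n0
  n1 := (l.H_eq fun t => t.1 + t.2.1).trans h.n1
  n2 := (l.H_eq fun t => t.1 + t.2.2).trans h.n2
  n3 := (l.H_eq fun t => t.1 + t.2.1 + t.2.2).trans h.n3
  a0 := (l.H_eq fun t => (t.1, t.2.1)).trans h.a0
  a1 := (l.H_eq fun t => (t.1 + t.2.2, t.2.1)).trans h.a1
  b0 := (l.H_eq fun t => (t.1, t.2.2)).trans h.b0
  b1 := (l.H_eq fun t => (t.1 + t.2.1, t.2.2)).trans h.b1
  q0 := (l.H_eq fun t => t).trans h.q0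
  g0 := (l.H_eq fun t => (t.1 + t.2.1, t.1 + t.2.2)).trans h.g0
  g1 := (l.H_eq fun t => (t.1, t.1 + t.2.1 + t.2.2)).trans h.g1

end Pool.Agent.Lib.MP_328240_co
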