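import Pool.Agent.Lib.MP_328240_co.H73Extract

/-!
The starting law on parallelograms, and the structure theorem for sets with many weighted
parallelograms.
-/

set_option autoImplicit false

namespace Pool.Agent.Lib.MP_328240_co

open Finset

universe u

variable {G : Type u} [AddCommGroup G]

open Classical in
/-- The number of representations of `y` as a difference. -/
noncomputable def rr (P : Finset G) (y : G) : ℕ := (P.filter fun p => p + y ∈ P).card

/-- The number of additive quadruples through `c`. -/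
noncomputable def nu (P : Finset G) (c : G) : ℕ := ∑ p ∈ P, rr P (p - c)

open Classical in
/-- Parallelograms `c, x, y, x + y - c` in `P` with `φ x = φ c`. -/
noncomputable def Sq (P : Finset G) (φ : G →+ ℤ) : Finset (G × G × G) :=
  (P ×ˢ P ×ˢ P).filter fun t => t.2.1 + t.2.2 - t.1 ∈ P ∧ φ t.2.1 = φ t.1

/-- Parallelograms weighted by the multiplicities of their two sides. -/
noncomputable def Xi (P : Finset G) (φ : G →+ ℤ) : ℕ :=
  ∑ t ∈ Sq P φ, rr P (t.2.1 - t.1) * rr P (t.2.2 - t.1)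

lemma mem_Sq {P : Finset G} {φ : G →+ ℤ} {t : G × G × G} : t ∈ Sq P φ ↔
    t.1 ∈ P ∧ t.2.1 ∈ P ∧ t.2.2 ∈ P ∧ t.2.1 + t.2.2 - t.1 ∈ P ∧ φ t.2.1 = φ t.1 := by
  simp only [Sq, Finset.mem_filter, Finset.mem_product]
  tauto

lemma rr_neg (P : Finset G) (y : G) : rr P (-y) = rr P y := by
  classical
  unfold rr
  refine Finset.card_bij (fun p _ => p + -y) (fun p hp => ?_) (fun p _ q _ h => by simpa using h)
    fun q hq => ⟨q + y, ?_, by simp⟩
  · simp only [Finset.mem_filter] at hp ⊢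
    exact ⟨hp.2, by simpa using hp.1⟩
  · simp only [Finset.mem_filter] at hq ⊢
    exact ⟨hq.2, by simpa using hq.1⟩

lemma rr_pos {P : Finset G} {c x : G} (hc : c ∈ P) (hx : x ∈ P) : 0 < rr P (x - c) := by
  classical
  exact Finset.card_pos.2 ⟨c, Finset.mem_filter.2 ⟨hc, by simpa using hx⟩⟩

lemma nu_pos {P : Finset G} {c : G} (hc : c ∈ P) : 0 < nu P c :=
  lt_of_lt_of_le (rr_pos hc hc) (Finset.single_le_sum (f := fun p => rr P (p - c))
    (fun _ _ => Nat.zero_le _) hc)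

lemma sum_rr_sq_le (P S : Finset G) : ∑ y ∈ S, rr P y ^ 2 ≤ ∑ c ∈ P, nu P c := by
  classical
  calc ∑ y ∈ S, rr P y ^ 2 = ∑ y ∈ S, ∑ c ∈ P, if c + y ∈ P then rr P y else 0 := by
        refine Finset.sum_congr rfl fun y _ => ?_
        rw [← Finset.sum_filter, Finset.sum_const, smul_eq_mul, sq]
        congr 1
    _ = ∑ c ∈ P, ∑ y ∈ S, if c + y ∈ P then rr P y else 0 := Finset.sum_comm
    _ ≤ _ := by
        refine Finset.sum_le_sum fun c _ => ?_
        rw [← Finset.sum_filter]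
        calc _ = ∑ p ∈ (S.filter fun y => c + y ∈ P).image (fun y => c + y), rr P (p - c) := by
              rw [Finset.sum_image fun a _ b _ h => by simpa using h]
              simp
          _ ≤ _ := Finset.sum_le_sum_of_subset fun p hp => by
              obtain ⟨y, hy, rfl⟩ := Finset.mem_image.1 hp
              exact (Finset.mem_filter.1 hy).2

theorem init (P0 : Finset G) (φ : G →+ ℤ) (hne : P0.Nonempty) :
    St P0 φ (Real.log (∑ c ∈ P0, nu P0 c ^ 2 : ℕ) - Real.log (Xi P0 φ))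
      (2 * Real.log (Xi P0 φ) - 3 * Real.log (∑ c ∈ P0, nu P0 c : ℕ)) 0 := by
  classical
  obtain ⟨p0, hp0⟩ := hne
  have hsq0 : (p0, p0, p0) ∈ Sq P0 φ := mem_Sq.2 ⟨hp0, hp0, hp0, by simpa using hp0, rfl⟩
  have hXi : (0 : ℝ) < Xi P0 φ := by
    have : 0 < Xi P0 φ := lt_of_lt_of_le (Nat.mul_pos (rr_pos hp0 hp0) (rr_pos hp0 hp0))
      (Finset.single_le_sum (f := fun t : G × G × G => rr P0 (t.2.1 - t.1) * rr P0 (t.2.2 - t.1))
        (fun _ _ => Nat.zero_le _) hsq0)
    exact_mod_cast this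
  have hE : (0 : ℝ) < (∑ c ∈ P0, nu P0 c : ℕ) := by
    exact_mod_cast Finset.sum_pos (fun c hc => nu_pos hc) ⟨p0, hp0⟩
  have hT : (0 : ℝ) < (∑ c ∈ P0, nu P0 c ^ 2 : ℕ) := by
    exact_mod_cast Finset.sum_pos (fun c hc => pow_pos (nu_pos hc) 2) ⟨p0, hp0⟩
  set E : ℝ := ((∑ c ∈ P0, nu P0 c : ℕ) : ℝ) with hEd
  set T : ℝ := ((∑ c ∈ P0, nu P0 c ^ 2 : ℕ) : ℝ) with hTd
  set X : ℝ := (Xi P0 φ : ℝ) with hXd
  set P : Sq P0 φ → ℝ := fun t => (rr P0 (t.1.2.1 - t.1.1) * rr P0 (t.1.2.2 - t.1.1)) / X with hPd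
  set c : Sq P0 φ → G := fun t => t.1.1 with hc
  set u : Sq P0 φ → G := fun t => t.1.2.1 - t.1.1 with hu
  set v : Sq P0 φ → G := fun t => t.1.2.2 - t.1.1 with hv
  have m1 : ∀ t : Sq P0 φ, t.1.1 ∈ P0 := fun t => (mem_Sq.1 t.2).1
  have m2 : ∀ t : Sq P0 φ, t.1.2.1 ∈ P0 := fun t => (mem_Sq.1 t.2).2.1
  have m3 : ∀ t : Sq P0 φ, t.1.2.2 ∈ P0 := fun t => (mem_Sq.1 t.2).2.2.1
  have m4 : ∀ t : Sq P0 φ, t.1.2.1 + t.1.2.2 - t.1.1 ∈ P0 := fun t => (mem_Sq.1 t.2).2.2.2.1
  have m5 : ∀ t : Sq P0 φ, φ t.1.2.1 = φ t.1.1 := fun t => (mem_Sq.1 t.2).2.2.2.2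
  have ru : ∀ t, (0 : ℝ) < rr P0 (u t) := fun t => by exact_mod_cast rr_pos (m1 t) (m2 t)
  have rv : ∀ t, (0 : ℝ) < rr P0 (v t) := fun t => by exact_mod_cast rr_pos (m1 t) (m3 t)
  have rz : ∀ t : Sq P0 φ, (0 : ℝ) < rr P0 (t.1.2.2 - t.1.2.1) := fun t => by
    exact_mod_cast rr_pos (m2 t) (m3 t)
  have rn : ∀ t, (0 : ℝ) < nu P0 (c t) := fun t => by exact_mod_cast nu_pos (m1 t)
  have hP : ∀ t, 0 < P t := fun t => div_pos (mul_pos (ru t) (rv t)) hXi
  have hP' : ∀ t, 0 ≤ P t := fun t => (hP t).le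
  have h1 : ∑ t, P t = 1 := by
    simp only [hPd]
    rw [← Finset.sum_div, div_eq_one_iff_eq hXi.ne', hXd, Xi, Finset.sum_coe_sort (Sq P0 φ)
      (fun t => (rr P0 (t.2.1 - t.1) : ℝ) * rr P0 (t.2.2 - t.1))]
    push_cast
    rfl
  let e1 : Sq P0 φ ≃ Sq P0 φ := Function.Involutive.toPerm
    (fun t => ⟨(t.1.2.1, t.1.1, t.1.2.1 + t.1.2.2 - t.1.1), mem_Sq.2 ⟨m2 t, m1 t, m4 t,
      by convert m3 t using 1; simp only; abel, (m5 t).symm⟩⟩)
    (fun t => Subtype.ext (Prod.ext rfl (Prod.ext rfl (by simp only; abel))))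
  let e2 : Sq P0 φ ≃ Sq P0 φ := Function.Involutive.toPerm
    (fun t => ⟨(t.1.2.2, t.1.2.1 + t.1.2.2 - t.1.1, t.1.1), mem_Sq.2 ⟨m3 t, m4 t, m1 t,
      by convert m2 t using 1; simp only; abel, by simp [m5 t]⟩⟩)
    (fun t => Subtype.ext (Prod.ext rfl (Prod.ext (by simp only; abel) rfl)))
  have he1 : ∀ t, P (e1 t) = P t := fun t => by
    simp only [hPd, e1, Function.Involutive.coe_toPerm]
    rw [← rr_neg P0 (t.1.1 - t.1.2.1), neg_sub,
      show t.1.2.1 + t.1.2.2 - t.1.1 - t.1.2.1 = t.1.2.2 - t.1.1 by abel]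
  have he2 : ∀ t, P (e2 t) = P t := fun t => by
    simp only [hPd, e2, Function.Involutive.coe_toPerm]
    rw [← rr_neg P0 (t.1.1 - t.1.2.2), neg_sub,
      show t.1.2.1 + t.1.2.2 - t.1.1 - t.1.2.2 = t.1.2.1 - t.1.1 by abel]
  set Lu := ∑ t, P t * Real.log (rr P0 (u t)) with hLu
  set Lv := ∑ t, P t * Real.log (rr P0 (v t)) with hLv
  set Lz := ∑ t : Sq P0 φ, P t * Real.log (rr P0 (t.1.2.2 - t.1.2.1)) with hLz
  set Ln := ∑ t, P t * Real.log (nu P0 (c t)) with hLn
  have cst : ∀ a : ℝ, ∑ t, P t * a = a := fun a => by rw [← Finset.sum_mul, h1, one_mul]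
  have ha : Real.log X - Lu - Lv ≤ H P (fun t => (c t, u t, v t)) := by
    refine le_trans (le_of_eq ?_) (le_H_inj hP' _ fun s t h => ?_)
    · rw [← cst (Real.log X), ← Finset.sum_sub_distrib, ← Finset.sum_sub_distrib]
      refine Finset.sum_congr rfl fun t _ => ?_
      have : Real.log (P t) = Real.log (rr P0 (u t)) + Real.log (rr P0 (v t)) - Real.log X := by
        rw [show P t = rr P0 (u t) * rr P0 (v t) / X from rfl,
          Real.log_div (mul_pos (ru t) (rv t)).ne' hXi.ne', Real.log_mul (ru t).ne' (rv t).ne']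
      rw [this]; ring
    · simp only [hc, hu, hv, Prod.mk.injEq] at h
      refine Subtype.ext (Prod.ext h.1 (Prod.ext ?_ ?_))
      · clear * - h; grind
      · clear * - h; grind
  have hb : ∀ x : Sq P0 φ → G, (∀ t, x t ∈ P0) → H P (fun t => (c t, x t - c t)) ≤
      H P c + Ln - ∑ t, P t * Real.log (rr P0 (x t - c t)) := fun x hx => by
    have := cond_gibbs_fin hP' h1 x c P0 hx (fun a b => rr P0 (a - b) / nu P0 b)
      (fun _ _ => by positivity)
      (fun b => by
        rw [← Finset.sum_div, ← Nat.cast_sum]; exact div_self_le_one _)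
      (fun t => div_pos (by exact_mod_cast rr_pos (m1 t) (hx t)) (rn t))
    have e : ∑ t, P t * -Real.log (rr P0 (x t - c t) / nu P0 (c t)) =
        Ln - ∑ t, P t * Real.log (rr P0 (x t - c t)) := by
      rw [← Finset.sum_sub_distrib]
      refine Finset.sum_congr rfl fun t _ => ?_
      rw [Real.log_div (by exact_mod_cast (rr_pos (m1 t) (hx t)).ne') (rn t).ne']; ring
    have e' : H P (fun t => (c t, x t - c t)) ≤ H P (fun t => (x t, c t)) :=
      H_le_of_det hP' _ _ (by intro x y _ _; simp only [Prod.mk.injEq]; clear * -; grind)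
    linarith
  have hb1 : H P (fun t => (c t, u t)) ≤ H P c + Ln - Lu := hb (fun t => t.1.2.1) m2
  have hb2 : H P (fun t => (c t, v t)) ≤ H P c + Ln - Lv := hb (fun t => t.1.2.2) m3
  have hd : H P c ≤ Real.log T - 2 * Ln := by
    have := gibbs_image hP' h1 c (fun a => (nu P0 a : ℝ) ^ 2 / T) (fun _ => by positivity) P0 m1
      (by rw [← Finset.sum_div, div_le_one hT, hTd]; push_cast; exact le_rfl)
      (fun t _ => div_pos (pow_pos (rn t) 2) hT)
    refine this.trans (le_of_eq ?_)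
    rw [← cst (Real.log T), Finset.mul_sum, ← Finset.sum_sub_distrib]
    refine Finset.sum_congr rfl fun t _ => ?_
    rw [Real.log_div (pow_pos (rn t) 2).ne' hT.ne', Real.log_pow]; push_cast; ring
  have he : H P (fun t => (c t, u t, v t)) ≤ H P (fun t => (u t, v t)) + Lz := by
    have := cond_gibbs_fin hP' h1 c (fun t => (u t, v t)) P0 m1
      (fun a b => if a + b.1 ∈ P0 ∧ a + b.2 ∈ P0 then 1 / rr P0 (b.2 - b.1) else 0)
      (fun _ _ => by split_ifs; exacts [by positivity, le_rfl])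
      (fun b => by
        rw [← Finset.sum_filter, Finset.sum_const, nsmul_eq_mul, mul_one_div]
        refine div_le_one_of_le₀ ?_ (Nat.cast_nonneg _)
        have : (P0.filter fun a => a + b.1 ∈ P0 ∧ a + b.2 ∈ P0).card ≤ rr P0 (b.2 - b.1) := by
          unfold rr
          refine Finset.card_le_card_of_injOn (fun a => a + b.1) (fun a ha => ?_)
            fun a _ a' _ h => by simpa using h
          simp only [Finset.coe_filter, Set.mem_ofPred_eq] at ha ⊢
          exact ⟨ha.2.1, by convert ha.2.2 using 1; abel⟩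
        exact_mod_cast this)
      (fun t => by
        have := rz t
        simp only [hc, hu, hv, add_sub_cancel, m2 t, m3 t, and_self, if_true, sub_sub_sub_cancel_right]
        positivity)
    refine this.trans (le_of_eq ?_)
    congr 1
    refine Finset.sum_congr rfl fun t _ => ?_
    simp only [hc, hu, hv, add_sub_cancel, m2 t, m3 t, and_self, if_true, sub_sub_sub_cancel_right,
      one_div, Real.log_inv, neg_neg]
  have hf : ∀ y : Sq P0 φ → G, (∀ t, (0 : ℝ) < rr P0 (y t)) →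
      H P y ≤ Real.log E - 2 * ∑ t, P t * Real.log (rr P0 (y t)) := fun y hy => by
    have := gibbs_image hP' h1 y (fun a => (rr P0 a : ℝ) ^ 2 / E) (fun _ => by positivity)
      (Finset.univ.image y) (fun t => Finset.mem_image_of_mem _ (Finset.mem_univ t))
      (by
        rw [← Finset.sum_div, div_le_one hE, hEd]
        exact_mod_cast sum_rr_sq_le P0 _)
      (fun t _ => div_pos (pow_pos (hy t) 2) hE)
    refine this.trans (le_of_eq ?_)
    rw [← cst (Real.log E), Finset.mul_sum, ← Finset.sum_sub_distrib]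
    refine Finset.sum_congr rfl fun t _ => ?_
    rw [Real.log_div (pow_pos (hy t) 2).ne' hE.ne', Real.log_pow]; push_cast; ring
  have hf1 := hf u ru
  have hf2 := hf v rv
  have hf3 : H P (fun _ => ()) + H P (fun t => (u t, v t)) ≤ H P u + H P v :=
    submod hP' h1 _ _ _ _ (fun _ _ _ => rfl) (fun _ _ _ => rfl)
      (fun _ _ h h' => Prod.ext h h')
  rw [H_const h1] at hf3
  have hg : H P (fun t => (c t + u t, c t + v t)) ≤ Real.log E - Lz := by
    have := gibbs_image hP' h1 (fun t => (c t + u t, c t + v t))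
      (fun a => (rr P0 (a.2 - a.1) : ℝ) / E) (fun _ => by positivity) (P0 ×ˢ P0)
      (fun t => by simp [hc, hu, hv, m2 t, m3 t])
      (by
        rw [← Finset.sum_div, div_le_one hE, hEd, Finset.sum_product]
        push_cast [nu]
        exact le_rfl)
      (fun t _ => by simpa [hc, hu, hv] using div_pos (rz t) hE)
    refine this.trans (le_of_eq ?_)
    rw [← cst (Real.log E), ← Finset.sum_sub_distrib]
    refine Finset.sum_congr rfl fun t _ => ?_
    simp only [hc, hu, hv, add_sub_cancel]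
    rw [Real.log_div (rz t).ne' hE.ne']; ring
  have hz1 : H P c ≤ H P (fun t => (c t, u t)) :=
    H_le_of_det hP' _ _ fun _ _ _ _ h => (Prod.mk.inj h).1
  have hz2 : H P c ≤ H P (fun t => (c t, v t)) :=
    H_le_of_det hP' _ _ fun _ _ _ _ h => (Prod.mk.inj h).1
  refine ⟨Sq P0 φ, inferInstance, P, c, u, v, hP, h1, fun t => ⟨m1 t, ?_, ?_, ?_, ?_⟩, ⟨?_, ?_⟩,
    by linarith, by linarith, by linarith⟩
  · simpa [hc, hu] using m2 t
  · simpa [hc, hv] using m3 t
  · convert m4 t using 1; simp only [hc, hu, hv]; abel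
  · simp [hu, m5 t]
  · have := ((law_of_equiv P e1 he1).map fun t => (c t, u t, v t)).symm
    convert this using 2 with t
    · rfl
    · simp only [hc, hu, hv, e1, Function.Involutive.coe_toPerm]
      refine Prod.ext ?_ (Prod.ext ?_ ?_) <;> simp only <;> abel
  · have := ((law_of_equiv P e2 he2).map fun t => (c t, u t, v t)).symm
    convert this using 2 with t
    · rfl
    · simp only [hc, hu, hv, e2, Function.Involutive.coe_toPerm]
      refine Prod.ext ?_ (Prod.ext ?_ ?_) <;> simp only <;> abel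

theorem commuting (ε : ℝ) (hε : 0 < ε) : ∃ C : ℝ, 0 ≤ C ∧ ∀ (G : Type u) [AddCommGroup G]
    (P0 : Finset G) (φ : G →+ ℤ), P0.Nonempty → ∀ k : ℝ,
    Real.log (∑ c ∈ P0, nu P0 c ^ 2 : ℕ) - Real.log (Xi P0 φ) ≤ k →
    ∃ S ⊆ P0, S.Nonempty ∧ (∃ t, ∀ y ∈ S, φ y = t) ∧
      Real.log (∑ c ∈ P0, nu P0 c : ℕ) - 2 * Real.log P0.card - C * (k + 1)
        - ε * Real.log P0.card ≤ Real.log S.card ∧
      3 * Real.log S.card - C * (k + 1) - ε * Real.log P0.card ≤ Real.log (Q4 S) := by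
  set δ := min 1 (ε / 24) with hδ
  have hδ0 : 0 < δ := lt_min one_pos (by positivity)
  have hδ1 : δ ≤ 1 := min_le_left _ _
  have hδ2 : 24 * δ ≤ ε := by have := min_le_right 1 (ε / 24); linarith
  set j0 := ⌈5 / 2 / δ ^ 2⌉₊ with hj0
  set c0 := -Real.log (δ ^ 2) with hc0
  have hδsq : δ ^ 2 ≤ δ := by nlinarith
  have hδsq0 : 0 < δ ^ 2 := by positivity
  have hc00 : 0 ≤ c0 := by
    simp only [hc0, neg_nonneg]; exact Real.log_nonpos hδsq0.le (hδsq.trans hδ1)
  set K0 : ℝ := 4 ^ j0 with hK0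
  have hK1 : 1 ≤ K0 := one_le_pow₀ (by norm_num)
  set c1 := 12 + 4 * c0 + 14 * K0 with hc1
  have hc10 : 0 ≤ c1 := by positivity
  have hl4 : 0 ≤ Real.log 4 := Real.log_nonneg (by norm_num)
  refine ⟨12 + 3 * K0 + c0 + c1 / δ + 4 * c1 + 3 * Real.log 4, by positivity, ?_⟩
  intro G _ P0 φ hne k hk
  have hN : (1 : ℝ) ≤ P0.card := by exact_mod_cast hne.card_pos
  set n := Real.log P0.card with hn
  have hn0 : 0 ≤ n := Real.log_nonneg hN
  have st := init P0 φ hne
  have hk0 := st.k_nonneg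
  set k0 := Real.log (∑ c ∈ P0, nu P0 c ^ 2 : ℕ) - Real.log (Xi P0 φ) with hk0d
  have hkk : 0 ≤ k := hk0.trans hk
  have t1 := St.iter (η := δ ^ 2 * (n + 1)) (by positivity) j0 st (by
    have : 5 / 2 / δ ^ 2 ≤ j0 := Nat.le_ceil _
    rw [div_le_iff₀ hδsq0] at this
    nlinarith)
  set J := ⌈n⌉₊ + 1 with hJ
  have hJ1 : n ≤ J := by push_cast [hJ]; linarith [Nat.le_ceil n]
  have hJ2 : (J : ℝ) ≤ n + 2 := by push_cast [hJ]; linarith [Nat.ceil_lt_add_one hn0]
  have hJ0 : (1 : ℝ) ≤ J := by exact_mod_cast Nat.le_add_left 1 _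
  obtain ⟨S, hS, hSne, hφ, r1, r2⟩ := t1.extract J (Nat.le_add_left 1 _) hJ1 (1 / δ)
    (by positivity)
  refine ⟨S, hS, hSne, hφ, ?_, ?_⟩
  all_goals
    have hlJ0 : 0 ≤ Real.log J := Real.log_nonneg hJ0
    have hlJ : Real.log J ≤ δ ^ 2 * (n + 2) + c0 := by
      have := Real.log_le_sub_one_of_pos (show 0 < δ ^ 2 * J by positivity)
      rw [Real.log_mul hδsq0.ne' (by positivity)] at this
      nlinarith
    have hD1 : δ ^ 2 * (n + 1) + 14 * K0 * k0 + 3 + 4 * Real.log J ≤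
        5 * δ ^ 2 * n + c1 * (k + 1) := by
      have : K0 * k0 ≤ K0 * k := mul_le_mul_of_nonneg_left hk (by positivity)
      have : 0 ≤ c0 * k := by positivity
      simp only [hc1]
      nlinarith
    have hJl : (J : ℝ) / (1 / δ) ≤ δ * n + 2 := by
      rw [div_div_eq_mul_div, div_one]; nlinarith
    have hdn : δ ^ 2 * n ≤ δ * n := mul_le_mul_of_nonneg_right hδsq hn0
    have hen : 24 * (δ * n) ≤ ε * n := by nlinarith
    have hdn0 : 0 ≤ δ * n := by positivity
    have p1 : 0 ≤ c1 * (k + 1) := by positivity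
    have p2 : 0 ≤ c1 / δ * (k + 1) := by positivity
    have p3 : 0 ≤ K0 * k := by positivity
    have p4 : 0 ≤ c0 * k := by positivity
    have p5 : 0 ≤ Real.log 4 * k := by positivity
  · have hD2 : 1 / δ * (δ ^ 2 * (n + 1) + 14 * K0 * k0 + 3 + 4 * Real.log J) ≤
        5 * (δ * n) + c1 / δ * (k + 1) := by
      refine (mul_le_mul_of_nonneg_left hD1 (by positivity)).trans (le_of_eq ?_)
      field_simp
    have hTE : 2 * Real.log (∑ c ∈ P0, nu P0 c : ℕ) ≤ n + Real.log (∑ c ∈ P0, nu P0 c ^ 2 : ℕ) := by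
      have hE : (0 : ℝ) < (∑ c ∈ P0, nu P0 c : ℕ) := by
        exact_mod_cast Finset.sum_pos (fun c hc => nu_pos hc) hne
      have hT : (0 : ℝ) < (∑ c ∈ P0, nu P0 c ^ 2 : ℕ) := by
        exact_mod_cast Finset.sum_pos (fun c hc => pow_pos (nu_pos hc) 2) hne
      rw [hn, ← Real.log_mul (by positivity) hT.ne', show (2 : ℝ) = (2 : ℕ) by norm_num,
        ← Real.log_pow]
      refine Real.log_le_log (by positivity) ?_
      exact_mod_cast sq_sum_le_card_mul_sum_sq (s := P0) (f := nu P0)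
    have : K0 * k0 ≤ K0 * k := mul_le_mul_of_nonneg_left hk (by positivity)
    have hd2 : δ ^ 2 ≤ 1 := hδsq.trans hδ1
    nlinarith
  · nlinarith

end Pool.Agent.Lib.MP_328240_co
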