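import Pool.Agent.Lib.MP_328240_co.H73Count

/-!
The two-layer set `A × {0} ∪ (-A) × {1}` in `G × ℤ`.
-/

set_option autoImplicit false

namespace Pool.Agent.Lib.MP_328240_co

open Finset

universe u

variable {G : Type u} [AddCommGroup G]

open Classical in
/-- The two-layer set. -/
noncomputable def lift (A : Finset G) : Finset (G × ℤ) :=
  A.image (fun a => (a, 0)) ∪ A.image (fun a => (-a, 1))

/-- The element of `A` under a point of the two-layer set. -/
def und (x : G × ℤ) : G := if x.2 = 0 then x.1 else -x.1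

lemma mem_lift {A : Finset G} {x : G × ℤ} :
    x ∈ lift A ↔ (x.2 = 0 ∧ x.1 ∈ A) ∨ (x.2 = 1 ∧ -x.1 ∈ A) := by
  obtain ⟨a, t⟩ := x
  simp only [lift, Finset.mem_union, Finset.mem_image, Prod.mk.injEq]
  constructor
  · rintro (⟨b, hb, rfl, rfl⟩ | ⟨b, hb, rfl, rfl⟩)
    · exact Or.inl ⟨rfl, hb⟩
    · exact Or.inr ⟨rfl, by simpa using hb⟩
  · rintro (⟨rfl, h⟩ | ⟨rfl, h⟩)
    · exact Or.inl ⟨a, h, rfl, rfl⟩
    · exact Or.inr ⟨-a, h, by simp, rfl⟩

lemma card_lift_le (A : Finset G) : (lift A).card ≤ 2 * A.card := by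
  classical
  unfold lift
  refine (Finset.card_union_le _ _).trans ?_
  have h1 := Finset.card_image_le (s := A) (f := fun a => ((a, 0) : G × ℤ))
  have h2 := Finset.card_image_le (s := A) (f := fun a => ((-a, 1) : G × ℤ))
  rw [two_mul]
  convert Nat.add_le_add h1 h2

lemma energy_le_lift (A : Finset G) : energy 2 A ≤ energy 2 (lift A) := by
  refine Finset.card_le_card_of_injOn (fun s => (fun i => (s.1 i, 0), fun i => (s.2 i, 0)))
    (fun s hs => ?_) fun s _ t _ h => ?_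
  · obtain ⟨h1, h2, h3⟩ := mem_sols.1 hs
    refine mem_sols.2 ⟨fun i => mem_lift.2 (Or.inl ⟨rfl, h1 i⟩),
      fun i => mem_lift.2 (Or.inl ⟨rfl, h2 i⟩), ?_⟩
    simp only [Fin.sum_univ_two] at h3 ⊢
    simp [h3]
  · simp only [Prod.mk.injEq, funext_iff, and_true] at h
    exact Prod.ext (funext h.1) (funext h.2)

lemma nu_lift_le (A : Finset G) {c : G × ℤ} (hc : c ∈ lift A) :
    nu (lift A) c ≤ 4 * nu A (und c) := by
  rw [← card_Nu, ← card_Nu, show 4 = (({0, 1} : Finset ℤ) ×ˢ ({0, 1} : Finset ℤ)).card by simp,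
    ← Finset.card_product]
  refine Finset.card_le_card_of_injOn (fun x => ((x.1.2, x.2.2),
    if x.1.2 = x.2.2 then (und x.1, und x.2) else if x.1.2 = c.2 then
      (und x.1, und (x.2 + (x.1 - c))) else (und x.2, und (x.2 + (x.1 - c)))))
    (fun x hx => ?_) fun x hx y hy h => ?_
  · obtain ⟨⟨p, s⟩, ⟨q, t⟩⟩ := x
    obtain ⟨c, r⟩ := c
    obtain ⟨h1, h2, h3⟩ := mem_Nu.1 hx
    simp only [mem_lift] at h1 h2 h3 hc
    refine Finset.mem_product.2 ⟨?_, mem_Nu.2 ?_⟩
    · rcases h1 with ⟨rfl, h1⟩ | ⟨rfl, h1⟩ <;> rcases h2 with ⟨rfl, h2⟩ | ⟨rfl, h2⟩ <;> simp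
    · rcases h1 with ⟨rfl, h1⟩ | ⟨rfl, h1⟩ <;> rcases h2 with ⟨rfl, h2⟩ | ⟨rfl, h2⟩ <;>
        rcases hc with ⟨rfl, hc⟩ | ⟨rfl, hc⟩ <;> rcases h3 with ⟨e, h3⟩ | ⟨e, h3⟩ <;>
        simp [und] at e h3 ⊢ <;> refine ⟨by assumption, by assumption, ?_⟩ <;>
        first
          | assumption
          | (convert h1 using 1; abel1)
          | (convert h2 using 1; abel1)
          | (convert h3 using 1; abel1)
  · obtain ⟨⟨p, s⟩, ⟨q, t⟩⟩ := x
    obtain ⟨⟨p', s'⟩, ⟨q', t'⟩⟩ := y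
    obtain ⟨c, r⟩ := c
    obtain ⟨h1, h2, h3⟩ := mem_Nu.1 hx
    simp only [mem_lift] at h1 h2 h3 hc
    simp only [Prod.mk.injEq] at h
    obtain ⟨⟨rfl, rfl⟩, h⟩ := h
    rcases h1 with ⟨rfl, h1⟩ | ⟨rfl, h1⟩ <;> rcases h2 with ⟨rfl, h2⟩ | ⟨rfl, h2⟩ <;>
        rcases hc with ⟨rfl, hc⟩ | ⟨rfl, hc⟩ <;> rcases h3 with ⟨e, h3⟩ | ⟨e, h3⟩ <;>
        simp [und] at e h ⊢ <;> clear * - h <;> grind

lemma sum_nu_sq_lift (A : Finset G) :
    ∑ c ∈ lift A, nu (lift A) c ^ 2 ≤ 32 * ∑ c ∈ A, nu A c ^ 2 := by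
  classical
  calc _ ≤ ∑ c ∈ lift A, 16 * nu A (und c) ^ 2 := Finset.sum_le_sum fun c hc => by
        have := Nat.pow_le_pow_left (nu_lift_le A hc) 2
        rwa [mul_pow] at this
    _ ≤ ∑ c ∈ A.image (fun a => ((a, 0) : G × ℤ)), 16 * nu A (und c) ^ 2 +
        ∑ c ∈ A.image (fun a => ((-a, 1) : G × ℤ)), 16 * nu A (und c) ^ 2 := by
        rw [← Finset.sum_union_inter]
        refine le_trans (le_of_eq ?_) (Nat.le_add_right _ _)
        unfold lift
        congr
    _ = _ := by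
        rw [Finset.sum_image fun a _ b _ h => by simpa using h,
          Finset.sum_image fun a _ b _ h => by simpa using h, ← Finset.mul_sum, ← Finset.mul_sum]
        simp [und]
        ring

open Classical in
lemma Xi_eq (P : Finset G) (φ : G →+ ℤ) : Xi P φ = ((Sq P φ).sigma fun t =>
    (P.filter fun p => p + (t.2.1 - t.1) ∈ P) ×ˢ (P.filter fun p => p + (t.2.2 - t.1) ∈ P)).card := by
  rw [Finset.card_sigma]
  exact Finset.sum_congr rfl fun t _ => by rw [Finset.card_product]; rfl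

open Classical in
lemma base_le_Xi (A : Finset G) : ((sols 3 A).filter fun s =>
    mid s 0 0 ∈ A ∧ (mid s 1 1 ∈ A ∨ mid s 0 1 ∈ A ∨ mid s 1 0 ∈ A)).card ≤
      3 * Xi (lift A) (AddMonoidHom.snd G ℤ) := by
  have h1 : ((sols 3 A).filter fun s => mid s 0 0 ∈ A ∧ mid s 1 1 ∈ A).card ≤
      Xi (lift A) (AddMonoidHom.snd G ℤ) := by
    rw [Xi_eq]
    refine Finset.card_le_card_of_injOn (fun s => ⟨((mid s 0 0, 0), (s.1 2, 0), (s.2 2, 0)),
      ((s.1 1, 0), (s.2 1, 0))⟩) (fun s hs => ?_) fun s hs t ht h => ?_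
    · obtain ⟨hs, m1, m2⟩ := Finset.mem_filter.1 hs
      obtain ⟨a, b, e⟩ := mem_sols.1 hs
      simp only [mid, Fin.sum_univ_three] at e m1 m2
      simp only [Finset.coe_sigma, Set.mem_sigma_iff, Finset.mem_coe, mem_Sq, mem_lift, mid,
        Finset.mem_product, Finset.mem_filter, Fin.sum_univ_three]
      simp only [Prod.mk_add_mk, Prod.mk_sub_mk, add_zero, sub_zero, true_and, zero_ne_one,
        false_and, or_false, AddMonoidHom.coe_snd, and_true]
      refine ⟨⟨m1, a 2, b 2, ?_⟩, ⟨a 1, ?_⟩, b 1, ?_⟩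
      · convert m2 using 1; clear * - e; grind
      · convert b 0 using 1; clear * - e; grind
      · convert a 0 using 1; clear * - e; grind
    · have a := (mem_sols.1 (Finset.mem_filter.1 hs).1).2.2
      have b := (mem_sols.1 (Finset.mem_filter.1 ht).1).2.2
      simp only [mid, Fin.sum_univ_three, Sigma.mk.injEq, heq_eq_eq, Prod.mk.injEq] at a b h
      refine Prod.ext (funext fun i => ?_) (funext fun i => ?_) <;> fin_cases i <;>
        simp only [Fin.zero_eta, Fin.mk_one, Fin.reduceFinMk, Fin.isValue] <;>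
        clear * - a b h <;> grind
  have h2 : ((sols 3 A).filter fun s => mid s 0 0 ∈ A ∧ mid s 0 1 ∈ A).card ≤
      Xi (lift A) (AddMonoidHom.snd G ℤ) := by
    rw [Xi_eq]
    refine Finset.card_le_card_of_injOn (fun s => ⟨((mid s 0 0, 0), (s.2 1, 0), (-s.2 0, 1)),
      ((s.2 2, 0), (s.1 1, 0))⟩) (fun s hs => ?_) fun s hs t ht h => ?_
    · obtain ⟨hs, m1, m2⟩ := Finset.mem_filter.1 hs
      obtain ⟨a, b, e⟩ := mem_sols.1 hs
      simp only [mid, Fin.sum_univ_three] at e m1 m2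
      simp only [Finset.coe_sigma, Set.mem_sigma_iff, Finset.mem_coe, mem_Sq, mem_lift, mid,
        Finset.mem_product, Finset.mem_filter, Fin.sum_univ_three]
      simp only [Prod.mk_add_mk, Prod.mk_sub_mk, add_zero, sub_zero, true_and, zero_ne_one,
        false_and, or_false, AddMonoidHom.coe_snd, and_true, zero_add, one_ne_zero, false_or,
        neg_neg]
      refine ⟨⟨m1, b 1, b 0, ?_⟩, ⟨b 2, ?_⟩, a 1, ?_⟩
      · convert m2 using 1; clear * - e; grind
      · convert a 0 using 1; clear * - e; grind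
      · convert a 2 using 1; clear * - e; grind
    · have a := (mem_sols.1 (Finset.mem_filter.1 hs).1).2.2
      have b := (mem_sols.1 (Finset.mem_filter.1 ht).1).2.2
      simp only [mid, Fin.sum_univ_three, Sigma.mk.injEq, heq_eq_eq, Prod.mk.injEq] at a b h
      refine Prod.ext (funext fun i => ?_) (funext fun i => ?_) <;> fin_cases i <;>
        simp only [Fin.zero_eta, Fin.mk_one, Fin.reduceFinMk, Fin.isValue] <;>
        clear * - a b h <;> grind
  have h3 : ((sols 3 A).filter fun s => mid s 0 0 ∈ A ∧ mid s 1 0 ∈ A).card ≤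
      Xi (lift A) (AddMonoidHom.snd G ℤ) := by
    rw [Xi_eq]
    refine Finset.card_le_card_of_injOn (fun s => ⟨((mid s 0 0, 0), (s.1 1, 0), (-s.1 0, 1)),
      ((s.1 2, 0), (s.2 1, 0))⟩) (fun s hs => ?_) fun s hs t ht h => ?_
    · obtain ⟨hs, m1, m2⟩ := Finset.mem_filter.1 hs
      obtain ⟨a, b, e⟩ := mem_sols.1 hs
      simp only [mid, Fin.sum_univ_three] at e m1 m2
      simp only [Finset.coe_sigma, Set.mem_sigma_iff, Finset.mem_coe, mem_Sq, mem_lift, mid,
        Finset.mem_product, Finset.mem_filter, Fin.sum_univ_three]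
      simp only [Prod.mk_add_mk, Prod.mk_sub_mk, add_zero, sub_zero, true_and, zero_ne_one,
        false_and, or_false, AddMonoidHom.coe_snd, and_true, zero_add, one_ne_zero, false_or,
        neg_neg]
      refine ⟨⟨m1, a 1, a 0, ?_⟩, ⟨a 2, ?_⟩, b 1, ?_⟩
      · convert m2 using 1; clear * - e; grind
      · convert b 0 using 1; clear * - e; grind
      · convert b 2 using 1; clear * - e; grind
    · have a := (mem_sols.1 (Finset.mem_filter.1 hs).1).2.2
      have b := (mem_sols.1 (Finset.mem_filter.1 ht).1).2.2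
      simp only [mid, Fin.sum_univ_three, Sigma.mk.injEq, heq_eq_eq, Prod.mk.injEq] at a b h
      refine Prod.ext (funext fun i => ?_) (funext fun i => ?_) <;> fin_cases i <;>
        simp only [Fin.zero_eta, Fin.mk_one, Fin.reduceFinMk, Fin.isValue] <;>
        clear * - a b h <;> grind
  calc _ ≤ (((sols 3 A).filter fun s => mid s 0 0 ∈ A ∧ mid s 1 1 ∈ A) ∪
        ((sols 3 A).filter fun s => mid s 0 0 ∈ A ∧ mid s 0 1 ∈ A) ∪
        ((sols 3 A).filter fun s => mid s 0 0 ∈ A ∧ mid s 1 0 ∈ A)).card :=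
        Finset.card_le_card fun s hs => by
          simp only [Finset.mem_filter, Finset.mem_union] at hs ⊢
          tauto
    _ ≤ _ := by
        refine (Finset.card_union_le _ _).trans ((Nat.add_le_add_right (Finset.card_union_le _ _)
          _).trans ?_)
        omega

lemma unlift {A : Finset G} {S : Finset (G × ℤ)} (hS : S ⊆ lift A) {t : ℤ}
    (ht : ∀ y ∈ S, y.2 = t) : ∃ H ⊆ A, H.card = S.card ∧ Q4 S ≤ Q4 H := by
  classical
  have hinj : Set.InjOn (und : G × ℤ → G) S := fun x hx y hy h => by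
    have e := (ht x hx).trans (ht y hy).symm
    simp only [und, e] at h
    refine Prod.ext ?_ e
    split_ifs at h
    · exact h
    · simpa using h
  refine ⟨S.image und, fun a ha => ?_, Finset.card_image_of_injOn hinj, ?_⟩
  · obtain ⟨y, hy, rfl⟩ := Finset.mem_image.1 ha
    rcases mem_lift.1 (hS hy) with ⟨e, h⟩ | ⟨e, h⟩ <;> simpa [und, e] using h
  · unfold Q4
    refine Finset.card_le_card_of_injOn (fun y => (und y.1, und y.2.1, und y.2.2.1, und y.2.2.2))
      (fun y hy => ?_) fun y hy y' hy' h => ?_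
    · simp only [Finset.coe_filter, Finset.mem_product, Set.mem_ofPred_eq] at hy ⊢
      obtain ⟨⟨h1, h2, h3, h4⟩, h5⟩ := hy
      refine ⟨⟨Finset.mem_image_of_mem _ h1, Finset.mem_image_of_mem _ h2,
        Finset.mem_image_of_mem _ h3, Finset.mem_image_of_mem _ h4⟩, ?_⟩
      have h6 := congrArg Prod.fst h5
      simp only [und, ht _ h1, ht _ h2, ht _ h3, ht _ h4, Prod.fst_sub] at h6 ⊢
      split_ifs
      · exact h6
      · clear * - h6; grind
    · simp only [Finset.coe_filter, Finset.mem_product, Set.mem_ofPred_eq, Prod.mk.injEq] at hy hy' h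
      exact Prod.ext (hinj hy.1.1 hy'.1.1 h.1) (Prod.ext (hinj hy.1.2.1 hy'.1.2.1 h.2.1)
        (Prod.ext (hinj hy.1.2.2.1 hy'.1.2.2.1 h.2.2.1) (hinj hy.1.2.2.2 hy'.1.2.2.2 h.2.2.2)))

end Pool.Agent.Lib.MP_328240_co
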