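import Pool.Agent.Lib.MP_328240_co.H73Layer

/-!
The structure theorem under the two-middles condition, and the case `K < 3` of the question for
`E_6` against `E_4`.
-/

set_option autoImplicit false

namespace Pool.Agent.Lib.MP_328240_co

open Finset

universe u

section
variable {G : Type u} [AddCommGroup G]

lemma energy_two_le (A : Finset G) : energy 2 A ≤ A.card ^ 3 := by
  rw [energy_two]
  calc _ ≤ ∑ _c ∈ A, A.card * A.card := Finset.sum_le_sum fun c _ => nu_le A c
    _ = _ := by rw [Finset.sum_const, smul_eq_mul]; ring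

lemma le_energy_two (A : Finset G) : A.card ^ 2 ≤ energy 2 A := by
  rw [energy_two]
  calc A.card ^ 2 = ∑ _c ∈ A, A.card := by rw [Finset.sum_const, smul_eq_mul]; ring
    _ ≤ _ := Finset.sum_le_sum fun c hc => le_nu A hc

lemma energy_sq_le (A : Finset G) : energy 2 A ^ 2 ≤ A.card * ∑ c ∈ A, nu A c ^ 2 := by
  rw [energy_two]
  exact sq_sum_le_card_mul_sum_sq (s := A) (f := nu A)

lemma rho_two_le (A : Finset G) (hA : A.Nonempty) : rho 2 A ≤ A.card := by
  have hN : (0 : ℝ) < A.card := by exact_mod_cast hA.card_pos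
  unfold rho
  rw [div_le_iff₀ (by positivity)]
  have : (energy 2 A : ℝ) ≤ (A.card : ℝ) ^ 3 := by exact_mod_cast energy_two_le A
  nlinarith

lemma one_le_rho_two (A : Finset G) (hA : A.Nonempty) : 1 ≤ rho 2 A := by
  have hN : (0 : ℝ) < A.card := by exact_mod_cast hA.card_pos
  unfold rho
  rw [le_div_iff₀ (by positivity), one_mul]
  exact_mod_cast le_energy_two A

end

theorem two_middles (ε : ℝ) (hε : 0 < ε) : ∃ c : ℝ, 0 < c ∧ ∀ (G : Type u) [AddCommGroup G]
    (A : Finset G), A.Nonempty → ∀ θ : ℝ, 0 < θ → θ * mids A 1 ≤ mids A 2 →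
    ∃ H ⊆ A, rho 2 A ≤ H.card ∧
      (H.card : ℝ) ^ 3 ≤ (A.card : ℝ) ^ ε * (2 / θ) ^ c * energy 2 H := by
  obtain ⟨C, hC, hcom⟩ := commuting.{u} (ε / 4) (by positivity)
  refine ⟨10 + ε + 56 * C, by positivity, ?_⟩
  intro G _ A hA θ hθ hmid
  classical
  have hN : (1 : ℝ) ≤ A.card := by exact_mod_cast hA.card_pos
  have hTA : 0 < ∑ c ∈ A, nu A c ^ 2 := Finset.sum_pos (fun c hc => pow_pos (nu_pos hc) 2) hA
  have hm1 : (0 : ℝ) < mids A 1 := by exact_mod_cast hTA.trans_le (sum_nu_sq_le_mids A)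
  have hθ1 : θ ≤ 1 := by
    have : (mids A 2 : ℝ) ≤ mids A 1 := by exact_mod_cast mids_anti A
    nlinarith
  obtain ⟨a0, ha0⟩ := id hA
  have hP : (lift A).Nonempty := ⟨(a0, 0), mem_lift.2 (Or.inl ⟨rfl, ha0⟩)⟩
  set φ := AddMonoidHom.snd G ℤ with hφ
  have hX : (mids A 2 : ℝ) ≤ 108 * Xi (lift A) φ := by
    have := (mids_two_le A).trans (Nat.mul_le_mul_left 36 (base_le_Xi A))
    rw [← mul_assoc] at this
    exact_mod_cast this
  have hT : ((∑ c ∈ lift A, nu (lift A) c ^ 2 : ℕ) : ℝ) ≤ 32 * mids A 1 := by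
    exact_mod_cast (sum_nu_sq_lift A).trans (Nat.mul_le_mul_left 32 (sum_nu_sq_le_mids A))
  have hT0 : (0 : ℝ) < ((∑ c ∈ lift A, nu (lift A) c ^ 2 : ℕ) : ℝ) := by
    exact_mod_cast Finset.sum_pos (fun c hc => pow_pos (nu_pos hc) 2) hP
  have hX0 : (0 : ℝ) < Xi (lift A) φ := by nlinarith [mul_pos hθ hm1]
  set y := Real.log (2 / θ) with hy
  have hl2 : (0.69 : ℝ) < Real.log 2 := lt_trans (by norm_num) Real.log_two_gt_d9
  have hlθ : Real.log θ ≤ 0 := Real.log_nonpos hθ.le hθ1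
  have hy' : y = Real.log 2 - Real.log θ := Real.log_div (by norm_num) hθ.ne'
  have hk : Real.log ((∑ c ∈ lift A, nu (lift A) c ^ 2 : ℕ) : ℝ) - Real.log (Xi (lift A) φ) ≤
      12 * y := by
    have h1 : θ * ((∑ c ∈ lift A, nu (lift A) c ^ 2 : ℕ) : ℝ) ≤ 2 ^ 12 * Xi (lift A) φ := by
      nlinarith
    have h2 := Real.log_le_log (mul_pos hθ hT0) h1
    rw [Real.log_mul hθ.ne' hT0.ne', Real.log_mul (by norm_num) hX0.ne', Real.log_pow] at h2
    push_cast at h2 ⊢
    linarith
  obtain ⟨S, hS, hSne, ⟨t, ht⟩, r1, r2⟩ := hcom (G × ℤ) (lift A) φ hP (12 * y) hk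
  obtain ⟨H0, hH0, hc0, hq0⟩ := unlift hS (t := t) ht
  have hρ1 := one_le_rho_two A hA
  have hρN := rho_two_le A hA
  obtain ⟨H, h1, h2, h3⟩ := Finset.exists_subsuperset_card_eq hH0
    (le_max_left H0.card ⌈rho 2 A⌉₊) (max_le (Finset.card_le_card hH0) (Nat.ceil_le.2 hρN))
  refine ⟨H, h2, ?_, ?_⟩
  · rw [h3]
    exact (Nat.le_ceil _).trans (by exact_mod_cast le_max_right _ _)
  set n := Real.log A.card with hn
  have hn0 : 0 ≤ n := Real.log_nonneg hN
  have hs0 : (0 : ℝ) < S.card := by exact_mod_cast hSne.card_pos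
  have hPc : Real.log (lift A).card ≤ Real.log 2 + n := by
    rw [hn, ← Real.log_mul (by norm_num) (by positivity)]
    exact Real.log_le_log (by exact_mod_cast hP.card_pos) (by exact_mod_cast card_lift_le A)
  have hE0 : (0 : ℝ) < energy 2 A := by
    have : (A.card : ℝ) ^ 2 ≤ energy 2 A := by exact_mod_cast le_energy_two A
    nlinarith
  have hE : Real.log (rho 2 A) + 2 * n ≤ Real.log (∑ c ∈ lift A, nu (lift A) c : ℕ) := by
    rw [← energy_two, rho, Real.log_div hE0.ne' (by positivity), Real.log_pow]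
    have := Real.log_le_log hE0
      (show (energy 2 A : ℝ) ≤ energy 2 (lift A) by exact_mod_cast energy_le_lift A)
    push_cast
    linarith
  have hy0 : 0 ≤ y := by linarith
  have hP0 : 0 ≤ Real.log (lift A).card := Real.log_nonneg (by exact_mod_cast hP.card_pos)
  set L := C * (12 * y + 1) + ε / 4 * Real.log (lift A).card with hL
  have hL0 : 0 ≤ L := by positivity
  have hH0' : (0 : ℝ) < H.card := by
    have : S.card ≤ H.card := hc0 ▸ Finset.card_le_card h1
    have : (S.card : ℝ) ≤ H.card := by exact_mod_cast this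
    linarith
  have hHc : Real.log H.card ≤ Real.log S.card + 3 * Real.log 2 + L := by
    rcases le_total ⌈rho 2 A⌉₊ H0.card with h | h
    · rw [h3, max_eq_left h, hc0]; linarith
    · have e : (H.card : ℝ) ≤ 2 * rho 2 A := by
        rw [h3, max_eq_right h]
        linarith [Nat.ceil_lt_add_one (show 0 ≤ rho 2 A by linarith)]
      have := Real.log_le_log hH0' e
      rw [Real.log_mul (by norm_num) (by positivity)] at this
      linarith
  have hQ0 : 0 < Q4 S := by
    obtain ⟨s0, hs0⟩ := hSne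
    unfold Q4
    exact Finset.card_pos.2 ⟨(s0, s0, s0, s0), by simp [hs0]⟩
  have hEH : Q4 S ≤ energy 2 H := hq0.trans ((Q4_le_energy H0).trans (energy_mono h1))
  have hEH0 : (0 : ℝ) < energy 2 H := by exact_mod_cast hQ0.trans_le hEH
  have hlog : Real.log (Q4 S) ≤ Real.log (energy 2 H) :=
    Real.log_le_log (by exact_mod_cast hQ0) (by exact_mod_cast hEH)
  have h2θ : 0 < 2 / θ := by positivity
  rw [← Real.log_le_log_iff (by positivity) (by positivity),
    Real.log_mul (by positivity) hEH0.ne', Real.log_mul (by positivity) (by positivity),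
    Real.log_rpow (by positivity), Real.log_rpow h2θ, Real.log_pow]
  have e1 : ε * Real.log (lift A).card ≤ ε * (y + n) :=
    mul_le_mul_of_nonneg_left (by linarith) hε.le
  have e2 : C * 1 ≤ C * (2 * y) := mul_le_mul_of_nonneg_left (by linarith) hC
  push_cast
  nlinarith

theorem small_K (K₀ : ℝ) (hK₀ : K₀ < 3) (ε : ℝ) (hε : 0 < ε) :
    ∃ c c' : ℝ, 0 < c ∧ 0 < c' ∧ ∀ (G : Type u) [AddCommGroup G] (A : Finset G), A.Nonempty →
      ∀ K : ℝ, 1 ≤ K → K ≤ K₀ → rho 3 A ^ ((1 : ℝ) / 2) < K * rho 2 A →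
      ∃ H ⊆ A, rho 2 A ≤ K ^ c * H.card ∧
        (H.card : ℝ) ^ 3 ≤ (A.card : ℝ) ^ ε * K ^ c' * energy 2 H := by
  obtain ⟨c0, hc0, hmain⟩ := two_middles.{u} (ε / 2) (by positivity)
  set K₁ := max K₀ 1 with hK₁
  have hK1 : 1 ≤ K₁ := le_max_right _ _
  have hK3 : K₁ < 3 := max_lt hK₀ (by norm_num)
  set θ := (9 - K₁ ^ 2) / (8 * K₁ ^ 2) with hθd
  have hθ : 0 < θ := div_pos (by nlinarith) (by positivity)
  set M := ((2 / θ) ^ c0) ^ (2 / ε) with hM
  have hM0 : 0 < M := by positivity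
  set N₀ := ⌈M⌉₊ with hN₀
  refine ⟨2 * N₀ ^ 6 + 1, 1, by positivity, one_pos, ?_⟩
  intro G _ A hA K hK hKK hyp
  classical
  have hN : (1 : ℝ) ≤ A.card := by exact_mod_cast hA.card_pos
  have hKc : 1 ≤ K ^ ((2 * N₀ ^ 6 + 1 : ℝ)) := Real.one_le_rpow hK (by positivity)
  have hρ1 := one_le_rho_two A hA
  have hρN := rho_two_le A hA
  have hE2 : (0 : ℝ) < energy 2 A := by
    have : (A.card : ℝ) ^ 2 ≤ energy 2 A := by exact_mod_cast le_energy_two A
    nlinarith
  have hyp2 : (energy 3 A : ℝ) * A.card < K ^ 2 * (energy 2 A) ^ 2 := by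
    have h0 : 0 ≤ rho 3 A := by unfold rho; positivity
    have h1 : rho 3 A < (K * rho 2 A) ^ 2 := by
      have := pow_lt_pow_left₀ hyp (Real.rpow_nonneg h0 _) two_ne_zero
      rwa [← Real.rpow_natCast, ← Real.rpow_mul h0, show (1 : ℝ) / 2 * (2 : ℕ) = 1 by norm_num,
        Real.rpow_one] at this
    unfold rho at h1
    rw [div_lt_iff₀ (by positivity)] at h1
    have e : (K * (energy 2 A / (A.card : ℝ) ^ 2)) ^ 2 * (A.card : ℝ) ^ 3 * A.card =
        K ^ 2 * (energy 2 A) ^ 2 := by field_simp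
    rw [← e]
    exact mul_lt_mul_of_pos_right h1 (by positivity)
  have hCS : (energy 2 A : ℝ) ^ 2 ≤ A.card * ((∑ c ∈ A, nu A c ^ 2 : ℕ) : ℝ) := by
    exact_mod_cast energy_sq_le A
  set T : ℝ := ((∑ c ∈ A, nu A c ^ 2 : ℕ) : ℝ) with hT
  have hT0 : 0 ≤ T := Nat.cast_nonneg _
  have hET : (energy 3 A : ℝ) < K ^ 2 * T := by
    have : (energy 3 A : ℝ) * A.card < K ^ 2 * T * A.card := by nlinarith
    exact lt_of_mul_lt_mul_right this (by positivity)
  by_cases hbig : M ≤ A.card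
  · have h9 : 9 * T ≤ energy 3 A + 8 * mids A 2 := by rw [hT]; exact_mod_cast nine_le A
    have hm : (mids A 1 : ℝ) ≤ energy 3 A := by exact_mod_cast mids_le A 1
    have hKK1 : K ^ 2 ≤ K₁ ^ 2 := pow_le_pow_left₀ (by linarith) (hKK.trans (le_max_left _ _)) 2
    have hcond : θ * mids A 1 ≤ mids A 2 := by
      have e1 : (energy 3 A : ℝ) ≤ K₁ ^ 2 * T := by nlinarith
      rw [hθd, div_mul_eq_mul_div, div_le_iff₀ (by positivity)]
      have : (0 : ℝ) ≤ 9 - K₁ ^ 2 := by nlinarith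
      nlinarith
    obtain ⟨H, h1, h2, h3⟩ := hmain G A hA θ hθ hcond
    refine ⟨H, h1, h2.trans (le_mul_of_one_le_left (Nat.cast_nonneg _) hKc), h3.trans ?_⟩
    refine mul_le_mul_of_nonneg_right ?_ (Nat.cast_nonneg _)
    have e1 : (2 / θ) ^ c0 ≤ (A.card : ℝ) ^ (ε / 2) := by
      have := Real.rpow_le_rpow hM0.le hbig (show 0 ≤ ε / 2 by positivity)
      rwa [hM, ← Real.rpow_mul (by positivity), show 2 / ε * (ε / 2) = 1 by field_simp,
        Real.rpow_one] at this
    calc _ ≤ (A.card : ℝ) ^ (ε / 2) * (A.card : ℝ) ^ (ε / 2) := by gcongr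
      _ = (A.card : ℝ) ^ ε := by rw [← Real.rpow_add (by positivity)]; ring_nf
      _ ≤ _ := le_mul_of_one_le_right (by positivity) (by rwa [Real.rpow_one])
  · have hone : (1 : ℝ) ≤ (A.card : ℝ) ^ ε * K ^ (1 : ℝ) :=
      one_le_mul_of_one_le_of_one_le (Real.one_le_rpow hN hε.le) (by rwa [Real.rpow_one])
    by_cases hcl : ∀ p ∈ A, ∀ q ∈ A, ∀ z ∈ A, q + (p - z) ∈ A
    · refine ⟨A, Finset.Subset.refl _, hρN.trans (le_mul_of_one_le_left (by positivity) hKc), ?_⟩
      have : A.card ^ 3 ≤ energy 2 A := by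
        rw [energy_two]
        calc A.card ^ 3 = ∑ _c ∈ A, (A ×ˢ A).card := by
              rw [Finset.sum_const, smul_eq_mul, Finset.card_product]; ring
          _ ≤ _ := Finset.sum_le_sum fun c hc => by
              rw [← card_Nu]
              exact Finset.card_le_card fun x hx => mem_Nu.2 ⟨(Finset.mem_product.1 hx).1,
                (Finset.mem_product.1 hx).2,
                hcl _ (Finset.mem_product.1 hx).1 _ (Finset.mem_product.1 hx).2 _ hc⟩
      have : (A.card : ℝ) ^ 3 ≤ energy 2 A := by exact_mod_cast this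
      exact this.trans (le_mul_of_one_le_left (Nat.cast_nonneg _) hone)
    · push Not at hcl
      obtain ⟨p, hp, q, hq, z, hz, hc⟩ := hcl
      have h1 : ∑ c ∈ A, nu A c ^ 2 + 1 ≤ energy 3 A := by
        have a := sum_nu_sq_le A (insert (q + (p - z)) A)
        rw [Finset.sum_insert hc] at a
        have b : 0 < nu A (q + (p - z)) := by
          rw [← card_Nu]
          exact Finset.card_pos.2 ⟨(p, q), mem_Nu.2 ⟨hp, hq, by convert hz using 1; abel⟩⟩
        have b2 : 1 ≤ nu A (q + (p - z)) ^ 2 := Nat.one_le_pow _ _ b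
        have d := a.trans (Finset.card_filter_le _ _)
        unfold energy
        omega
      have h1' : T + 1 ≤ energy 3 A := by rw [hT]; exact_mod_cast h1
      have hNN : (A.card : ℝ) ≤ N₀ := (not_le.1 hbig).le.trans (Nat.le_ceil _)
      have hT5 : T ≤ (N₀ : ℝ) ^ 5 := by
        have : ∑ c ∈ A, nu A c ^ 2 ≤ A.card ^ 5 :=
          calc _ ≤ ∑ _c ∈ A, (A.card * A.card) ^ 2 :=
                Finset.sum_le_sum fun c _ => Nat.pow_le_pow_left (nu_le A c) 2
            _ = _ := by rw [Finset.sum_const, smul_eq_mul]; ring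
        have h : T ≤ (A.card : ℝ) ^ 5 := by rw [hT]; exact_mod_cast this
        exact h.trans (by gcongr)
      have hN0 : (1 : ℝ) ≤ N₀ := hN.trans hNN
      have hK2 : 1 ≤ (K ^ 2 - 1) * (N₀ : ℝ) ^ 5 := by
        have : 0 ≤ K ^ 2 - 1 := by nlinarith
        nlinarith
      have hB : (N₀ : ℝ) ≤ K ^ ((2 * N₀ ^ 6 + 1 : ℝ)) := by
        have b := one_add_mul_le_pow (a := K ^ 2 - 1) (by nlinarith) (N₀ ^ 6)
        have b' : K ^ (2 * N₀ ^ 6) ≤ K ^ ((2 * N₀ ^ 6 + 1 : ℝ)) := by
          rw [← Real.rpow_natCast]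
          exact Real.rpow_le_rpow_of_exponent_le hK (by push_cast; linarith)
        rw [add_sub_cancel, ← pow_mul] at b
        push_cast at b
        nlinarith
      refine ⟨{p}, by simpa using hp, ?_, ?_⟩
      · simp only [Finset.card_singleton, Nat.cast_one, mul_one]
        linarith
      · have : (1 : ℝ) ≤ energy 2 ({p} : Finset G) := by
          have := le_energy_two ({p} : Finset G)
          simp only [Finset.card_singleton, one_pow] at this
          exact_mod_cast this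
        simp only [Finset.card_singleton, Nat.cast_one, one_pow]
        nlinarith

end Pool.Agent.Lib.MP_328240_co
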