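import Pool.Agent.Lib.MP_328240_co.H73Grid

/-!
One doubling step: either the entropies of the sides grow, or two neighbouring points of the grid
have a difference of small conditional entropy.
-/

set_option autoImplicit false

namespace Pool.Agent.Lib.MP_328240_co

open Finset

universe u

variable {G : Type u} [AddCommGroup G]

theorem grid_ineq {Ω : Type*} [Fintype Ω] {Q : Ω → ℝ} (hQ : ∀ x, 0 ≤ Q x) (h1 : ∑ x, Q x = 1)
    {d u1 u2 v1 v2 : Ω → G} {n A B q γ : ℝ}
    (f11 : Facts Q d u1 v1 n A B q γ) (f21 : Facts Q d u2 v1 n A B q γ)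
    (f12 : Facts Q d u1 v2 n A B q γ) (f22 : Facts Q d u2 v2 n A B q γ)
    (hG : 4 * q - 2 * B - 2 * A + n ≤ H Q (fun x => (d x, u1 x, u2 x, v1 x, v2 x)))
    (hs : H Q (fun x => (d x + u2 x + v1 x, v2 x - v1 x)) =
      H Q (fun x => (d x + u1 x + v1 x, v2 x - v1 x))) :
    (H Q (fun x => (d x + u1 x + v1 x, u2 x - u1 x)) +
      H Q (fun x => (d x + u1 x + v1 x, v2 x - v1 x)) - H Q (fun x => d x + u1 x + v1 x) -
      H Q (fun x => (d x + u1 x + v1 x, u2 x - u1 x, v2 x - v1 x)) ≤ 4 * (A + B - n - q)) ∧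
    (q - γ - 3 * (A + B - n - q) ≤
      H Q (fun x => (d x + u1 x + v1 x, u2 x - u1 x, v2 x - v1 x)) -
      H Q (fun x => (d x + u1 x + v1 x + (u2 x - u1 x), d x + u1 x + v1 x + (v2 x - v1 x)))) ∧
    (3 / 2 * (H Q (fun x => (d x, (d x + u1 x, d x + v1 x, d x + u2 x + v2 x))) +
        H Q (fun x => (d x + u2 x, (d x + u1 x, d x + v1 x, d x + u2 x + v2 x)))) +
      H Q (fun x => ((d x + u1 x, d x + v1 x, d x + u2 x + v2 x), d x - (d x + u2 x))) -
      2 * H Q (fun x => (d x, d x + u2 x, (d x + u1 x, d x + v1 x, d x + u2 x + v2 x))) -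
      2 * H Q (fun x => (d x + u1 x, d x + v1 x, d x + u2 x + v2 x)) ≤
      3 / 2 * (H Q (fun x => (d x + u1 x + v1 x, u2 x - u1 x)) - A) +
      (H Q (fun x => (d x + u1 x + v1 x, v2 x - v1 x)) - B) + 14 * (A + B - n - q)) ∧
    (q - γ - 2 * (A + B - n - q) ≤
      H Q (fun x => (d x + u2 x, (d x + u1 x, d x + v1 x, d x + u2 x + v2 x))) -
      H Q (fun x => (d x + u1 x, d x + v1 x, d x + u2 x + v2 x))) := by
  have k0 : H Q d + H Q (fun x => (d x, u1 x, v1 x)) ≤
      H Q (fun x => (d x, u1 x)) + H Q (fun x => (d x, v1 x)) :=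
    submod hQ h1 _ _ _ _ (by intro x y; simp only [Prod.mk.injEq]; clear * -; grind)
      (by intro x y; simp only [Prod.mk.injEq]; clear * -; grind)
      (by intro x y; simp only [Prod.mk.injEq]; clear * -; grind)
  have i1 : H Q (fun x => (d x + u1 x + v1 x, u2 x - u1 x)) +
      H Q (fun x => (d x, u1 x, u2 x, v1 x, v2 x)) ≤
      H Q (fun x => (d x + u1 x + v1 x, u1 x, u2 x)) +
      H Q (fun x => (d x + u1 x + v1 x, u2 x - u1 x, v1 x, v2 x)) :=
    submod hQ h1 _ _ _ _ (by intro x y; simp only [Prod.mk.injEq]; clear * -; grind)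
      (by intro x y; simp only [Prod.mk.injEq]; clear * -; grind)
      (by intro x y; simp only [Prod.mk.injEq]; clear * -; grind)
  have i2 : H Q (fun x => (d x + u1 x + v1 x, v2 x - v1 x)) +
      H Q (fun x => (d x + u1 x + v1 x, u2 x - u1 x, v1 x, v2 x)) ≤
      H Q (fun x => (d x + u1 x + v1 x, v1 x, v2 x)) +
      H Q (fun x => (d x + u1 x + v1 x, u2 x - u1 x, v2 x - v1 x)) :=
    submod hQ h1 _ _ _ _ (by intro x y; simp only [Prod.mk.injEq]; clear * -; grind)
      (by intro x y; simp only [Prod.mk.injEq]; clear * -; grind)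
      (by intro x y; simp only [Prod.mk.injEq]; clear * -; grind)
  have i3 : H Q (fun x => d x + v1 x) + H Q (fun x => (d x + u1 x + v1 x, u1 x, u2 x)) ≤
      H Q (fun x => (d x + v1 x, u1 x)) + H Q (fun x => (d x + v1 x, u2 x)) :=
    submod hQ h1 _ _ _ _ (by intro x y; simp only [Prod.mk.injEq]; clear * -; grind)
      (by intro x y; simp only [Prod.mk.injEq]; clear * -; grind)
      (by intro x y; simp only [Prod.mk.injEq]; clear * -; grind)
  have i4 : H Q (fun x => d x + u1 x) + H Q (fun x => (d x + u1 x + v1 x, v1 x, v2 x)) ≤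
      H Q (fun x => (d x + u1 x, v1 x)) + H Q (fun x => (d x + u1 x, v2 x)) :=
    submod hQ h1 _ _ _ _ (by intro x y; simp only [Prod.mk.injEq]; clear * -; grind)
      (by intro x y; simp only [Prod.mk.injEq]; clear * -; grind)
      (by intro x y; simp only [Prod.mk.injEq]; clear * -; grind)
  have j1 : H Q (fun x => (d x + u1 x + v1 x + (u2 x - u1 x), d x + u1 x + v1 x + (v2 x - v1 x))) +
      H Q (fun x => (d x, u1 x, u2 x, v1 x, v2 x)) ≤
      H Q (fun x => (d x + u1 x + v1 x, u2 x - u1 x, v2 x - v1 x)) +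
      H Q (fun x => (d x + u1 x, d x + v1 x, u2 x, v2 x)) :=
    submod hQ h1 _ _ _ _ (by intro x y; simp only [Prod.mk.injEq]; clear * -; grind)
      (by intro x y; simp only [Prod.mk.injEq]; clear * -; grind)
      (by intro x y; simp only [Prod.mk.injEq]; clear * -; grind)
  have j2 : H Q (fun x => d x + v1 x) + H Q (fun x => (d x + u1 x, d x + v1 x, u2 x)) ≤
      H Q (fun x => (d x + u1 x, d x + v1 x)) + H Q (fun x => (d x + v1 x, u2 x)) :=
    submod hQ h1 _ _ _ _ (by intro x y; simp only [Prod.mk.injEq]; clear * -; grind)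
      (by intro x y; simp only [Prod.mk.injEq]; clear * -; grind)
      (by intro x y; simp only [Prod.mk.injEq]; clear * -; grind)
  have j3 : H Q (fun x => d x + u1 x) + H Q (fun x => (d x + u1 x, d x + v1 x, u2 x, v2 x)) ≤
      H Q (fun x => (d x + u1 x, d x + v1 x, u2 x)) + H Q (fun x => (d x + u1 x, v2 x)) :=
    submod hQ h1 _ _ _ _ (by intro x y; simp only [Prod.mk.injEq]; clear * -; grind)
      (by intro x y; simp only [Prod.mk.injEq]; clear * -; grind)
      (by intro x y; simp only [Prod.mk.injEq]; clear * -; grind)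
  have t1 : H Q (fun x => d x + u1 x) + H Q (fun x => (d x + u1 x, d x + v1 x, d x + u2 x)) ≤
      H Q (fun x => (d x + u1 x, d x + v1 x)) + H Q (fun x => (d x + u1 x, u2 x - u1 x)) :=
    submod hQ h1 _ _ _ _ (by intro x y; simp only [Prod.mk.injEq]; clear * -; grind)
      (by intro x y; simp only [Prod.mk.injEq]; clear * -; grind)
      (by intro x y; simp only [Prod.mk.injEq]; clear * -; grind)
  have t2 : H Q (fun x => d x + u2 x) +
      H Q (fun x => (d x + u2 x, (d x + u1 x, d x + v1 x, d x + u2 x + v2 x))) ≤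
      H Q (fun x => (d x + u1 x, d x + v1 x, d x + u2 x)) + H Q (fun x => (d x + u2 x, v2 x)) :=
    submod hQ h1 _ _ _ _ (by intro x y; simp only [Prod.mk.injEq]; clear * -; grind)
      (by intro x y; simp only [Prod.mk.injEq]; clear * -; grind)
      (by intro x y; simp only [Prod.mk.injEq]; clear * -; grind)
  have m1 : H Q (fun x => d x + u1 x + v1 x) +
      H Q (fun x => (d x + u1 x, u2 x - u1 x, v1 x)) ≤
      H Q (fun x => (d x + u1 x + v1 x, u2 x - u1 x)) +
      H Q (fun x => (d x + u1 x + v1 x, v1 x)) :=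
    submod hQ h1 _ _ _ _ (by intro x y; simp only [Prod.mk.injEq]; clear * -; grind)
      (by intro x y; simp only [Prod.mk.injEq]; clear * -; grind)
      (by intro x y; simp only [Prod.mk.injEq]; clear * -; grind)
  have m2 : H Q (fun x => (d x + u1 x + v1 x, v1 x)) ≤ H Q (fun x => (d x + u1 x, v1 x)) :=
    H_le_of_det hQ _ _ (by intro x y _ _; simp only [Prod.mk.injEq]; clear * -; grind)
  have m3 : H Q (fun x => (d x + u1 x, u2 x - u1 x)) +
      H Q (fun x => (d x, u1 x, u2 x, v1 x, v2 x)) ≤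
      H Q (fun x => (d x, u1 x, u2 x)) + H Q (fun x => (d x + u1 x, u2 x - u1 x, v1 x, v2 x)) :=
    submod hQ h1 _ _ _ _ (by intro x y; simp only [Prod.mk.injEq]; clear * -; grind)
      (by intro x y; simp only [Prod.mk.injEq]; clear * -; grind)
      (by intro x y; simp only [Prod.mk.injEq]; clear * -; grind)
  have m4 : H Q d + H Q (fun x => (d x, u1 x, u2 x)) ≤
      H Q (fun x => (d x, u1 x)) + H Q (fun x => (d x, u2 x)) :=
    submod hQ h1 _ _ _ _ (by intro x y; simp only [Prod.mk.injEq]; clear * -; grind)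
      (by intro x y; simp only [Prod.mk.injEq]; clear * -; grind)
      (by intro x y; simp only [Prod.mk.injEq]; clear * -; grind)
  have m5 : H Q (fun x => d x + u1 x) + H Q (fun x => (d x + u1 x, u2 x - u1 x, v1 x, v2 x)) ≤
      H Q (fun x => (d x + u1 x, u2 x - u1 x, v1 x)) + H Q (fun x => (d x + u1 x, v2 x)) :=
    submod hQ h1 _ _ _ _ (by intro x y; simp only [Prod.mk.injEq]; clear * -; grind)
      (by intro x y; simp only [Prod.mk.injEq]; clear * -; grind)
      (by intro x y; simp only [Prod.mk.injEq]; clear * -; grind)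
  have d1 : H Q (fun x => d x + u2 x + v1 x) +
      H Q (fun x => ((d x + u1 x, d x + v1 x, d x + u2 x + v2 x), d x - (d x + u2 x))) ≤
      H Q (fun x => (d x + u1 x, d x + v1 x, u2 x)) +
      H Q (fun x => (d x + u2 x + v1 x, v2 x - v1 x)) :=
    submod hQ h1 _ _ _ _ (by intro x y; simp only [Prod.mk.injEq]; clear * -; grind)
      (by intro x y; simp only [Prod.mk.injEq]; clear * -; grind)
      (by intro x y; simp only [Prod.mk.injEq]; clear * -; grind)
  have w1 : H Q (fun x => (d x + u1 x, d x + v1 x)) +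
      H Q (fun x => (d x, (d x + u1 x, d x + v1 x, d x + u2 x + v2 x))) ≤
      H Q (fun x => (d x + u1 x, d x + v1 x, d x + u2 x + v2 x)) +
      H Q (fun x => (d x, u1 x, v1 x)) :=
    submod hQ h1 _ _ _ _ (by intro x y; simp only [Prod.mk.injEq]; clear * -; grind)
      (by intro x y; simp only [Prod.mk.injEq]; clear * -; grind)
      (by intro x y; simp only [Prod.mk.injEq]; clear * -; grind)
  have x1 : H Q (fun x => (d x, d x + u2 x + v2 x)) +
      H Q (fun x => (d x, u1 x, u2 x, v1 x, v2 x)) ≤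
      H Q (fun x => (d x, (d x + u1 x, d x + v1 x, d x + u2 x + v2 x))) +
      H Q (fun x => (d x, u2 x, v2 x)) :=
    submod hQ h1 _ _ _ _ (by intro x y; simp only [Prod.mk.injEq]; clear * -; grind)
      (by intro x y; simp only [Prod.mk.injEq]; clear * -; grind)
      (by intro x y; simp only [Prod.mk.injEq]; clear * -; grind)
  have x2 : H Q d + H Q (fun x => (d x, (d x + u1 x, d x + v1 x, d x + u2 x + v2 x))) ≤
      H Q (fun x => (d x, u1 x, v1 x)) + H Q (fun x => (d x, d x + u2 x + v2 x)) :=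
    submod hQ h1 _ _ _ _ (by intro x y; simp only [Prod.mk.injEq]; clear * -; grind)
      (by intro x y; simp only [Prod.mk.injEq]; clear * -; grind)
      (by intro x y; simp only [Prod.mk.injEq]; clear * -; grind)
  have y1 : H Q (fun x => (d x, u1 x, u2 x, v1 x, v2 x)) ≤
      H Q (fun x => (d x, d x + u2 x, (d x + u1 x, d x + v1 x, d x + u2 x + v2 x))) :=
    H_le_of_det hQ _ _ (by intro x y _ _; simp only [Prod.mk.injEq]; clear * -; grind)
  have z1 : H Q (fun x => (d x + u1 x, d x + v1 x, d x + u2 x + v2 x)) +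
      H Q (fun x => (d x, u1 x, u2 x, v1 x, v2 x)) ≤
      H Q (fun x => (d x + u2 x, (d x + u1 x, d x + v1 x, d x + u2 x + v2 x))) +
      H Q (fun x => (d x, (d x + u1 x, d x + v1 x, d x + u2 x + v2 x))) :=
    submod hQ h1 _ _ _ _ (by intro x y; simp only [Prod.mk.injEq]; clear * -; grind)
      (by intro x y; simp only [Prod.mk.injEq]; clear * -; grind)
      (by intro x y; simp only [Prod.mk.injEq]; clear * -; grind)
  have := f11.n0; have := f11.n1; have := f11.n2; have := f11.n3; have := f11.a0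
  have := f11.a1; have := f11.b0; have := f11.b1; have := f11.q0; have := f11.g0
  have := f21.n1; have := f21.n3; have := f21.a0; have := f21.a1; have := f12.b1
  have := f22.b1; have := f22.q0; have := f22.g1
  refine ⟨by linarith, by linarith, by linarith, by linarith⟩

/-- A symmetric random parallelogram in `P0` whose two sides are nearly independent given the base
point (defect at most `k`), whose corner keeps entropy at least `m` given the opposite diagonal,
and whose potential is at least `Φ`. -/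
def St (P0 : Finset G) (φ : G →+ ℤ) (k m Φ : ℝ) : Prop :=
  ∃ (Ω : Type u) (_ : Fintype Ω) (P : Ω → ℝ) (c u v : Ω → G), (∀ ω, 0 < P ω) ∧ ∑ ω, P ω = 1 ∧
    (∀ ω, c ω ∈ P0 ∧ c ω + u ω ∈ P0 ∧ c ω + v ω ∈ P0 ∧ c ω + u ω + v ω ∈ P0 ∧ φ (u ω) = 0) ∧
    Sym P c u v ∧
    H P (fun ω => (c ω, u ω)) + H P (fun ω => (c ω, v ω)) - H P c
      - H P (fun ω => (c ω, u ω, v ω)) ≤ k ∧
    m ≤ H P (fun ω => (c ω, u ω, v ω)) - H P (fun ω => (c ω + u ω, c ω + v ω)) ∧
    Φ ≤ 3 / 2 * (H P (fun ω => (c ω, u ω)) - H P c) + (H P (fun ω => (c ω, v ω)) - H P c)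

/-- Two points of `P0` with a difference of small entropy given `W`. -/
def Test (P0 : Finset G) (φ : G →+ ℤ) (M D : ℝ) : Prop :=
  ∃ (Ω : Type u) (_ : Fintype Ω) (P : Ω → ℝ) (E F : Ω → G) (W : Ω → G × G × G),
    (∀ ω, 0 < P ω) ∧ ∑ ω, P ω = 1 ∧
    (∀ ω, E ω ∈ P0 ∧ F ω ∈ P0 ∧ φ (E ω) = φ (W ω).1 ∧ φ (F ω) = φ (W ω).1) ∧
    3 / 2 * (H P (fun ω => (E ω, W ω)) + H P (fun ω => (F ω, W ω))) +
      H P (fun ω => (W ω, E ω - F ω)) - 2 * H P (fun ω => (E ω, F ω, W ω)) - 2 * H P W ≤ D ∧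
    M ≤ H P (fun ω => (F ω, W ω)) - H P W

lemma Test.mono {P0 : Finset G} {φ : G →+ ℤ} {M D M' D' : ℝ} (h : Test P0 φ M D) (hM : M' ≤ M)
    (hD : D ≤ D') : Test P0 φ M' D' := by
  obtain ⟨Ω, i, P, E, F, W, h1, h2, h3, h4, h5⟩ := h
  exact ⟨Ω, i, P, E, F, W, h1, h2, h3, h4.trans hD, hM.trans h5⟩

lemma St.k_nonneg {P0 : Finset G} {φ : G →+ ℤ} {k m Φ : ℝ} (h : St P0 φ k m Φ) : 0 ≤ k := by
  obtain ⟨Ω, i, P, c, u, v, hP, h1, -, -, hk, -, -⟩ := h
  have k0 : H P c + H P (fun x => (c x, u x, v x)) ≤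
      H P (fun x => (c x, u x)) + H P (fun x => (c x, v x)) :=
    submod (fun x => (hP x).le) h1 _ _ _ _
      (by intro x y; simp only [Prod.mk.injEq]; clear * -; grind)
      (by intro x y; simp only [Prod.mk.injEq]; clear * -; grind)
      (by intro x y; simp only [Prod.mk.injEq]; clear * -; grind)
  linarith

lemma St.pot_le {P0 : Finset G} {φ : G →+ ℤ} {k m Φ : ℝ} (h : St P0 φ k m Φ) :
    Φ ≤ 5 / 2 * Real.log P0.card := by
  obtain ⟨Ω, i, P, c, u, v, hP, h1, hm, -, -, -, hΦ⟩ := h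
  have hP' : ∀ x, 0 ≤ P x := fun x => (hP x).le
  have a1 := H_pair_le_log hP' h1 (fun ω => c ω + u ω) c P0 fun ω => (hm ω).2.1
  have a2 := H_pair_le_log hP' h1 (fun ω => c ω + v ω) c P0 fun ω => (hm ω).2.2.1
  have b1 : H P (fun ω => (c ω, u ω)) ≤ H P (fun ω => (c ω + u ω, c ω)) :=
    H_le_of_det hP' _ _ (by intro x y _ _; simp only [Prod.mk.injEq]; clear * -; grind)
  have b2 : H P (fun ω => (c ω, v ω)) ≤ H P (fun ω => (c ω + v ω, c ω)) :=
    H_le_of_det hP' _ _ (by intro x y _ _; simp only [Prod.mk.injEq]; clear * -; grind)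
  linarith

theorem St.step {P0 : Finset G} {φ : G →+ ℤ} {k m Φ : ℝ} (h : St P0 φ k m Φ) (η : ℝ) :
    Test P0 φ (m - 2 * k) (η + 14 * k) ∨ St P0 φ (4 * k) (m - 3 * k) (Φ + η) := by
  obtain ⟨Ω, i, P, c, u, v, hP, h1, hm, hsym, hk, hmm, hΦ⟩ := h
  obtain ⟨Ω', i', Q, d, u1, u2, v1, v2, hQ, hQ1, l11, l21, l12, l22, su, sv, e11, e21, e12, e22,
    hG⟩ := exists_grid hP h1 c u v
  have F := hsym.facts
  have hs : H Q (fun x => (d x + u2 x + v1 x, v2 x - v1 x)) =
      H Q (fun x => (d x + u1 x + v1 x, v2 x - v1 x)) :=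
    (su.H_eq fun t => (t.1 + t.2.1 + t.2.2.2.1, t.2.2.2.2 - t.2.2.2.1)).symm
  obtain ⟨g1, g2, g3, g4⟩ := grid_ineq (fun x => (hQ x).le) hQ1 (F.of_law l11) (F.of_law l21)
    (F.of_law l12) (F.of_law l22) hG hs
  have n3 := (F.of_law l11).n3
  have mem : ∀ {a b : Ω' → G}, (∀ x, ∃ ω, d x = c ω ∧ a x = u ω ∧ b x = v ω) → ∀ x,
      d x ∈ P0 ∧ d x + a x ∈ P0 ∧ d x + b x ∈ P0 ∧ d x + a x + b x ∈ P0 ∧ φ (a x) = 0 := by
    intro a b e x
    obtain ⟨ω, r1, r2, r3⟩ := e x
    rw [r1, r2, r3]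
    exact hm ω
  by_cases hc : 3 / 2 * (H Q (fun x => (d x + u1 x + v1 x, u2 x - u1 x)) -
      H P (fun ω => (c ω, u ω))) + (H Q (fun x => (d x + u1 x + v1 x, v2 x - v1 x)) -
      H P (fun ω => (c ω, v ω))) ≤ η
  · left
    refine ⟨Ω', i', Q, d, fun x => d x + u2 x,
      fun x => (d x + u1 x, d x + v1 x, d x + u2 x + v2 x), hQ, hQ1, fun x => ?_, by linarith,
      by linarith⟩
    refine ⟨(mem e11 x).1, (mem e21 x).2.1, ?_, ?_⟩
    · simp [(mem e11 x).2.2.2.2]
    · simp [(mem e11 x).2.2.2.2, (mem e21 x).2.2.2.2]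
  · right
    refine ⟨Ω', i', Q, fun x => d x + u1 x + v1 x, fun x => u2 x - u1 x, fun x => v2 x - v1 x,
      hQ, hQ1, fun x => ⟨(mem e11 x).2.2.2.1, ?_, ?_, ?_, ?_⟩, ⟨?_, ?_⟩, by linarith, by linarith,
      by linarith⟩
    · convert (mem e21 x).2.2.2.1 using 1; beta_reduce; abel
    · convert (mem e12 x).2.2.2.1 using 1; beta_reduce; abel
    · convert (mem e22 x).2.2.2.1 using 1; beta_reduce; abel
    · simp [(mem e11 x).2.2.2.2, (mem e21 x).2.2.2.2]
    · have := su.map fun t => (t.1 + t.2.1 + t.2.2.2.1, t.2.2.1 - t.2.1, t.2.2.2.2 - t.2.2.2.1)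
      convert this using 2 with x
      refine Prod.ext ?_ (Prod.ext ?_ rfl)
      · simp only; abel
      · simp only; abel
    · have := sv.map fun t => (t.1 + t.2.1 + t.2.2.2.1, t.2.2.1 - t.2.1, t.2.2.2.2 - t.2.2.2.1)
      convert this using 2 with x
      refine Prod.ext ?_ (Prod.ext rfl ?_)
      · simp only; abel
      · simp only; abel

theorem St.iter {P0 : Finset G} {φ : G →+ ℤ} {η : ℝ} (hη : 0 < η) (j : ℕ) :
    ∀ {k m Φ : ℝ}, St P0 φ k m Φ → 5 / 2 * Real.log P0.card - Φ ≤ j * η →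
      Test P0 φ (m - (3 * 4 ^ j - 1) * k) (η + 14 * 4 ^ j * k) := by
  induction j with
  | zero =>
    intro k m Φ h hΦ
    have hk := h.k_nonneg
    rcases h.step η with h' | h'
    · exact h'.mono (by simp; linarith) (by simp)
    · have := h'.pot_le
      simp at hΦ
      linarith
  | succ j ih =>
    intro k m Φ h hΦ
    have hk := h.k_nonneg
    have h4 : (1 : ℝ) ≤ 4 ^ j := one_le_pow₀ (by norm_num)
    rcases h.step η with h' | h'
    · exact h'.mono (by rw [pow_succ]; nlinarith) (by rw [pow_succ]; nlinarith)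
    · have := ih h' (by push_cast at hΦ; linarith)
      exact this.mono (by rw [pow_succ]; nlinarith) (by rw [pow_succ]; nlinarith)

end Pool.Agent.Lib.MP_328240_co
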