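import Pool.Agent.Lib.MP_328240_co.H73Defs

/-!
Counting tools (copied from `H73Init` and `H73Count`, so that this branch has a small closure).
-/

set_option autoImplicit false

namespace Pool.Agent.Lib.MP_328240_co.Free

open Finset

universe u

variable {G : Type u} [AddCommGroup G]

open Classical in
/-- The number of representations of `y` as a difference. -/
noncomputable def rr (P : Finset G) (y : G) : ℕ := (P.filter fun p => p + y ∈ P).card

/-- The number of additive quadruples through `c`. -/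
noncomputable def nu (P : Finset G) (c : G) : ℕ := ∑ p ∈ P, rr P (p - c)

lemma sum_rr_sq_le (P S : Finset G) : ∑ y ∈ S, rr P y ^ 2 ≤ ∑ c ∈ P, nu P c := by
  classical
  calc ∑ y ∈ S, rr P y ^ 2 = ∑ y ∈ S, ∑ c ∈ P, if c + y ∈ P then rr P y else 0 := by
        refine Finset.sum_congr rfl fun y _ => ?_
        rw [← Finset.sum_filter, Finset.sum_const, smul_eq_mul, sq]
        congr 1
    _ = ∑ c ∈ P, ∑ y ∈ S, if c + y ∈ P then rr P y else 0 := Finset.sum_comm
    _ ≤ _ := by
        refine Finset.sum_le_sum fun c _ => ?_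
        rw [← Finset.sum_filter]
        calc _ = ∑ p ∈ (S.filter fun y => c + y ∈ P).image (fun y => c + y), rr P (p - c) := by
              rw [Finset.sum_image fun a _ b _ h => by simpa using h]
              simp
          _ ≤ _ := Finset.sum_le_sum_of_subset fun p hp => by
              obtain ⟨y, hy, rfl⟩ := Finset.mem_image.1 hp
              exact (Finset.mem_filter.1 hy).2

lemma mem_sols {n : ℕ} {A : Finset G} {s : (Fin n → G) × (Fin n → G)} :
    s ∈ sols n A ↔ (∀ i, s.1 i ∈ A) ∧ (∀ i, s.2 i ∈ A) ∧ ∑ i, s.1 i = ∑ i, s.2 i := by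
  simp only [sols, Finset.mem_filter, Finset.mem_product, Fintype.mem_piFinset]
  tauto

open Classical in
/-- The pairs counted by `nu`. -/
noncomputable def Nu (P : Finset G) (c : G) : Finset (G × G) :=
  (P ×ˢ P).filter fun x => x.2 + (x.1 - c) ∈ P

lemma mem_Nu {P : Finset G} {c : G} {x : G × G} :
    x ∈ Nu P c ↔ x.1 ∈ P ∧ x.2 ∈ P ∧ x.2 + (x.1 - c) ∈ P := by
  simp only [Nu, Finset.mem_filter, Finset.mem_product]
  tauto

lemma card_Nu (P : Finset G) (c : G) : (Nu P c).card = nu P c := by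
  classical
  unfold Nu nu rr
  rw [Finset.card_filter, Finset.sum_product]
  refine Finset.sum_congr rfl fun p _ => ?_
  rw [Finset.card_filter]

lemma energy_two (A : Finset G) : energy 2 A = ∑ c ∈ A, nu A c := by
  simp only [← card_Nu]
  rw [← Finset.card_sigma]
  refine Finset.card_bij (fun s _ => ⟨s.2 0, (s.1 0, s.1 1)⟩) (fun s hs => ?_)
    (fun s hs t ht h => ?_) fun x hx => ?_
  · obtain ⟨h1, h2, h3⟩ := mem_sols.1 hs
    simp only [Fin.sum_univ_two] at h3
    refine Finset.mem_sigma.2 ⟨h2 0, mem_Nu.2 ⟨h1 0, h1 1, ?_⟩⟩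
    convert h2 1 using 1
    clear * - h3; grind
  · have a := (mem_sols.1 hs).2.2
    have b := (mem_sols.1 ht).2.2
    simp only [Fin.sum_univ_two, Sigma.mk.injEq, heq_eq_eq, Prod.mk.injEq] at a b h
    refine Prod.ext (funext fun i => ?_) (funext fun i => ?_) <;> fin_cases i <;>
      simp only [Fin.zero_eta, Fin.mk_one, Fin.isValue] <;> clear * - a b h <;> grind
  · obtain ⟨h1, h2⟩ := Finset.mem_sigma.1 hx
    obtain ⟨h2, h3, h4⟩ := mem_Nu.1 h2
    refine ⟨(![x.2.1, x.2.2], ![x.1, x.2.2 + (x.2.1 - x.1)]), mem_sols.2 ⟨fun i => ?_, fun i => ?_,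
      ?_⟩, rfl⟩
    · fin_cases i <;> simpa
    · fin_cases i <;> simpa
    · simp only [Fin.sum_univ_two, Matrix.cons_val_zero, Matrix.cons_val_one]
      abel

/-- The middle element attached to the index pair `(i, j)`. -/
def mid (s : (Fin 3 → G) × (Fin 3 → G)) (i j : Fin 3) : G := ∑ l, s.1 l - s.1 i - s.2 j

open Classical in
lemma sum_nu_sq_le (A S : Finset G) :
    ∑ c ∈ S, nu A c ^ 2 ≤ ((sols 3 A).filter fun s => mid s 0 0 ∈ S).card := by
  have e : ∑ c ∈ S, nu A c ^ 2 = (S.sigma fun c => Nu A c ×ˢ Nu A c).card := by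
    rw [Finset.card_sigma]
    exact Finset.sum_congr rfl fun c _ => by rw [Finset.card_product, card_Nu, sq]
  rw [e]
  refine Finset.card_le_card_of_injOn (fun x => (![x.2.2.2 + (x.2.2.1 - x.1), x.2.1.1, x.2.1.2],
    ![x.2.1.2 + (x.2.1.1 - x.1), x.2.2.1, x.2.2.2])) (fun x hx => ?_) fun x _ y _ h => ?_
  · obtain ⟨h1, h2⟩ := Finset.mem_sigma.1 hx
    obtain ⟨h2, h3⟩ := Finset.mem_product.1 h2
    obtain ⟨a1, a2, a3⟩ := mem_Nu.1 h2
    obtain ⟨b1, b2, b3⟩ := mem_Nu.1 h3
    refine Finset.mem_filter.2 ⟨mem_sols.2 ⟨fun i => ?_, fun i => ?_, ?_⟩, ?_⟩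
    · fin_cases i <;> simpa
    · fin_cases i <;> simpa
    · simp only [Fin.sum_univ_three, Matrix.cons_val_zero, Matrix.cons_val_one,
        Matrix.cons_val]
      abel
    · convert h1 using 1
      simp only [mid, Fin.sum_univ_three, Matrix.cons_val_zero, Matrix.cons_val_one,
        Matrix.cons_val]
      abel
  · obtain ⟨c, ⟨p, q⟩, ⟨p', q'⟩⟩ := x
    obtain ⟨d, ⟨r, t⟩, ⟨r', t'⟩⟩ := y
    simp only [Prod.mk.injEq, Matrix.vecCons_inj, Sigma.mk.injEq, heq_eq_eq] at h ⊢
    clear * - h; grind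

/-- Relabelling of the two triples. -/
def act (σ τ : Equiv.Perm (Fin 3)) (s : (Fin 3 → G) × (Fin 3 → G)) :
    (Fin 3 → G) × (Fin 3 → G) := (s.1 ∘ σ, s.2 ∘ τ)

lemma act_mem {A : Finset G} (σ τ : Equiv.Perm (Fin 3)) {s : (Fin 3 → G) × (Fin 3 → G)}
    (hs : s ∈ sols 3 A) : act σ τ s ∈ sols 3 A := by
  obtain ⟨h1, h2, h3⟩ := mem_sols.1 hs
  refine mem_sols.2 ⟨fun i => h1 _, fun i => h2 _, ?_⟩
  simp only [act, Function.comp]
  rw [Equiv.sum_comp σ s.1, Equiv.sum_comp τ s.2, h3]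

lemma mid_act (σ τ : Equiv.Perm (Fin 3)) (s : (Fin 3 → G) × (Fin 3 → G)) (i j : Fin 3) :
    mid (act σ τ s) i j = mid s (σ i) (τ j) := by
  simp only [mid, act, Function.comp]
  rw [Equiv.sum_comp σ s.1]

omit [AddCommGroup G] in
lemma act_inj (σ τ : Equiv.Perm (Fin 3)) :
    Function.Injective (act σ τ : (Fin 3 → G) × (Fin 3 → G) → _) := fun s t h => by
  simp only [act, Prod.mk.injEq] at h
  exact Prod.ext (σ.surjective.injective_comp_right h.1) (τ.surjective.injective_comp_right h.2)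

open Classical in
lemma card_ev_le (A : Finset G) (i j : Fin 3) :
    ((sols 3 A).filter fun s => mid s 0 0 ∈ A).card ≤
      ((sols 3 A).filter fun s => mid s i j ∈ A).card := by
  refine Finset.card_le_card_of_injOn (act (Equiv.swap 0 i) (Equiv.swap 0 j)) (fun s hs => ?_)
    (act_inj _ _).injOn
  obtain ⟨h1, h2⟩ := Finset.mem_filter.1 hs
  refine Finset.mem_filter.2 ⟨act_mem _ _ h1, ?_⟩
  rwa [mid_act, Equiv.swap_apply_right, Equiv.swap_apply_right]

lemma energy_sq_le (A : Finset G) : energy 2 A ^ 2 ≤ A.card * ∑ c ∈ A, nu A c ^ 2 := by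
  rw [energy_two]
  exact sq_sum_le_card_mul_sum_sq (s := A) (f := nu A)

end Pool.Agent.Lib.MP_328240_co.Free
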