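import Pool.Agent.Lib.MP_328240_co.H84Base

/-!
From a family of nearly equal, nearly invariant fibres to a set with large energy.
-/

set_option autoImplicit false

namespace Pool.Agent.Lib.MP_328240_co.Free

open Finset

universe u

variable {G : Type u} [AddCommGroup G]

lemma nu_mono {B A : Finset G} (h : B ⊆ A) (c : G) : nu B c ≤ nu A c := by
  rw [← card_Nu, ← card_Nu]
  exact card_le_card fun x hx =>
    mem_Nu.2 ⟨h (mem_Nu.1 hx).1, h (mem_Nu.1 hx).2.1, h (mem_Nu.1 hx).2.2⟩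

/-- A set of popular differences of `B` has large energy if the energy of `B` is small. -/
lemma sym_energy (B H : Finset G) (c : G) {δ : ℝ} (hδ : 0 ≤ δ) (hB : B.Nonempty)
    (h : ∀ x ∈ H, δ * #B ≤ rr B (x - c)) :
    δ ^ 4 * (#B : ℝ) ^ 2 * (#H : ℝ) ^ 4 ≤ energy 2 B * energy 2 H := by
  classical
  have k1 : ∑ x ∈ H, rr B (x - c) = ∑ b ∈ B, #{x ∈ H | b + (x - c) ∈ B} := by
    simp only [rr, card_filter]
    rw [sum_comm]
  have k2 : ∑ b ∈ B, #{x ∈ H | b + (x - c) ∈ B} ^ 2 ≤ ∑ z ∈ H ×ˢ H, rr B (z.2 - z.1) := by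
    calc _ = ∑ b ∈ B, ∑ z ∈ H ×ˢ H, if b + (z.1 - c) ∈ B ∧ b + (z.2 - c) ∈ B then 1 else 0 :=
          sum_congr rfl fun b _ => by rw [sq, ← card_product, ← filter_product, card_filter]
      _ = ∑ z ∈ H ×ˢ H, #{b ∈ B | b + (z.1 - c) ∈ B ∧ b + (z.2 - c) ∈ B} := by
          rw [sum_comm]
          simp only [card_filter]
      _ ≤ _ := sum_le_sum fun z _ => by
          unfold rr
          refine card_le_card_of_injOn (fun b => b + (z.1 - c)) (fun b hb => ?_)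
            fun b _ b' _ e => by simpa using e
          have := (mem_filter.1 (mem_coe.1 hb)).2
          simp only [coe_filter, Set.mem_ofPred_eq]
          exact ⟨this.1, by convert this.2 using 1; abel⟩
  have k3 : ∑ z ∈ H ×ˢ H, rr B (z.2 - z.1) ≤
      ∑ t ∈ (H ×ˢ H).image fun z => z.2 - z.1, rr H t * rr B t := by
    rw [sum_comp (rr B) fun z : G × G => z.2 - z.1]
    refine sum_le_sum fun t _ => Nat.mul_le_mul_right _ ?_
    unfold rr
    refine card_le_card_of_injOn Prod.fst (fun z hz => ?_) fun z hz z' hz' e => ?_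
    · obtain ⟨a, b⟩ := mem_filter.1 (mem_coe.1 hz)
      simp only [coe_filter, Set.mem_ofPred_eq]
      exact ⟨(mem_product.1 a).1, by simpa [← b] using (mem_product.1 a).2⟩
    · have a := (mem_filter.1 (mem_coe.1 hz)).2
      have b := (mem_filter.1 (mem_coe.1 hz')).2
      exact Prod.ext e (by clear * - a b e; grind)
  have k4 := (sum_mul_sq_le_sq_mul_sq ((H ×ˢ H).image fun z => z.2 - z.1) (rr H) (rr B)).trans
    (Nat.mul_le_mul (sum_rr_sq_le H _) (sum_rr_sq_le B _))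
  rw [← energy_two, ← energy_two] at k4
  have k5 := (sq_sum_le_card_mul_sum_sq (s := B) (f := fun b => #{x ∈ H | b + (x - c) ∈ B})).trans
    (Nat.mul_le_mul_left _ (k2.trans k3))
  rw [← k1] at k5
  have k6 : δ * #B * #H ≤ ((∑ x ∈ H, rr B (x - c) : ℕ) : ℝ) := by
    push_cast
    simpa [mul_comm] using card_nsmul_le_sum H _ _ h
  have r4 := (Nat.cast_le (α := ℝ)).2 k4
  have r5 := (Nat.cast_le (α := ℝ)).2 k5
  rw [Nat.cast_pow, Nat.cast_mul] at r4 r5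
  rw [Nat.cast_id] at r5
  generalize ((∑ t ∈ (H ×ˢ H).image fun z => z.2 - z.1, rr H t * rr B t : ℕ) : ℝ) = Y at r4 r5
  have b0 : (0 : ℝ) < #B := Nat.cast_pos.2 hB.card_pos
  have r6 := (pow_le_pow_left₀ (by positivity) k6 2).trans r5
  have r7 : δ ^ 2 * #B * (#H : ℝ) ^ 2 ≤ Y := le_of_mul_le_mul_left (by linarith) b0
  have r8 := pow_le_pow_left₀ (by positivity) r7 2
  linarith

open Classical in
theorem core {A D : Finset G} (hA : A.Nonempty) (B : G → Finset G) (hB : ∀ i, B i ⊆ A)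
    (hw : ∀ m ∈ A, ∑ j ∈ D with m ∈ B j, #(B j) ≤ nu A m) (sh τ : G → G)
    (hsh : ∀ j, ∀ m ∈ B j, j + sh m ∈ A) (σ : G → G → ℕ) (h1 : ∀ i j, σ i j ≤ #(B i ∩ B j))
    (h2 : ∀ i j, σ i j ≤ rr (B i) (j - τ i)) {δ : ℝ} (hδ : 0 < δ)
    (hC : 2 * δ * (∑ c ∈ A, nu A c ^ 2 : ℕ) ≤
      (∑ i ∈ D, ∑ j ∈ D, #(B i ∩ B j) * (#(B i ∩ B j) * σ i j) : ℕ)) :
    ∃ H ⊆ A, δ ^ 2 / 3 * rho 2 A ≤ #H ∧ δ ^ 6 / 3 * (#H : ℝ) ^ 3 ≤ energy 2 H := by
  have N0 : (0 : ℝ) < #A := Nat.cast_pos.2 hA.card_pos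
  have sw : ∀ f : G → ℕ, ∑ i ∈ D, #(B i) * ∑ m ∈ B i, f m ≤ ∑ m ∈ A, nu A m * f m := fun f => by
    calc _ = ∑ i ∈ D, ∑ m ∈ A, if m ∈ B i then #(B i) * f m else 0 := sum_congr rfl fun i _ => by
          rw [← sum_filter, filter_mem_eq_inter, inter_eq_right.2 (hB i), mul_sum]
      _ = ∑ m ∈ A, (∑ j ∈ D with m ∈ B j, #(B j)) * f m := by
          rw [sum_comm]
          exact sum_congr rfl fun m _ => by rw [← sum_filter, sum_mul]
      _ ≤ _ := sum_le_sum fun m hm => Nat.mul_le_mul_right _ (hw m hm)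
  have qs : ∀ (i : G) (p : G → Prop), ∑ j ∈ D with p j, #(B i ∩ B j) * #(B j) =
      ∑ m ∈ B i, ∑ j ∈ D with p j ∧ m ∈ B j, #(B j) := fun i p => by
    simp only [← filter_filter, sum_filter (fun j => _ ∈ B j)]
    rw [sum_comm]
    exact sum_congr rfl fun j _ => by
      rw [← sum_filter, filter_mem_eq_inter, sum_const, smul_eq_mul]
  set F := ∑ c ∈ A, nu A c ^ 2 with hF
  set E := energy 2 A with hE
  let g : G → G → ℕ := fun i m =>
    ∑ j ∈ D with δ * (#(B i) * #(B j)) ≤ (#(B i ∩ B j) * σ i j : ℕ) ∧ m ∈ B j, #(B j)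
  have k1 : ∑ i ∈ D, #(B i) * ∑ m ∈ B i, nu A m ≤ F := by simpa only [hF, sq] using sw (nu A)
  have k2 : ∑ i ∈ D, #(B i) * #(B i) ≤ E := by simpa [hE, energy_two] using sw fun _ => 1
  have k3 : ∀ i ∈ D, ((∑ j ∈ D, #(B i ∩ B j) * (#(B i ∩ B j) * σ i j) : ℕ) : ℝ) ≤
      (#(B i) * ∑ m ∈ B i, g i m : ℕ) + δ * (#(B i) * ∑ m ∈ B i, nu A m : ℕ) := fun i _ => by
    have a1 : ∑ j ∈ D, #(B i ∩ B j) * #(B j) ≤ ∑ m ∈ B i, nu A m := by
      have := qs i fun _ => True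
      simp only [filter_true, true_and] at this
      exact this.trans_le (sum_le_sum fun m hm => hw m (hB i hm))
    have a2 := mul_le_mul_of_nonneg_left ((Nat.cast_le (α := ℝ)).2 (Nat.mul_le_mul_left #(B i) a1))
      hδ.le
    refine le_trans ?_ (add_le_add le_rfl a2)
    rw [← qs i fun j => δ * (#(B i) * #(B j)) ≤ (#(B i ∩ B j) * σ i j : ℕ), sum_filter]
    push_cast
    simp only [mul_sum, ← sum_add_distrib]
    refine sum_le_sum fun j _ => ?_
    have b1 : (#(B i ∩ B j) : ℝ) ≤ #(B i) := Nat.cast_le.2 (card_le_card inter_subset_left)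
    have b2 : (σ i j : ℝ) ≤ #(B j) := Nat.cast_le.2 ((h1 i j).trans (card_le_card inter_subset_right))
    have b3 : (0 : ℝ) ≤ #(B i ∩ B j) := Nat.cast_nonneg _
    split_ifs with h
    · have : (0 : ℝ) ≤ δ * (#(B i) * (#(B i ∩ B j) * #(B j))) := by positivity
      nlinarith [mul_le_mul_of_nonneg_left (mul_le_mul b1 b2 (Nat.cast_nonneg _) (Nat.cast_nonneg _))
        b3]
    · nlinarith [mul_le_mul_of_nonneg_left (not_le.1 h).le b3]
  have k4 := sum_le_sum k3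
  rw [sum_add_distrib, ← mul_sum, ← Nat.cast_sum, ← Nat.cast_sum, ← Nat.cast_sum] at k4
  have r1 := (Nat.cast_le (α := ℝ)).2 k1
  have r2 := (Nat.cast_le (α := ℝ)).2 k2
  have r3 : (E : ℝ) ^ 2 ≤ #A * F := by exact_mod_cast energy_sq_le A
  have E0 : (0 : ℝ) ≤ E / #A := by positivity
  have F0 : (0 : ℝ) < F := by
    obtain ⟨a, ha⟩ := hA
    have : 0 < E := card_pos.2 ⟨(fun _ => a, fun _ => a), mem_sols.2 ⟨fun _ => ha, fun _ => ha, rfl⟩⟩
    have : (0 : ℝ) < E := Nat.cast_pos.2 this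
    by_contra! h
    nlinarith
  have k5 : ∃ i, ∃ m ∈ B i, δ / 3 * ((∑ m ∈ B i, nu A m : ℕ) + #(B i) * (E / #A : ℝ)) ≤
      #(B i) * g i m := by
    by_contra! h
    have a1 : ∀ i ∈ D, ((#(B i) * ∑ m ∈ B i, g i m : ℕ) : ℝ) ≤
        δ / 3 * (#(B i) * ∑ m ∈ B i, nu A m : ℕ) + δ / 3 * (E / #A : ℝ) * (#(B i) * #(B i) : ℕ) :=
      fun i _ => by
        have := sum_le_card_nsmul _ _ _ fun m hm => (h i m hm).le
        rw [← mul_sum, nsmul_eq_mul] at this
        push_cast at this ⊢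
        linarith
    have a2 := sum_le_sum a1
    rw [sum_add_distrib, ← mul_sum, ← mul_sum, ← Nat.cast_sum, ← Nat.cast_sum, ← Nat.cast_sum] at a2
    have a3 : (E / #A : ℝ) * E ≤ F := by
      rw [div_mul_eq_mul_div, div_le_iff₀ N0]
      linarith
    have a4 := mul_le_mul_of_nonneg_left ((mul_le_mul_of_nonneg_left r2 E0).trans a3) hδ.le
    have a5 := mul_le_mul_of_nonneg_left r1 hδ.le
    have a6 := mul_pos hδ F0
    linarith
  obtain ⟨i, m, hm, k5⟩ := k5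
  set J := {j ∈ D | δ * (#(B i) * #(B j)) ≤ (#(B i ∩ B j) * σ i j : ℕ) ∧ m ∈ B j} with hJ
  have l0 : (0 : ℝ) < #(B i) := Nat.cast_pos.2 (card_pos.2 ⟨m, hm⟩)
  have k6 : ∀ j ∈ J, δ * #(B i) ≤ σ i j ∧ δ * #(B j) ≤ #(B i) := fun j hj => by
    obtain ⟨a1, a2⟩ := (mem_filter.1 hj).2
    have a3 : (0 : ℝ) < #(B j) := Nat.cast_pos.2 (card_pos.2 ⟨m, a2⟩)
    have b1 : (#(B i ∩ B j) : ℝ) ≤ #(B i) := Nat.cast_le.2 (card_le_card inter_subset_left)
    have b2 : (#(B i ∩ B j) : ℝ) ≤ #(B j) := Nat.cast_le.2 (card_le_card inter_subset_right)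
    have b3 : (σ i j : ℝ) ≤ #(B i) := (Nat.cast_le.2 (h1 i j)).trans b1
    have b4 : (0 : ℝ) ≤ σ i j := Nat.cast_nonneg _
    push_cast at a1
    exact ⟨le_of_mul_le_mul_left (by linarith [mul_le_mul_of_nonneg_right b2 b4]) a3,
      le_of_mul_le_mul_left (by linarith [mul_le_mul b1 b3 b4 l0.le]) l0⟩
  have k7 : δ * g i m ≤ #J * #(B i) := by
    have := sum_le_card_nsmul J _ _ fun j hj => (k6 j hj).2
    rw [← mul_sum, nsmul_eq_mul, ← Nat.cast_sum] at this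
    exact this
  have k8 : #(J.image fun j => j + sh m) = #J := card_image_of_injective _ (add_left_injective _)
  have k9 := sym_energy (B i) (J.image fun j => j + sh m) (sh m + τ i) hδ.le ⟨m, hm⟩ fun x hx => by
    obtain ⟨j, hj, rfl⟩ := mem_image.1 hx
    rw [show j + sh m - (sh m + τ i) = j - τ i by abel]
    exact (k6 j hj).1.trans (Nat.cast_le.2 (h2 i j))
  have k10 : (energy 2 (B i) : ℝ) ≤ (∑ m ∈ B i, nu A m : ℕ) := by
    rw [energy_two]
    exact Nat.cast_le.2 (sum_le_sum fun c _ => nu_mono (hB i) c)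
  have l1 : (#(B i) : ℝ) ≤ #A := Nat.cast_le.2 (card_le_card (hB i))
  refine ⟨J.image fun j => j + sh m, fun x hx => ?_, ?_, ?_⟩
  · obtain ⟨j, hj, rfl⟩ := mem_image.1 hx
    exact hsh j m (mem_filter.1 hj).2.2
  all_goals
    rw [k8] at *
    have s0 : (0 : ℝ) ≤ #J := Nat.cast_nonneg _
    have s1 : (0 : ℝ) ≤ (∑ m ∈ B i, nu A m : ℕ) := Nat.cast_nonneg _
    have s2 := mul_le_mul_of_nonneg_left k5 hδ.le
    have s3 := mul_le_mul_of_nonneg_left k7 l0.le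
    generalize ((∑ m ∈ B i, nu A m : ℕ) : ℝ) = V at *
  · have a1 : δ ^ 2 / 3 * (E / #A : ℝ) ≤ #J * #(B i) :=
      le_of_mul_le_mul_left (by nlinarith [mul_nonneg (sq_nonneg δ) s1]) l0
    rw [rho, ← hE, sq (#A : ℝ), ← div_div, ← mul_div_assoc, div_le_iff₀ N0]
    exact a1.trans (mul_le_mul_of_nonneg_left l1 s0)
  · have e0 : (0 : ℝ) ≤ energy 2 (J.image fun j => j + sh m) := Nat.cast_nonneg _
    generalize (energy 2 (J.image fun j => j + sh m) : ℝ) = Y at *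
    have a1 : δ ^ 2 / 3 * V ≤ #J * #(B i) ^ 2 := by
      nlinarith [mul_nonneg (sq_nonneg δ) (mul_nonneg l0.le E0)]
    rcases s0.eq_or_lt with h0 | h0
    · rw [← h0]
      simpa using e0
    have a2 := mul_le_mul_of_nonneg_left (k9.trans (mul_le_mul_of_nonneg_right k10 e0))
      (by positivity : 0 ≤ δ ^ 2 / 3)
    have a3 := mul_le_mul_of_nonneg_right a1 e0
    exact le_of_mul_le_mul_left (by linarith) (by positivity : (0 : ℝ) < #J * #(B i) ^ 2)

end Pool.Agent.Lib.MP_328240_co.Free
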