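import Pool.Agent.Lib.MP_328240_co.H84Core

/-!
The case `n = 2` for `K < 3 / 2` without the loss of a power of the size of the set.
-/

set_option autoImplicit false

namespace Pool.Agent.Lib.MP_328240_co.Free

open Finset

universe u

variable {G : Type u} [AddCommGroup G]

open Classical in
/-- Solutions with three middles in the shape of an `L` and the opposite middle. -/
noncomputable def PL (A : Finset G) : Finset ((Fin 3 → G) × (Fin 3 → G)) :=
  (sols 3 A).filter fun s => mid s 0 0 ∈ A ∧ mid s 1 1 ∈ A ∧ mid s 1 2 ∈ A ∧ mid s 2 1 ∈ A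

open Classical in
/-- Solutions with a full row of middles and one more. -/
noncomputable def PR (A : Finset G) : Finset ((Fin 3 → G) × (Fin 3 → G)) :=
  (sols 3 A).filter fun s => mid s 0 0 ∈ A ∧ mid s 0 1 ∈ A ∧ mid s 0 2 ∈ A ∧ mid s 1 0 ∈ A

open Classical in
/-- Solutions with a full column of middles and one more. -/
noncomputable def PC (A : Finset G) : Finset ((Fin 3 → G) × (Fin 3 → G)) :=
  (sols 3 A).filter fun s => mid s 0 0 ∈ A ∧ mid s 1 0 ∈ A ∧ mid s 2 0 ∈ A ∧ mid s 0 1 ∈ A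

theorem of_PL {A : Finset G} (hA : A.Nonempty) {δ : ℝ} (hδ : 0 < δ)
    (h : 2 * δ * (∑ c ∈ A, nu A c ^ 2 : ℕ) ≤ #(PL A)) :
    ∃ H ⊆ A, δ ^ 2 / 3 * rho 2 A ≤ #H ∧ δ ^ 6 / 3 * (#H : ℝ) ^ 3 ≤ energy 2 H := by
  classical
  let B : G → Finset G := fun i => {x ∈ A | x + i ∈ A}
  have mB : ∀ i x, x ∈ B i ↔ x ∈ A ∧ x + i ∈ A := fun i x => mem_filter
  let Z : G → G → Finset G := fun i j => {x ∈ B i ∩ B j | x + j ∈ B i}
  refine core (D := (A ×ˢ A).image fun z => z.1 - z.2) hA B (fun i => filter_subset _ _)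
    (fun m _ => ?_) id (fun _ => 0) (fun j m hm => by simpa [add_comm] using ((mB j m).1 hm).2)
    (fun i j => #(Z i j)) (fun i j => card_filter_le _ _) (fun i j => ?_) hδ
    (h.trans (Nat.cast_le.2 ?_))
  · rw [← card_Nu, ← card_sigma]
    refine card_le_card_of_injOn (fun x => (m + x.1, x.2)) (fun x hx => ?_) fun x _ y _ e => ?_
    · obtain ⟨a, b⟩ := mem_sigma.1 (mem_coe.1 hx)
      exact mem_Nu.2 ⟨((mB _ _).1 (mem_filter.1 a).2).2, ((mB _ _).1 b).1,
        by simpa using ((mB _ _).1 b).2⟩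
    · obtain ⟨c, p⟩ := x
      obtain ⟨d, q⟩ := y
      simpa using e
  · unfold rr
    refine card_le_card fun x hx => ?_
    obtain ⟨a, b⟩ := mem_filter.1 hx
    simp only [mem_filter, sub_zero]
    exact ⟨(mem_inter.1 a).1, b⟩
  · simp only [← card_product, ← card_sigma]
    refine card_le_card_of_injOn (fun s => ⟨s.1 2 - mid s 0 0, s.2 2 - mid s 0 0, s.1 1, s.2 1,
      mid s 0 0⟩) (fun s hs => ?_) fun s hs t ht e => ?_
    · obtain ⟨a, c0, c1, c2, c3⟩ := mem_filter.1 (mem_coe.1 hs)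
      obtain ⟨a, b, e⟩ := mem_sols.1 a
      simp only [mem_coe, mem_sigma, mem_product, mem_inter, mem_filter, mB, Z]
      refine ⟨mem_image.2 ⟨(_, _), mem_product.2 ⟨a 2, c0⟩, rfl⟩,
        mem_image.2 ⟨(_, _), mem_product.2 ⟨b 2, c0⟩, rfl⟩, ⟨⟨a 1, ?_⟩, a 1, ?_⟩,
        ⟨⟨b 1, ?_⟩, b 1, ?_⟩, ⟨⟨c0, ?_⟩, c0, ?_⟩, ?_, ?_⟩
      on_goal 1 => convert b 0 using 1
      on_goal 2 => convert c3 using 1
      on_goal 3 => convert c2 using 1
      on_goal 4 => convert a 0 using 1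
      on_goal 5 => convert a 2 using 1
      on_goal 6 => convert b 2 using 1
      on_goal 7 => convert b 2 using 1
      on_goal 8 => convert c1 using 1
      all_goals
        simp only [mid, Fin.sum_univ_three] at e ⊢
        clear * - e
        grind
    · have a := (mem_sols.1 (mem_filter.1 (mem_coe.1 hs)).1).2.2
      have b := (mem_sols.1 (mem_filter.1 (mem_coe.1 ht)).1).2.2
      simp only [mid, Fin.sum_univ_three, Sigma.mk.injEq, heq_eq_eq, Prod.mk.injEq] at a b e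
      refine Prod.ext (funext fun i => ?_) (funext fun i => ?_) <;> fin_cases i <;>
        simp only [Fin.zero_eta, Fin.mk_one, Fin.reduceFinMk, Fin.isValue] <;>
        clear * - a b e <;> grind

theorem of_PR {A : Finset G} (hA : A.Nonempty) {δ : ℝ} (hδ : 0 < δ)
    (h : 2 * δ * (∑ c ∈ A, nu A c ^ 2 : ℕ) ≤ #(PR A)) :
    ∃ H ⊆ A, δ ^ 2 / 3 * rho 2 A ≤ #H ∧ δ ^ 6 / 3 * (#H : ℝ) ^ 3 ≤ energy 2 H := by
  classical
  let B : G → Finset G := fun i => {x ∈ A | i - x ∈ A}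
  have mB : ∀ i x, x ∈ B i ↔ x ∈ A ∧ i - x ∈ A := fun i x => mem_filter
  let Z : G → G → Finset G := fun i j => {x ∈ B i ∩ B j | j - x ∈ B i}
  refine core (D := (A ×ˢ A).image fun z => z.1 + z.2) hA B (fun i => filter_subset _ _)
    (fun m _ => ?_) (fun m => -m) id
    (fun j m hm => by simpa [sub_eq_add_neg] using ((mB j m).1 hm).2)
    (fun i j => #(Z i j)) (fun i j => card_filter_le _ _) (fun i j => ?_) hδ
    (h.trans (Nat.cast_le.2 ?_))
  · rw [← card_Nu, ← card_sigma]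
    refine card_le_card_of_injOn (fun x => (x.2, x.1 - x.2)) (fun x hx => ?_) fun x _ y _ e => ?_
    · obtain ⟨a, b⟩ := mem_sigma.1 (mem_coe.1 hx)
      refine mem_Nu.2 ⟨((mB _ _).1 b).1, ((mB _ _).1 b).2, ?_⟩
      convert ((mB _ _).1 (mem_filter.1 a).2).2 using 1
      simp only
      abel
    · obtain ⟨c, p⟩ := x
      obtain ⟨d, q⟩ := y
      simp only [Prod.mk.injEq, Sigma.mk.injEq, heq_eq_eq] at e ⊢
      clear * - e
      grind
  · unfold rr
    refine card_le_card_of_injOn (fun x => i - x) (fun x hx => ?_) fun x _ y _ e => by simpa using e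
    obtain ⟨a, b⟩ := mem_filter.1 (mem_coe.1 hx)
    have c := (mB i x).1 (mem_inter.1 a).1
    simp only [coe_filter, Set.mem_ofPred_eq, id]
    exact ⟨(mB _ _).2 ⟨c.2, by simpa using c.1⟩, by convert b using 1; abel⟩
  · simp only [← card_product, ← card_sigma]
    refine card_le_card_of_injOn (fun s => ⟨s.1 1 + s.1 2, s.2 1 + s.2 2, mid s 0 0, s.1 1,
      s.2 1⟩) (fun s hs => ?_) fun s hs t ht e => ?_
    · obtain ⟨a, c0, c1, c2, c3⟩ := mem_filter.1 (mem_coe.1 hs)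
      obtain ⟨a, b, e⟩ := mem_sols.1 a
      simp only [mem_coe, mem_sigma, mem_product, mem_inter, mem_filter, mB, Z]
      refine ⟨mem_image.2 ⟨(_, _), mem_product.2 ⟨a 1, a 2⟩, rfl⟩,
        mem_image.2 ⟨(_, _), mem_product.2 ⟨b 1, b 2⟩, rfl⟩, ⟨⟨c0, ?_⟩, c0, ?_⟩,
        ⟨⟨a 1, ?_⟩, a 1, ?_⟩, ⟨⟨b 1, ?_⟩, b 1, ?_⟩, ?_, ?_⟩
      on_goal 1 => convert b 0 using 1
      on_goal 2 => convert a 0 using 1
      on_goal 3 => convert a 2 using 1
      on_goal 4 => convert c3 using 1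
      on_goal 5 => convert c1 using 1
      on_goal 6 => convert b 2 using 1
      on_goal 7 => convert b 2 using 1
      on_goal 8 => convert c2 using 1
      all_goals
        simp only [mid, Fin.sum_univ_three] at e ⊢
        clear * - e
        grind
    · have a := (mem_sols.1 (mem_filter.1 (mem_coe.1 hs)).1).2.2
      have b := (mem_sols.1 (mem_filter.1 (mem_coe.1 ht)).1).2.2
      simp only [mid, Fin.sum_univ_three, Sigma.mk.injEq, heq_eq_eq, Prod.mk.injEq] at a b e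
      refine Prod.ext (funext fun i => ?_) (funext fun i => ?_) <;> fin_cases i <;>
        simp only [Fin.zero_eta, Fin.mk_one, Fin.reduceFinMk, Fin.isValue] <;>
        clear * - a b e <;> grind

theorem PC_le (A : Finset G) : #(PC A) ≤ #(PR A) := by
  classical
  refine card_le_card_of_injOn Prod.swap (fun s hs => ?_) Prod.swap_injective.injOn
  obtain ⟨a, c⟩ := mem_filter.1 (mem_coe.1 hs)
  obtain ⟨a, b, e⟩ := mem_sols.1 a
  have m : ∀ i j, mid s.swap i j = mid s j i := fun i j => by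
    simp only [mid, Prod.fst_swap, Prod.snd_swap, e]
    abel
  refine mem_coe.2 (mem_filter.2 ⟨mem_sols.2 ⟨b, a, e.symm⟩, ?_⟩)
  simpa only [m] using c

theorem key : ∀ T : Finset (Fin 3 × Fin 3), 5 ≤ #T → ∃ σ τ : Equiv.Perm (Fin 3), (σ 0, τ 0) ∈ T ∧
    (((σ 1, τ 1) ∈ T ∧ (σ 1, τ 2) ∈ T ∧ (σ 2, τ 1) ∈ T) ∨
      ((σ 0, τ 1) ∈ T ∧ (σ 0, τ 2) ∈ T ∧ (σ 1, τ 0) ∈ T) ∨
      ((σ 1, τ 0) ∈ T ∧ (σ 2, τ 0) ∈ T ∧ (σ 0, τ 1) ∈ T)) := by decide +kernel

theorem nine_le (A : Finset G) :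
    9 * ∑ c ∈ A, nu A c ^ 2 ≤ 4 * energy 3 A + 180 * (#(PL A) + 2 * #(PR A)) := by
  classical
  set M := (sols 3 A).filter fun s =>
    5 ≤ #(univ.filter fun p : Fin 3 × Fin 3 => mid s p.1 p.2 ∈ A) with hM
  have k1 : 9 * ∑ c ∈ A, nu A c ^ 2 ≤ 4 * energy 3 A + 5 * #M :=
    calc 9 * ∑ c ∈ A, nu A c ^ 2 = ∑ _p : Fin 3 × Fin 3, ∑ c ∈ A, nu A c ^ 2 := by simp
      _ ≤ ∑ p : Fin 3 × Fin 3, #((sols 3 A).filter fun s => mid s p.1 p.2 ∈ A) :=
          sum_le_sum fun p _ => by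
            have a := sum_nu_sq_le A A
            have b := card_ev_le A p.1 p.2
            convert a.trans b
      _ = ∑ s ∈ sols 3 A, #(univ.filter fun p : Fin 3 × Fin 3 => mid s p.1 p.2 ∈ A) := by
          simp only [card_filter]
          exact sum_comm
      _ ≤ ∑ s ∈ sols 3 A, (4 + 5 * if 5 ≤ #(univ.filter fun p : Fin 3 × Fin 3 =>
            mid s p.1 p.2 ∈ A) then 1 else 0) := by
          refine sum_le_sum fun s _ => ?_
          have : #(univ.filter fun p : Fin 3 × Fin 3 => mid s p.1 p.2 ∈ A) ≤ 9 :=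
            (card_filter_le _ _).trans (by simp)
          split_ifs <;> omega
      _ = _ := by
          rw [sum_add_distrib, ← mul_sum, ← card_filter, sum_const, smul_eq_mul, mul_comm, energy]
  have k2 : #M ≤ 36 * #(PL A ∪ (PR A ∪ PC A)) :=
    calc #M ≤ #((univ : Finset (Equiv.Perm (Fin 3) × Equiv.Perm (Fin 3))).biUnion
          fun e => (sols 3 A).filter fun s => act e.1 e.2 s ∈ PL A ∪ (PR A ∪ PC A)) := by
          refine card_le_card fun s hs => ?_
          obtain ⟨h1, h2⟩ := mem_filter.1 hs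
          obtain ⟨σ, τ, e⟩ := key _ h2
          refine mem_biUnion.2 ⟨(σ, τ), mem_univ _, mem_filter.2 ⟨h1, ?_⟩⟩
          simp only [mem_filter, mem_univ, true_and] at e
          simp only [mem_union, PL, PR, PC, mem_filter, mid_act, act_mem σ τ h1, e.1, true_and]
          exact e.2
      _ ≤ ∑ e : Equiv.Perm (Fin 3) × Equiv.Perm (Fin 3),
          #((sols 3 A).filter fun s => act e.1 e.2 s ∈ PL A ∪ (PR A ∪ PC A)) := card_biUnion_le
      _ ≤ ∑ _e : Equiv.Perm (Fin 3) × Equiv.Perm (Fin 3), #(PL A ∪ (PR A ∪ PC A)) :=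
          sum_le_sum fun e _ => card_le_card_of_injOn (act e.1 e.2)
            (fun s hs => (mem_filter.1 hs).2) (act_inj _ _).injOn
      _ = _ := by simp [Fintype.card_perm, Nat.factorial]
  have k3 := card_union_le (PL A) (PR A ∪ PC A)
  have k4 := card_union_le (PR A) (PC A)
  have k5 := PC_le A
  omega

theorem eps_free (A : Finset G) (hA : A.Nonempty) {η : ℝ} (hη : 0 < η)
    (h : rho 3 A ≤ (9 / 4 - η) * rho 2 A ^ 2) :
    ∃ H ⊆ A, (η / 270) ^ 2 / 3 * rho 2 A ≤ #H ∧ (η / 270) ^ 6 / 3 * (#H : ℝ) ^ 3 ≤ energy 2 H := by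
  have N0 : (0 : ℝ) < #A := Nat.cast_pos.2 hA.card_pos
  have r1 : (energy 2 A : ℝ) ^ 2 ≤ #A * (∑ c ∈ A, nu A c ^ 2 : ℕ) := by
    exact_mod_cast energy_sq_le A
  have r2 := (Nat.cast_le (α := ℝ)).2 (nine_le A)
  have r3 : (energy 3 A : ℝ) * #A ≤ (9 / 4 - η) * (energy 2 A : ℝ) ^ 2 := by
    rw [rho, rho, div_pow, ← mul_div_assoc, div_le_div_iff₀ (by positivity) (by positivity)] at h
    exact le_of_mul_le_mul_right (by linarith) (by positivity : (0 : ℝ) < (#A : ℝ) ^ 3)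
  have r4 : (0 : ℝ) < energy 3 A := by
    obtain ⟨a, ha⟩ := hA
    exact Nat.cast_pos.2 (card_pos.2
      ⟨(fun _ => a, fun _ => a), mem_sols.2 ⟨fun _ => ha, fun _ => ha, rfl⟩⟩)
  have r5 : 0 ≤ 9 / 4 - η := by
    by_contra! hh
    nlinarith [mul_pos r4 N0, sq_nonneg (energy 2 A : ℝ)]
  have r6 : (energy 3 A : ℝ) ≤ (9 / 4 - η) * (∑ c ∈ A, nu A c ^ 2 : ℕ) :=
    le_of_mul_le_mul_right (by linarith [mul_le_mul_of_nonneg_left r1 r5]) N0
  rw [Nat.cast_mul, Nat.cast_add, Nat.cast_mul, Nat.cast_mul, Nat.cast_add, Nat.cast_mul] at r2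
  simp only [Nat.cast_ofNat] at r2
  rcases le_total (#(PR A) : ℝ) #(PL A) with c | c
  · exact of_PL hA (by positivity) (by linarith)
  · exact of_PR hA (by positivity) (by linarith)

end Pool.Agent.Lib.MP_328240_co.Free
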